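import Mathlib

/-!
# A small toolkit for recursively enumerable predicates

`SOne p` says that `p a ↔ ∃ k, R a k` for a primitive recursive relation `R`.
This is equivalent to `REPred p` and has convenient closure properties.
-/

namespace Pool.Agent.Work.MP_a32fd7_lc

open Encodable

variable {α β γ : Type*} [Primcodable α] [Primcodable β] [Primcodable γ]

/-- `p` is the projection of a primitive recursive relation. -/
def SOne (p : α → Prop) : Prop :=
  ∃ R : α → ℕ → Prop, PrimrecRel R ∧ ∀ a, p a ↔ ∃ k, R a k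

theorem SOne.of_eq {p q : α → Prop} (hp : SOne p) (h : ∀ a, p a ↔ q a) : SOne q := by
  obtain ⟨R, hR, hp⟩ := hp
  exact ⟨R, hR, fun a => (h a).symm.trans (hp a)⟩

theorem SOne.of_primrecPred {p : α → Prop} (hp : PrimrecPred p) : SOne p :=
  ⟨fun a _ => p a, hp.comp Primrec.fst, fun a => by simp⟩

theorem SOne.comp {p : β → Prop} (hp : SOne p) {f : α → β} (hf : Primrec f) :
    SOne fun a => p (f a) := by
  obtain ⟨R, hR, hp⟩ := hp
  exact ⟨fun a k => R (f a) k, PrimrecRel.comp hR (hf.comp Primrec.fst) Primrec.snd,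
    fun a => hp (f a)⟩

theorem SOne.and {p q : α → Prop} (hp : SOne p) (hq : SOne q) : SOne fun a => p a ∧ q a := by
  obtain ⟨R, hR, hp⟩ := hp
  obtain ⟨S, hS, hq⟩ := hq
  refine ⟨fun a k => R a k.unpair.1 ∧ S a k.unpair.2, ?_, ?_⟩
  · exact PrimrecPred.and
      (PrimrecRel.comp hR Primrec.fst (Primrec.fst.comp (Primrec.unpair.comp Primrec.snd)))
      (PrimrecRel.comp hS Primrec.fst (Primrec.snd.comp (Primrec.unpair.comp Primrec.snd)))
  · intro a
    beta_reduce
    rw [hp, hq]
    constructor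
    · rintro ⟨⟨k, hk⟩, ⟨l, hl⟩⟩
      exact ⟨Nat.pair k l, by simpa using ⟨hk, hl⟩⟩
    · rintro ⟨k, h1, h2⟩
      exact ⟨⟨_, h1⟩, ⟨_, h2⟩⟩

theorem SOne.or {p q : α → Prop} (hp : SOne p) (hq : SOne q) : SOne fun a => p a ∨ q a := by
  obtain ⟨R, hR, hp⟩ := hp
  obtain ⟨S, hS, hq⟩ := hq
  refine ⟨fun a k => R a k ∨ S a k, PrimrecPred.or hR hS, ?_⟩
  intro a
  beta_reduce
  rw [hp, hq]
  constructor
  · rintro (⟨k, hk⟩ | ⟨k, hk⟩)
    · exact ⟨k, Or.inl hk⟩
    · exact ⟨k, Or.inr hk⟩
  · rintro ⟨k, h | h⟩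
    · exact Or.inl ⟨k, h⟩
    · exact Or.inr ⟨k, h⟩

theorem SOne.exists {p : α → β → Prop} (hp : SOne fun a : α × β => p a.1 a.2) :
    SOne fun a => ∃ b, p a b := by
  classical
  obtain ⟨R, hR, hp⟩ := hp
  have hR' : Primrec fun a : (α × β) × ℕ => decide (R a.1 a.2) := by
    obtain ⟨h, h'⟩ := hR
    exact h'.of_eq fun a => decide_eq_decide.2 Iff.rfl
  refine ⟨fun a k => (decode (α := β) k.unpair.1).casesOn False
    (fun b => R (a, b) k.unpair.2), ?_, ?_⟩
  · have h1 : Primrec fun a : α × ℕ => (decode (α := β) a.2.unpair.1 : Option β) :=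
      Primrec.decode.comp (Primrec.fst.comp (Primrec.unpair.comp Primrec.snd))
    have h2 : Primrec₂ fun (a : α × ℕ) (b : β) => decide (R (a.1, b) a.2.unpair.2) :=
      hR'.comp (Primrec.pair (Primrec.pair (Primrec.fst.comp Primrec.fst) Primrec.snd)
        (Primrec.snd.comp (Primrec.unpair.comp (Primrec.snd.comp Primrec.fst))))
    have h3 := Primrec.option_casesOn h1 (Primrec.const false) h2
    refine Primrec.primrecPred (h3.of_eq ?_)
    rintro ⟨a, k⟩
    cases h : (decode (α := β) k.unpair.1 : Option β) with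
    | none => simp [h]
    | some b => simp [h]
  · intro a
    constructor
    · rintro ⟨b, hb⟩
      obtain ⟨k, hk⟩ := (hp (a, b)).1 hb
      exact ⟨Nat.pair (encode b) k, by simpa using hk⟩
    · rintro ⟨k, hk⟩
      cases h : (decode (α := β) k.unpair.1 : Option β) with
      | none => simp [h] at hk
      | some b =>
        simp only [h] at hk
        exact ⟨b, (hp (a, b)).2 ⟨_, hk⟩⟩

/-- Every r.e. predicate has a primitive recursive matrix. -/
theorem SOne.of_rePred {p : α → Prop} (hp : REPred p) : SOne p := by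
  classical
  unfold REPred at hp
  obtain ⟨c, hc⟩ := Nat.Partrec.Code.exists_code.1 hp
  refine ⟨fun a k => (Nat.Partrec.Code.evaln k c (encode a)).isSome = true, ?_, ?_⟩
  · have h1 : Primrec fun a : α × ℕ => Nat.Partrec.Code.evaln a.2 c (encode a.1) :=
      Nat.Partrec.Code.primrec_evaln.comp
        (Primrec.pair (Primrec.pair Primrec.snd (Primrec.const c))
          (Primrec.encode.comp Primrec.fst))
    have h2 : Primrec fun a : α × ℕ => (Nat.Partrec.Code.evaln a.2 c (encode a.1)).isSome :=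
      Primrec.option_isSome.comp h1
    exact Primrec.primrecPred (h2.of_eq fun a => by simp)
  · intro a
    have h1 : p a ↔ (Nat.Partrec.Code.eval c (encode a)).Dom := by
      rw [hc]
      simp [Part.assert]
    rw [h1, Part.dom_iff_mem]
    simp only [Nat.Partrec.Code.evaln_complete]
    constructor
    · rintro ⟨y, k, hk⟩
      exact ⟨k, Option.isSome_iff_exists.2 ⟨y, hk⟩⟩
    · rintro ⟨k, hk⟩
      obtain ⟨y, hy⟩ := Option.isSome_iff_exists.1 hk
      exact ⟨y, k, hy⟩

theorem SOne.rePred {p : α → Prop} (hp : SOne p) : REPred p := by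
  classical
  obtain ⟨R, hR, hp⟩ := hp
  have hR' : Primrec fun a : α × ℕ => decide (R a.1 a.2) := by
    obtain ⟨h, h'⟩ := hR
    exact h'.of_eq fun a => decide_eq_decide.2 Iff.rfl
  have h1 : Partrec fun a => Nat.rfind fun k => Part.some (decide (R a k)) :=
    Partrec.rfind (hR'.to_comp.partrec)
  refine h1.dom_re.of_eq fun a => ?_
  rw [hp]
  refine (Nat.rfind_dom' (p := fun k => Part.some (decide (R a k)))).trans ?_
  constructor
  · rintro ⟨k, hk, -⟩
    exact ⟨k, by simpa using hk⟩
  · rintro ⟨k, hk⟩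
    exact ⟨k, by simpa using hk, fun _ => trivial⟩

/-- Bounded universal quantification over a list. -/
theorem SOne.forall_mem_list {p : α → β → Prop} (hp : SOne fun a : α × β => p a.1 a.2)
    {l : α → List β} (hl : Primrec l) : SOne fun a => ∀ b ∈ l a, p a b := by
  classical
  obtain ⟨R, hR, hp⟩ := hp
  -- relation with bounded witness
  have h1 : PrimrecRel fun (b : β) (c : α × ℕ) => ∃ k < c.2, R (c.1, b) k := by
    have h2 : PrimrecRel fun (k : ℕ) (c : β × (α × ℕ)) => R (c.2.1, c.1) k :=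
      PrimrecRel.comp hR
        (Primrec.pair (Primrec.fst.comp (Primrec.snd.comp Primrec.snd))
          (Primrec.fst.comp Primrec.snd)) Primrec.fst
    have h3 := (h2.exists_mem_list).comp (f := fun c : β × (α × ℕ) => List.range c.2.2)
      (g := fun c : β × (α × ℕ) => c)
      (Primrec.list_range.comp (Primrec.snd.comp Primrec.snd)) Primrec.id
    exact h3.of_eq (fun c => by simp)
  refine ⟨fun a K => ∀ b ∈ l a, ∃ k < K, R (a, b) k, ?_, ?_⟩
  · have h4 := (h1.forall_mem_list).comp (f := fun c : α × ℕ => l c.1)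
      (g := fun c : α × ℕ => c) (hl.comp Primrec.fst) Primrec.id
    exact h4
  · intro a
    constructor
    · intro h
      have h5 : ∀ b : β, ∃ K, b ∈ l a → ∃ k < K, R (a, b) k := by
        intro b
        by_cases hb : b ∈ l a
        · obtain ⟨k, hk⟩ := (hp (a, b)).1 (h b hb)
          exact ⟨k + 1, fun _ => ⟨k, Nat.lt_succ_self k, hk⟩⟩
        · exact ⟨0, fun h => absurd h hb⟩
      choose K hK using h5
      refine ⟨((l a).map K).sum, fun b hb => ?_⟩
      obtain ⟨k, hk, hR⟩ := hK b hb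
      exact ⟨k, hk.trans_le (List.single_le_sum (fun _ _ => Nat.zero_le _) _
        (List.mem_map_of_mem hb)), hR⟩
    · rintro ⟨K, hK⟩ b hb
      obtain ⟨k, -, hk⟩ := hK b hb
      exact (hp (a, b)).2 ⟨k, hk⟩

/-- Bounded universal quantification over natural numbers. -/
theorem SOne.forall_lt {p : α → ℕ → Prop} (hp : SOne fun a : α × ℕ => p a.1 a.2)
    {f : α → ℕ} (hf : Primrec f) : SOne fun a => ∀ i < f a, p a i :=
  (hp.forall_mem_list (l := fun a => List.range (f a)) (Primrec.list_range.comp hf)).of_eq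
    fun a => by simp

end Pool.Agent.Work.MP_a32fd7_lc
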