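import Mathlib

/-!
# A covering lemma

Let `N` be a finite set and let `F i` (`i ∈ I`) be finitely many down-closed families of finite
sets.  If every subset of `N` with at most `g` elements belongs to some `F i` then `N` is covered
by few members of few of the families.
-/

namespace Pool.Agent.Work.MP_a32fd7_lc

open Finset

variable {α ι : Type*} [DecidableEq α]

/-- A maximal family of sets of size `g1` with property `P`, pairwise disjoint. -/
theorem exists_family (P : Finset α → Prop) {g1 : ℕ} (hg1 : 0 < g1) (N : Finset α) :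
    ∃ 𝒜 : Finset (Finset α), 𝒜.card * g1 ≤ N.card ∧ (∀ A ∈ 𝒜, P A) ∧
      ∀ A ⊆ N \ 𝒜.biUnion id, A.card = g1 → ¬ P A := by
  induction h : N.card using Nat.strong_induction_on generalizing N with
  | _ k ih =>
    by_cases hex : ∃ A ⊆ N, A.card = g1 ∧ P A
    · obtain ⟨A, hAN, hA, hPA⟩ := hex
      have hcard : (N \ A).card = N.card - g1 := by
        rw [card_sdiff_of_subset hAN, hA]
      have hle : g1 ≤ N.card := by
        rw [← hA]
        exact card_le_card hAN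
      obtain ⟨𝒜, h1, h2, h3⟩ := ih (N \ A).card (by omega) (N \ A) rfl
      classical
      refine ⟨insert A 𝒜, ?_, ?_, ?_⟩
      · have h4 : (insert A 𝒜).card ≤ 𝒜.card + 1 := card_insert_le _ _
        calc (insert A 𝒜).card * g1 ≤ (𝒜.card + 1) * g1 := Nat.mul_le_mul_right _ h4
          _ = 𝒜.card * g1 + g1 := by ring
          _ ≤ k := by omega
      · intro B hB
        rcases mem_insert.1 hB with rfl | hB
        · exact hPA
        · exact h2 B hB
      · intro B hB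
        apply h3 B
        intro x hx
        have h5 := hB hx
        simp only [mem_sdiff, mem_biUnion, mem_insert, id, not_exists, not_and] at h5 ⊢
        exact ⟨⟨h5.1, h5.2 A (Or.inl rfl)⟩, fun C hC => h5.2 C (Or.inr hC)⟩
    · refine ⟨∅, by simp, by simp, ?_⟩
      intro A hA hcard hP
      exact hex ⟨A, hA.trans sdiff_subset, hcard, hP⟩

/-- A small set hitting every large set many times. -/
theorem exists_hitting (N : Finset α) (I : Finset ι) (Nb : ι → Finset α) {δ : ℝ} (hδ : 0 < δ)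
    (hδ1 : δ ≤ 1) (hsub : ∀ i ∈ I, Nb i ⊆ N) (hbig : ∀ i ∈ I, δ * N.card ≤ (Nb i).card) (t : ℕ)
    (ht : (t : ℝ) ≤ δ / 2 * N.card) :
    ∃ G ⊆ N, G.card ≤ t ∧
      ∑ i ∈ I, (1 / 2 : ℝ) ^ (G ∩ Nb i).card ≤ I.card * (1 - δ / 4) ^ t := by
  induction t with
  | zero => exact ⟨∅, by simp, by simp, by simp⟩
  | succ t ih =>
    have ht' : (t : ℝ) + 1 ≤ δ / 2 * N.card := by exact_mod_cast ht
    obtain ⟨G, hGN, hGt, hG⟩ := ih (by linarith)
    have hGt' : (G.card : ℝ) ≤ t := by exact_mod_cast hGt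
    have hNpos : (0 : ℝ) < N.card := by
      by_contra hcon
      have h0 : (N.card : ℝ) = 0 := le_antisymm (not_lt.1 hcon) (Nat.cast_nonneg _)
      rw [h0] at ht'
      have : (0 : ℝ) ≤ t := Nat.cast_nonneg _
      linarith
    have hsd : ((N \ G).card : ℝ) = N.card - G.card := by
      rw [card_sdiff_of_subset hGN, Nat.cast_sub (card_le_card hGN)]
    have hne : (N \ G).Nonempty := by
      rw [← card_pos]
      have : (0 : ℝ) < (N \ G).card := by
        rw [hsd]
        nlinarith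
      exact_mod_cast this
    -- the average of the potential
    have hterm : ∀ i ∈ I, ∑ τ ∈ N \ G, (1 / 2 : ℝ) ^ (insert τ G ∩ Nb i).card ≤
        (N \ G).card * (1 - δ / 4) * (1 / 2 : ℝ) ^ (G ∩ Nb i).card := by
      intro i hi
      have h1 : ∀ τ ∈ N \ G, (1 / 2 : ℝ) ^ (insert τ G ∩ Nb i).card =
          (1 / 2 : ℝ) ^ (G ∩ Nb i).card * (1 - if τ ∈ Nb i then 1 / 2 else 0) := by
        intro τ hτ
        have hτG : τ ∉ G := (mem_sdiff.1 hτ).2
        by_cases h : τ ∈ Nb i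
        · rw [insert_inter_of_mem h, card_insert_of_notMem (by simp [hτG]), if_pos h, pow_succ]
          ring
        · rw [insert_inter_of_notMem h, if_neg h]
          ring
      rw [sum_congr rfl h1, ← mul_sum, sum_sub_distrib, sum_const, nsmul_eq_mul, mul_one,
        ← sum_filter, sum_const, nsmul_eq_mul]
      have h2 : (N \ G).filter (fun τ => τ ∈ Nb i) = Nb i \ G := by
        ext τ
        simp only [mem_filter, mem_sdiff]
        constructor
        · rintro ⟨⟨_, h⟩, h'⟩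
          exact ⟨h', h⟩
        · rintro ⟨h', h⟩
          exact ⟨⟨hsub i hi h', h⟩, h'⟩
      rw [h2]
      have h3 : ((Nb i).card : ℝ) - G.card ≤ (Nb i \ G).card := by
        have : (Nb i).card ≤ (Nb i \ G).card + G.card := by
          have := le_card_sdiff G (Nb i)
          omega
        have : ((Nb i).card : ℝ) ≤ (Nb i \ G).card + G.card := by exact_mod_cast this
        linarith
      have h4 := hbig i hi
      have hp : (0 : ℝ) < (1 / 2 : ℝ) ^ (G ∩ Nb i).card := by positivity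
      have hG0 : (0 : ℝ) ≤ G.card := Nat.cast_nonneg _
      have h5 : δ / 2 * (N \ G).card ≤ (Nb i \ G).card := by
        rw [hsd]
        nlinarith
      nlinarith
    have hsum : ∑ τ ∈ N \ G, ∑ i ∈ I, (1 / 2 : ℝ) ^ (insert τ G ∩ Nb i).card ≤
        ∑ τ ∈ N \ G, (1 - δ / 4) * ∑ i ∈ I, (1 / 2 : ℝ) ^ (G ∩ Nb i).card := by
      rw [sum_comm, sum_const, nsmul_eq_mul, ← mul_assoc, mul_sum]
      exact sum_le_sum fun i hi => hterm i hi
    obtain ⟨τ, hτ, hle⟩ := exists_le_of_sum_le hne hsum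
    have hτN := (mem_sdiff.1 hτ).1
    refine ⟨insert τ G, insert_subset hτN hGN, (card_insert_le _ _).trans (by omega), ?_⟩
    refine hle.trans ?_
    have h6 : (0 : ℝ) ≤ 1 - δ / 4 := by linarith
    calc (1 - δ / 4) * ∑ i ∈ I, (1 / 2 : ℝ) ^ (G ∩ Nb i).card
        ≤ (1 - δ / 4) * (I.card * (1 - δ / 4) ^ t) := mul_le_mul_of_nonneg_left hG h6
      _ = I.card * (1 - δ / 4) ^ (t + 1) := by ring

/-- One round of the covering lemma. -/
theorem one_round (I : Finset ι) (F : ι → Finset α → Prop)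
    (hF : ∀ i A B, A ⊆ B → F i B → F i A) {g g1 t : ℕ} (hg1 : 0 < g1) {δ : ℝ} (hδ : 0 < δ)
    (hδ1 : δ ≤ 1) (htg : t ≤ g) (hgt : 2 * t ≤ δ * g)
    (hpot : (I.card : ℝ) * (1 - δ / 4) ^ t < (1 / 2) ^ g1)
    (N : Finset α) (h : ∀ A ⊆ N, A.card ≤ g → ∃ i ∈ I, F i A) :
    ∃ i ∈ I, ∃ 𝒜 : Finset (Finset α), 𝒜.card ≤ N.card / g1 + 1 ∧ (∀ A ∈ 𝒜, F i A) ∧
      ((N \ 𝒜.biUnion id).card : ℝ) ≤ δ * N.card := by
  classical
  by_cases hNg : N.card ≤ g
  · obtain ⟨i, hi, hFi⟩ := h N (Subset.refl _) hNg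
    refine ⟨i, hi, {N}, by simp, by simpa using hFi, ?_⟩
    have h0 : N \ ({N} : Finset (Finset α)).biUnion id = ∅ := by simp
    rw [h0, card_empty, Nat.cast_zero]
    exact mul_nonneg hδ.le (Nat.cast_nonneg _)
  · have hNg' : (g : ℝ) ≤ N.card := by exact_mod_cast (not_le.1 hNg).le
    choose 𝒜 h1 h2 h3 using fun i => exists_family (F i) hg1 N
    by_contra hcon
    push Not at hcon
    have hbig : ∀ i ∈ I, δ * N.card ≤ (N \ (𝒜 i).biUnion id).card := by
      intro i hi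
      refine (hcon i hi (𝒜 i) ?_ (h2 i)).le
      have h4 : (𝒜 i).card ≤ N.card / g1 := (Nat.le_div_iff_mul_le hg1).2 (h1 i)
      omega
    have ht : (t : ℝ) ≤ δ / 2 * N.card := by nlinarith
    obtain ⟨G, hGN, hGt, hG⟩ := exists_hitting N I (fun i => N \ (𝒜 i).biUnion id) hδ hδ1
      (fun i _ => sdiff_subset) hbig t ht
    obtain ⟨i, hi, hFi⟩ := h G hGN (hGt.trans htg)
    have h5 : (1 / 2 : ℝ) ^ (G ∩ (N \ (𝒜 i).biUnion id)).card < (1 / 2) ^ g1 := by
      refine lt_of_le_of_lt ?_ hpot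
      refine le_trans ?_ hG
      exact single_le_sum (f := fun i => (1 / 2 : ℝ) ^ (G ∩ (N \ (𝒜 i).biUnion id)).card)
        (fun _ _ => by positivity) hi
    have h6 : g1 ≤ (G ∩ (N \ (𝒜 i).biUnion id)).card := by
      by_contra hlt
      have h7 : (1 / 2 : ℝ) ^ g1 ≤ (1 / 2) ^ (G ∩ (N \ (𝒜 i).biUnion id)).card :=
        pow_le_pow_of_le_one (by norm_num) (by norm_num) (by omega)
      linarith
    obtain ⟨A, hA1, hA2⟩ := exists_subset_card_eq h6
    exact h3 i A (hA1.trans inter_subset_right) hA2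
      (hF i A G (hA1.trans inter_subset_left) hFi)

/-- The covering lemma. -/
theorem exists_cover [DecidableEq ι] (I : Finset ι) (F : ι → Finset α → Prop)
    (hF : ∀ i A B, A ⊆ B → F i B → F i A) {g g1 t : ℕ} (hg1 : 0 < g1) {δ : ℝ} (hδ : 0 < δ)
    (hδ1 : δ ≤ 1) (htg : t ≤ g) (hgt : 2 * t ≤ δ * g)
    (hpot : (I.card : ℝ) * (1 - δ / 4) ^ t < (1 / 2) ^ g1)
    (N : Finset α) (h : ∀ A ⊆ N, A.card ≤ g → ∃ i ∈ I, F i A) (M : ℕ)
    (hM : δ ^ M * N.card < 1) :
    ∃ s : Finset (ι × Finset (Finset α)), s.card ≤ M ∧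
      (∀ p ∈ s, p.1 ∈ I ∧ p.2.card ≤ N.card / g1 + 1 ∧ ∀ A ∈ p.2, F p.1 A) ∧
      ∀ τ ∈ N, ∃ p ∈ s, ∃ A ∈ p.2, τ ∈ A := by
  have key : ∀ M : ℕ, ∃ s : Finset (ι × Finset (Finset α)), ∃ N' ⊆ N, s.card ≤ M ∧
      (∀ p ∈ s, p.1 ∈ I ∧ p.2.card ≤ N.card / g1 + 1 ∧ ∀ A ∈ p.2, F p.1 A) ∧
      (∀ τ ∈ N, τ ∉ N' → ∃ p ∈ s, ∃ A ∈ p.2, τ ∈ A) ∧ (N'.card : ℝ) ≤ δ ^ M * N.card := by
    intro M
    induction M with
    | zero => exact ⟨∅, N, Subset.refl _, by simp, by simp, by simp, by simp⟩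
    | succ M ih =>
      obtain ⟨s, N', hN', h1, h2, h3, h4⟩ := ih
      obtain ⟨i, hi, 𝒜, h5, h6, h7⟩ := one_round I F hF hg1 hδ hδ1 htg hgt hpot N'
        (fun A hA hA' => h A (hA.trans hN') hA')
      refine ⟨insert (i, 𝒜) s, N' \ 𝒜.biUnion id, sdiff_subset.trans hN',
        (card_insert_le _ _).trans (by omega), ?_, ?_, ?_⟩
      · intro p hp
        rcases mem_insert.1 hp with rfl | hp
        · refine ⟨hi, h5.trans ?_, h6⟩
          have := Nat.div_le_div_right (c := g1) (card_le_card hN')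
          omega
        · exact h2 p hp
      · intro τ hτ hτ'
        by_cases h8 : τ ∈ N'
        · have h9 : τ ∈ 𝒜.biUnion id := by
            by_contra h10
            exact hτ' (mem_sdiff.2 ⟨h8, h10⟩)
          obtain ⟨A, hA, hτA⟩ := mem_biUnion.1 h9
          exact ⟨(i, 𝒜), mem_insert_self _ _, A, hA, hτA⟩
        · obtain ⟨p, hp, A, hA, hτA⟩ := h3 τ hτ h8
          exact ⟨p, mem_insert_of_mem hp, A, hA, hτA⟩
      · calc ((N' \ 𝒜.biUnion id).card : ℝ) ≤ δ * N'.card := h7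
          _ ≤ δ * (δ ^ M * N.card) := mul_le_mul_of_nonneg_left h4 hδ.le
          _ = δ ^ (M + 1) * N.card := by ring
  obtain ⟨s, N', hN', h1, h2, h3, h4⟩ := key M
  refine ⟨s, h1, h2, fun τ hτ => h3 τ hτ ?_⟩
  have h5 : (N'.card : ℝ) < 1 := h4.trans_lt hM
  have h6 : N'.card = 0 := by
    have : N'.card < 1 := by exact_mod_cast h5
    omega
  rw [card_eq_zero.1 h6]
  simp

/-- Counting sets of bounded size. -/
theorem card_le_of_card_le (W : Finset α) (𝓑 : Finset (Finset α)) (m : ℕ)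
    (h : ∀ b ∈ 𝓑, b ⊆ W ∧ b.card ≤ m) :
    𝓑.card ≤ (W.card + 1) ^ m := by
  classical
  -- every `b` is the range of a function `Fin m → Option W`
  have h1 : ∀ b ∈ 𝓑, ∃ f : Fin m → Option W, ∀ x : α,
      x ∈ b ↔ ∃ (j : Fin m) (hx : x ∈ W), f j = some ⟨x, hx⟩ := by
    intro b hb
    obtain ⟨hbW, hbm⟩ := h b hb
    let e := b.equivFin
    refine ⟨fun j => if hj : (j : ℕ) < b.card then
      some ⟨(e.symm ⟨j, hj⟩ : b).1, hbW (e.symm ⟨j, hj⟩ : b).2⟩ else none, fun x => ?_⟩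
    constructor
    · intro hx
      have hlt : ((e ⟨x, hx⟩ : Fin b.card) : ℕ) < m := lt_of_lt_of_le (e ⟨x, hx⟩).2 hbm
      refine ⟨⟨(e ⟨x, hx⟩ : Fin b.card), hlt⟩, hbW hx, ?_⟩
      simp
    · rintro ⟨j, hx, hj⟩
      beta_reduce at hj
      by_cases hlt : (j : ℕ) < b.card
      · rw [dif_pos hlt] at hj
        have : ((e.symm ⟨j, hlt⟩ : b) : α) = x := by
          have := Option.some.inj hj
          exact congrArg Subtype.val this
        rw [← this]
        exact (e.symm ⟨j, hlt⟩ : b).2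
      · rw [dif_neg hlt] at hj
        exact absurd hj (by simp)
  choose! f hf using h1
  have h2 : 𝓑.card ≤ (univ : Finset (Fin m → Option W)).card := by
    apply card_le_card_of_injOn f (fun _ _ => mem_coe.2 (mem_univ _))
    intro b hb b' hb' hbb'
    ext x
    rw [hf b hb, hf b' hb', hbb']
  refine h2.trans ?_
  simp

end Pool.Agent.Work.MP_a32fd7_lc
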