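import Mathlib

/-!
# Numerical facts used in the main step
-/

namespace Pool.Agent.Work.MP_a32fd7_lc

open scoped NNReal ENNReal
open Filter Topology

theorem half_pow_bound (m : ℕ) :
    (1 - (1 / 2 : ℝ) ^ m / 4) ^ (4 * 2 ^ m) ≤ 1 / 2 := by
  have hpos : (0 : ℝ) < (1 / 2 : ℝ) ^ m := by positivity
  have hle : (1 / 2 : ℝ) ^ m ≤ 1 := pow_le_one₀ (by norm_num) (by norm_num)
  have h1 : 1 - (1 / 2 : ℝ) ^ m / 4 ≤ Real.exp (-((1 / 2 : ℝ) ^ m / 4)) := by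
    have := Real.add_one_le_exp (-((1 / 2 : ℝ) ^ m / 4))
    linarith
  have h2 : (1 - (1 / 2 : ℝ) ^ m / 4) ^ (4 * 2 ^ m) ≤
      Real.exp (-((1 / 2 : ℝ) ^ m / 4)) ^ (4 * 2 ^ m) :=
    pow_le_pow_left₀ (by linarith) h1 _
  refine h2.trans ?_
  rw [← Real.exp_nat_mul]
  have h3 : ((4 * 2 ^ m : ℕ) : ℝ) * -((1 / 2 : ℝ) ^ m / 4) = -1 := by
    push_cast
    have h4 : (2 : ℝ) ^ m * (1 / 2 : ℝ) ^ m = 1 := by
      rw [← mul_pow]
      norm_num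
    linear_combination (-1) * h4
  rw [h3, Real.exp_neg]
  have h5 : (2 : ℝ) ≤ Real.exp 1 := by
    have := Real.add_one_le_exp (1 : ℝ)
    linarith
  rw [inv_le_comm₀ (Real.exp_pos 1) (by norm_num)]
  simpa using h5

theorem pot_bound {n R m g1 c : ℕ} (hc : c ≤ (2 ^ (n + 1)) ^ (R * g1)) (hg1 : 0 < g1)
    (hm : (n + 1) * R + 1 < 2 ^ m) :
    (c : ℝ) * (1 - (1 / 2 : ℝ) ^ m / 4) ^ (4 * 2 ^ m * (2 ^ m * g1)) < (1 / 2) ^ g1 := by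
  have h1 : (1 - (1 / 2 : ℝ) ^ m / 4) ^ (4 * 2 ^ m * (2 ^ m * g1)) ≤
      (1 / 2 : ℝ) ^ (2 ^ m * g1) := by
    rw [pow_mul]
    refine pow_le_pow_left₀ ?_ (half_pow_bound m) _
    have hle : (1 / 2 : ℝ) ^ m ≤ 1 := pow_le_one₀ (by norm_num) (by norm_num)
    have : (0 : ℝ) ≤ 1 - (1 / 2 : ℝ) ^ m / 4 := by linarith
    positivity
  have h2 : (c : ℝ) ≤ (2 : ℝ) ^ ((n + 1) * (R * g1)) := by
    rw [pow_mul]
    exact_mod_cast hc
  have h3 : (n + 1) * (R * g1) + g1 < 2 ^ m * g1 := by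
    calc (n + 1) * (R * g1) + g1 = ((n + 1) * R + 1) * g1 := by ring
      _ < 2 ^ m * g1 := Nat.mul_lt_mul_of_pos_right hm hg1
  obtain ⟨k, hk⟩ := Nat.exists_eq_add_of_lt h3
  calc (c : ℝ) * (1 - (1 / 2 : ℝ) ^ m / 4) ^ (4 * 2 ^ m * (2 ^ m * g1))
      ≤ (2 : ℝ) ^ ((n + 1) * (R * g1)) * (1 / 2 : ℝ) ^ (2 ^ m * g1) := by
        refine mul_le_mul h2 h1 ?_ (by positivity)
        have hle : (1 / 2 : ℝ) ^ m ≤ 1 := pow_le_one₀ (by norm_num) (by norm_num)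
        have : (0 : ℝ) ≤ 1 - (1 / 2 : ℝ) ^ m / 4 := by linarith
        positivity
    _ = (1 / 2 : ℝ) ^ (g1 + (k + 1)) := by
        rw [hk]
        have h5 : (n + 1) * (R * g1) + g1 + k + 1 = (n + 1) * (R * g1) + (g1 + (k + 1)) := by ring
        rw [h5, pow_add (1 / 2 : ℝ) ((n + 1) * (R * g1)), ← mul_assoc, ← mul_pow]
        norm_num
    _ < (1 / 2) ^ g1 := pow_lt_pow_right_of_lt_one₀ (by norm_num) (by norm_num) (by omega)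

theorem eventually_poly_lt (Q R : ℕ) : ∀ᶠ m : ℕ in atTop, (Q * m + 1) * R + 1 < 2 ^ m := by
  have h1 : Tendsto (fun m : ℕ => ((m : ℝ) ^ 1) / 2 ^ m) atTop (𝓝 0) :=
    tendsto_pow_const_div_const_pow_of_one_lt 1 (by norm_num)
  have h2 : Tendsto (fun m : ℕ => ((m : ℝ) ^ 0) / 2 ^ m) atTop (𝓝 0) :=
    tendsto_pow_const_div_const_pow_of_one_lt 0 (by norm_num)
  have h3 : Tendsto (fun m : ℕ => ((Q : ℝ) * R) * (((m : ℝ) ^ 1) / 2 ^ m) +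
      ((R : ℝ) + 1) * (((m : ℝ) ^ 0) / 2 ^ m)) atTop (𝓝 0) := by
    simpa using (h1.const_mul ((Q : ℝ) * R)).add (h2.const_mul ((R : ℝ) + 1))
  filter_upwards [h3.eventually_lt_const (show (0 : ℝ) < 1 by norm_num)] with m hm
  have hp : (0 : ℝ) < 2 ^ m := by positivity
  have h4 : ((Q : ℝ) * R) * (((m : ℝ) ^ 1) / 2 ^ m) + ((R : ℝ) + 1) * (((m : ℝ) ^ 0) / 2 ^ m) =
      ((Q * m + 1) * R + 1) / 2 ^ m := by
    field_simp
    ring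
  rw [h4, div_lt_one hp] at hm
  exact_mod_cast hm

/-- The number of pieces times the tail factor tends to zero. -/
theorem tendsto_pieces {Q a : ℕ} (haQ : a ≤ Q) {r : ℝ≥0} (hr : (2 * r) ^ Q < 2 ^ a) (C : ℝ≥0) :
    Tendsto (fun m : ℕ => C * (((2 ^ (Q * m) / 2 ^ (a * m) + 1 : ℕ) : ℝ≥0) * r ^ (Q * m)))
      atTop (𝓝 0) := by
  obtain ⟨e, rfl⟩ := Nat.exists_eq_add_of_le haQ
  -- the ratio
  set θ : ℝ≥0 := 2 ^ e * r ^ (a + e) with hθ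
  have hθ1 : θ < 1 := by
    have h1 : 2 ^ a * θ < 2 ^ a * 1 := by
      rw [hθ, mul_one]
      calc (2 : ℝ≥0) ^ a * (2 ^ e * r ^ (a + e)) = (2 * r) ^ (a + e) := by
            rw [mul_pow, pow_add]; ring
        _ < 2 ^ a := hr
    exact lt_of_mul_lt_mul_left h1 zero_le
  have h2 : ∀ m : ℕ, C * (((2 ^ ((a + e) * m) / 2 ^ (a * m) + 1 : ℕ) : ℝ≥0) *
      r ^ ((a + e) * m)) ≤ (2 * C) * θ ^ m := by
    intro m
    have h3 : 2 ^ ((a + e) * m) / 2 ^ (a * m) = 2 ^ (e * m) := by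
      rw [add_mul, pow_add, Nat.mul_div_cancel_left _ (by positivity)]
    rw [h3]
    have h4 : ((2 ^ (e * m) + 1 : ℕ) : ℝ≥0) ≤ 2 * 2 ^ (e * m) := by
      have h5 : 2 ^ (e * m) + 1 ≤ 2 * 2 ^ (e * m) := by
        have : 0 < 2 ^ (e * m) := by positivity
        omega
      exact_mod_cast h5
    calc C * (((2 ^ (e * m) + 1 : ℕ) : ℝ≥0) * r ^ ((a + e) * m))
        ≤ C * ((2 * 2 ^ (e * m)) * r ^ ((a + e) * m)) := by gcongr
      _ = (2 * C) * θ ^ m := by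
        rw [hθ, mul_pow, ← pow_mul, ← pow_mul]
        ring
  have h6 : Tendsto (fun m : ℕ => (2 * C) * θ ^ m) atTop (𝓝 0) := by
    simpa using (tendsto_pow_atTop_nhds_zero_of_lt_one zero_le hθ1).const_mul (2 * C)
  exact tendsto_of_tendsto_of_tendsto_of_le_of_le tendsto_const_nhds h6 (fun _ => zero_le) h2

end Pool.Agent.Work.MP_a32fd7_lc
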