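import Pool.Agent.Work.MP_a32fd7_lc.Compact
import Pool.Agent.Work.MP_a32fd7_lc.Cover
import Pool.Agent.Work.MP_a32fd7_lc.Numerics

/-!
# The covering case of the main step
-/

namespace Pool.Agent.Work.MP_a32fd7_lc

open scoped NNReal ENNReal
open Filter Topology

/-- The strings extending `σ` at which `Φ` has produced an element of `A`. -/
def TA (Φ : List Bool → List Bool → Prop) (σ : List Bool) (A : List Bool → Prop)
    (ρ : List Bool) : Prop :=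
  σ <+: ρ ∧ ∃ τ, A τ ∧ ∃ i, i ≤ ρ.length ∧ Φ (ρ.take i) τ

/-- `f` is dominated by the `y`-weight on long words. -/
def Good (x y κ : ℝ≥0) (f : List Bool → ℝ≥0) : Prop :=
  ∀ (n : ℕ) (w : List Bool), n ≤ w.length → f w ≤ (κ * (x / y) ^ n) * pw y w

theorem Good.wt_le {x y κ : ℝ≥0} {f : List Bool → ℝ≥0} (hf : Good x y κ f) {n R : ℕ}
    {V : Set (List Bool)} (hV : ∀ w ∈ V, n ≤ w.length) (hVw : wt (pw y) V ≤ R) :
    wt f V ≤ ((κ * (x / y) ^ n * R : ℝ≥0) : ℝ≥0∞) := by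
  calc wt f V ≤ wt (fun w => (κ * (x / y) ^ n) * pw y w) V :=
        wt_le_wt fun w hw => hf n w (hV w hw)
    _ = ((κ * (x / y) ^ n : ℝ≥0) : ℝ≥0∞) * wt (pw y) V := wt_mul_left _ _ _
    _ ≤ ((κ * (x / y) ^ n : ℝ≥0) : ℝ≥0∞) * R := by gcongr
    _ = _ := by push_cast; rfl

/-- Cardinality bound for the short parts. -/
theorem card_bound {y : ℝ≥0} {Q a m R : ℕ} (hy1 : y ≤ 1) (hQ : 1 ≤ 2 ^ a * y ^ Q)
    {b : Finset (List Bool)} (hb : ∀ w ∈ b, w.length ≤ Q * m) (hbR : ∑ w ∈ b, pw y w ≤ R) :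
    b.card ≤ R * 2 ^ (a * m) := by
  have h1 : (b.card : ℝ≥0) * y ^ (Q * m) ≤ R := by
    calc (b.card : ℝ≥0) * y ^ (Q * m) = ∑ w ∈ b, y ^ (Q * m) := by
          rw [Finset.sum_const, nsmul_eq_mul]
      _ ≤ ∑ w ∈ b, pw y w :=
          Finset.sum_le_sum fun w hw => pow_le_pow_of_le_one zero_le hy1 (hb w hw)
      _ ≤ R := hbR
  have h2 : (1 : ℝ≥0) ≤ 2 ^ (a * m) * y ^ (Q * m) := by
    rw [pow_mul, pow_mul, ← mul_pow]
    exact one_le_pow₀ hQ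
  have h3 : (b.card : ℝ≥0) ≤ R * 2 ^ (a * m) := by
    calc (b.card : ℝ≥0) = b.card * 1 := (mul_one _).symm
      _ ≤ b.card * (2 ^ (a * m) * y ^ (Q * m)) := by gcongr
      _ = (b.card * y ^ (Q * m)) * 2 ^ (a * m) := by ring
      _ ≤ R * 2 ^ (a * m) := by gcongr
  exact_mod_cast h3

theorem caseB {x y : ℝ≥0} (hy1 : y ≤ 1) {Q a : ℕ} (hQ : 1 ≤ 2 ^ a * y ^ Q)
    {σ : List Bool} {S : List Bool → Prop} {Φ : List Bool → List Bool → Prop}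
    {B0 : Set (List Bool)} {R L m : ℕ} (hB0 : wt (pw y) B0 ≤ R)
    (hS : ∀ ρ, S ρ → ¬ Safe x B0 ρ) (hm3 : 3 ≤ m) (hm : (Q * m + 1) * R + 1 < 2 ^ m)
    (h : ∀ A : Finset (List Bool), (∀ τ ∈ A, τ.length = Q * m) → A.card ≤ 2 ^ ((a + 4) * m) →
      ∃ B, InV y R L B0 B ∧ ∀ ρ, (S ρ ∨ TA Φ σ (fun τ => τ ∈ A) ρ) → ¬ Safe x B ρ) :
    ∃ B' : Set (List Bool), (∀ ρ, S ρ → ¬ Safe x B' ρ) ∧
      (∀ ρ, TA Φ σ (fun τ => τ.length = Q * m) ρ → ¬ Safe x B' ρ) ∧ wt (pw y) B' ≠ ⊤ ∧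
      ∀ (κ : ℝ≥0) (f : List Bool → ℝ≥0), Good x y κ f →
        wt f B' ≤ wt f B0 + ((((Q + 1 : ℕ) : ℝ≥0) * (κ * (x / y) ^ L * R) +
          ((Q + 1 : ℕ) : ℝ≥0) * (((2 ^ (Q * m) / 2 ^ (a * m) + 1 : ℕ) : ℝ≥0) *
            (κ * (x / y) ^ (Q * m) * R)) : ℝ≥0) : ℝ≥0∞) := by
  classical
  set n := Q * m with hn
  let W : Finset (List Bool) := (wordsLE n).toFinset
  let I : Finset (Finset (List Bool)) := W.powerset.filter fun b =>
    ∃ B, InV y R L B0 B ∧ (∀ ρ, S ρ → ¬ Safe x B ρ) ∧ b = W.filter (· ∈ B)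
  let F : Finset (List Bool) → Finset (List Bool) → Prop := fun b A =>
    ∃ v : Set (List Bool), (∀ w ∈ v, n ≤ w.length) ∧ wt (pw y) v ≤ R ∧
      ∀ ρ, TA Φ σ (fun τ => τ ∈ A) ρ → ¬ Safe x (↑b ∪ v) ρ
  have hF : ∀ b A A', A ⊆ A' → F b A' → F b A := by
    rintro b A A' hAA' ⟨v, h1, h2, h3⟩
    refine ⟨v, h1, h2, fun ρ hρ => h3 ρ ?_⟩
    obtain ⟨h4, τ, hτ, h5⟩ := hρ
    exact ⟨h4, τ, hAA' hτ, h5⟩
  have hI : ∀ b ∈ I, b ⊆ W ∧ b.card ≤ R * 2 ^ (a * m) := by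
    intro b hb
    rw [Finset.mem_filter, Finset.mem_powerset] at hb
    obtain ⟨h1, B, h2, -, h3⟩ := hb
    refine ⟨h1, card_bound hy1 hQ (fun w hw => mem_wordsLE.1 (List.mem_toFinset.1 (h1 hw))) ?_⟩
    have h4 := sum_le_wt (pw y) (s := b) (B := B) (fun w hw => by
      rw [Finset.mem_coe, h3, Finset.mem_filter] at hw
      exact hw.2)
    exact_mod_cast h4.trans h2.1
  have hIcard : I.card ≤ (2 ^ (n + 1)) ^ (R * 2 ^ (a * m)) := by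
    have h1 := card_le_of_card_le W I _ hI
    have h2 : W.card + 1 = 2 ^ (n + 1) := by
      rw [List.toFinset_card_of_nodup (nodup_wordsLE n), length_wordsLE]
    rwa [h2] at h1
  let N : Finset (List Bool) := (wordsEq n).toFinset
  have hN : ∀ τ, τ ∈ N ↔ τ.length = n := fun τ => by
    rw [List.mem_toFinset, mem_wordsEq]
  have hNcard : N.card = 2 ^ n := by
    rw [List.toFinset_card_of_nodup (nodup_wordsEq n), length_wordsEq]
  have hcov : ∀ A ⊆ N, A.card ≤ 2 ^ ((a + 4) * m) → ∃ b ∈ I, F b A := by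
    intro A hA hAc
    obtain ⟨B, hB1, hB2⟩ := h A (fun τ hτ => (hN τ).1 (hA hτ)) hAc
    refine ⟨W.filter (· ∈ B), ?_, B ∩ {w | n ≤ w.length}, fun w hw => hw.2,
      (wt_mono _ Set.inter_subset_left).trans hB1.1, ?_⟩
    · rw [Finset.mem_filter, Finset.mem_powerset]
      exact ⟨Finset.filter_subset _ _, B, hB1, fun ρ hρ => hB2 ρ (Or.inl hρ), rfl⟩
    · intro ρ hρ hsafe
      refine hB2 ρ (Or.inr hρ) (hsafe.mono fun w hw => ?_)
      by_cases hlen : w.length ≤ n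
      · left
        rw [Finset.mem_coe, Finset.mem_filter, List.mem_toFinset, mem_wordsLE]
        exact ⟨hlen, hw⟩
      · right
        exact ⟨hw, show n ≤ w.length by omega⟩
  have hg1 : 0 < 2 ^ (a * m) := by positivity
  have htg : 4 * 2 ^ m * (2 ^ m * 2 ^ (a * m)) ≤ 2 ^ ((a + 4) * m) := by
    have h8 : 4 * 2 ^ m ≤ 2 ^ m * 2 ^ m := by
      have : 4 ≤ 2 ^ m := by
        calc 4 = 2 ^ 2 := by norm_num
          _ ≤ 2 ^ m := Nat.pow_le_pow_right (by norm_num) (by omega)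
      exact Nat.mul_le_mul_right _ this
    have h9 : 1 ≤ 2 ^ m := Nat.one_le_two_pow
    calc 4 * 2 ^ m * (2 ^ m * 2 ^ (a * m)) ≤ (2 ^ m * 2 ^ m) * (2 ^ m * 2 ^ (a * m)) :=
          Nat.mul_le_mul_right _ h8
      _ = (2 ^ m * 2 ^ m) * (2 ^ m * 2 ^ (a * m)) * 1 := (mul_one _).symm
      _ ≤ (2 ^ m * 2 ^ m) * (2 ^ m * 2 ^ (a * m)) * 2 ^ m := Nat.mul_le_mul_left _ h9
      _ = 2 ^ ((a + 4) * m) := by ring
  have hgt : 2 * ((4 * 2 ^ m * (2 ^ m * 2 ^ (a * m)) : ℕ) : ℝ) ≤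
      (1 / 2 : ℝ) ^ m * ((2 ^ ((a + 4) * m) : ℕ) : ℝ) := by
    have h8 : (8 : ℝ) ≤ 2 ^ m := by
      calc (8 : ℝ) = 2 ^ 3 := by norm_num
        _ ≤ 2 ^ m := pow_le_pow_right₀ (by norm_num) hm3
    have h9 : (1 / 2 : ℝ) ^ m * 2 ^ m = 1 := by
      rw [← mul_pow]
      norm_num
    push_cast
    have h10 : (1 / 2 : ℝ) ^ m * 2 ^ ((a + 4) * m) = 2 ^ m * (2 ^ m * (2 ^ m * 2 ^ (a * m))) := by
      calc (1 / 2 : ℝ) ^ m * 2 ^ ((a + 4) * m)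
          = ((1 / 2 : ℝ) ^ m * 2 ^ m) * (2 ^ m * (2 ^ m * (2 ^ m * 2 ^ (a * m)))) := by ring
        _ = _ := by rw [h9, one_mul]
    rw [h10]
    calc (2 : ℝ) * (4 * 2 ^ m * (2 ^ m * 2 ^ (a * m)))
        = 8 * (2 ^ m * (2 ^ m * 2 ^ (a * m))) := by ring
      _ ≤ 2 ^ m * (2 ^ m * (2 ^ m * 2 ^ (a * m))) := by gcongr
  have hpot := pot_bound (n := n) (R := R) (m := m) hIcard hg1 hm
  have hM : ((1 / 2 : ℝ) ^ m) ^ (Q + 1) * (N.card : ℝ) < 1 := by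
    rw [hNcard, hn]
    push_cast
    have h9 : (1 / 2 : ℝ) ^ m * 2 ^ m = 1 := by
      rw [← mul_pow]
      norm_num
    calc ((1 / 2 : ℝ) ^ m) ^ (Q + 1) * 2 ^ (Q * m)
        = ((1 / 2 : ℝ) ^ m * 2 ^ m) ^ Q * (1 / 2) ^ m := by
          rw [mul_pow, ← pow_mul 2 m Q, mul_comm m Q, pow_succ]
          ring
      _ = (1 / 2) ^ m := by rw [h9, one_pow, one_mul]
      _ < 1 := pow_lt_one₀ (by norm_num) (by norm_num) (by omega)
  obtain ⟨s, hs1, hs2, hs3⟩ := exists_cover I F hF hg1 (δ := (1 / 2 : ℝ) ^ m) (by positivity)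
    (pow_le_one₀ (by norm_num) (by norm_num)) htg hgt hpot N hcov (Q + 1) hM
  -- choose the witnesses
  have hex1 : ∀ p : Finset (List Bool) × Finset (Finset (List Bool)), ∃ B : Set (List Bool),
      p ∈ s → InV y R L B0 B ∧ (∀ ρ, S ρ → ¬ Safe x B ρ) ∧ p.1 = W.filter (· ∈ B) := by
    intro p
    by_cases hp : p ∈ s
    · have h1 := (hs2 p hp).1
      rw [Finset.mem_filter] at h1
      obtain ⟨-, B, h2⟩ := h1
      exact ⟨B, fun _ => h2⟩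
    · exact ⟨∅, fun h => absurd h hp⟩
  choose Bp hBp using hex1
  have hex2 : ∀ (p : Finset (List Bool) × Finset (Finset (List Bool)))
      (A : Finset (List Bool)), ∃ v : Set (List Bool), p ∈ s → A ∈ p.2 →
      (∀ w ∈ v, n ≤ w.length) ∧ wt (pw y) v ≤ R ∧
      ∀ ρ, TA Φ σ (fun τ => τ ∈ A) ρ → ¬ Safe x (↑p.1 ∪ v) ρ := by
    intro p A
    by_cases hp : p ∈ s ∧ A ∈ p.2
    · obtain ⟨v, hv⟩ := (hs2 p hp.1).2.2 A hp.2
      exact ⟨v, fun _ _ => hv⟩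
    · exact ⟨∅, fun h1 h2 => absurd ⟨h1, h2⟩ hp⟩
  choose v hv using hex2
  have hsub1 : ∀ p ∈ s, Bp p ⊆ B0 ∪ ((⋃ p ∈ s, Bp p ∩ {w | L ≤ w.length}) ∪
      ⋃ p ∈ s, ⋃ A ∈ p.2, v p A) := by
    intro p hp w hw
    by_cases hlen : w.length ≤ L
    · left
      exact ((hBp p hp).1.2 w hlen).1 hw
    · right
      left
      exact Set.mem_biUnion (x := p) hp ⟨hw, show L ≤ w.length by omega⟩
  refine ⟨B0 ∪ ((⋃ p ∈ s, Bp p ∩ {w | L ≤ w.length}) ∪ ⋃ p ∈ s, ⋃ A ∈ p.2, v p A),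
    fun ρ hρ hsafe => hS ρ hρ (hsafe.mono Set.subset_union_left), ?_, ?_, ?_⟩
  · rintro ρ ⟨h1, τ, h2, h3⟩ hsafe
    obtain ⟨p, hp, A, hA, hτ⟩ := hs3 τ ((hN τ).2 h2)
    refine (hv p A hp hA).2.2 ρ ⟨h1, τ, hτ, h3⟩ (hsafe.mono ?_)
    refine Set.union_subset ?_ ?_
    · intro w hw
      have h4 : w ∈ p.1 := hw
      rw [(hBp p hp).2.2, Finset.mem_filter] at h4
      exact hsub1 p hp h4.2
    · intro w hw
      right
      right
      exact Set.mem_biUnion (x := p) hp (Set.mem_biUnion (x := A) hA hw)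
  · refine ne_top_of_le_ne_top ?_ ((wt_union_le _ _ _).trans (add_le_add le_rfl
      ((wt_union_le _ _ _).trans (add_le_add (wt_biUnion_le _ _ _) (wt_biUnion_le _ _ _)))))
    refine ENNReal.add_ne_top.2 ⟨ne_top_of_le_ne_top (by simp) hB0, ENNReal.add_ne_top.2 ⟨?_, ?_⟩⟩
    · refine ENNReal.sum_ne_top.2 fun p hp => ?_
      exact ne_top_of_le_ne_top (by simp)
        ((wt_mono _ Set.inter_subset_left).trans (hBp p hp).1.1)
    · refine ENNReal.sum_ne_top.2 fun p hp => ?_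
      refine ne_top_of_le_ne_top ?_ (wt_biUnion_le _ _ _)
      refine ENNReal.sum_ne_top.2 fun A hA => ?_
      exact ne_top_of_le_ne_top (by simp) (hv p A hp hA).2.1
  · intro κ f hf
    refine (wt_union_le _ _ _).trans (add_le_add le_rfl ?_)
    refine (wt_union_le _ _ _).trans ?_
    rw [ENNReal.coe_add]
    refine add_le_add ?_ ?_
    · refine (wt_biUnion_le _ _ _).trans ?_
      calc ∑ p ∈ s, wt f (Bp p ∩ {w | L ≤ w.length})
          ≤ ∑ p ∈ s, ((κ * (x / y) ^ L * R : ℝ≥0) : ℝ≥0∞) :=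
            Finset.sum_le_sum fun p hp => hf.wt_le (fun w hw => hw.2)
              ((wt_mono _ Set.inter_subset_left).trans (hBp p hp).1.1)
        _ = (s.card : ℝ≥0∞) * ((κ * (x / y) ^ L * R : ℝ≥0) : ℝ≥0∞) := by
            rw [Finset.sum_const, nsmul_eq_mul]
        _ ≤ ((Q + 1 : ℕ) : ℝ≥0∞) * ((κ * (x / y) ^ L * R : ℝ≥0) : ℝ≥0∞) := by
            gcongr
        _ = _ := by push_cast; rfl
    · refine (wt_biUnion_le _ _ _).trans ?_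
      calc ∑ p ∈ s, wt f (⋃ A ∈ p.2, v p A)
          ≤ ∑ p ∈ s, ((((2 ^ n / 2 ^ (a * m) + 1 : ℕ) : ℝ≥0) *
            (κ * (x / y) ^ n * R) : ℝ≥0) : ℝ≥0∞) := by
            refine Finset.sum_le_sum fun p hp => ?_
            refine (wt_biUnion_le _ _ _).trans ?_
            calc ∑ A ∈ p.2, wt f (v p A) ≤ ∑ A ∈ p.2, ((κ * (x / y) ^ n * R : ℝ≥0) : ℝ≥0∞) :=
                  Finset.sum_le_sum fun A hA => hf.wt_le (hv p A hp hA).1 (hv p A hp hA).2.1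
              _ = (p.2.card : ℝ≥0∞) * ((κ * (x / y) ^ n * R : ℝ≥0) : ℝ≥0∞) := by
                  rw [Finset.sum_const, nsmul_eq_mul]
              _ ≤ ((2 ^ n / 2 ^ (a * m) + 1 : ℕ) : ℝ≥0∞) *
                    ((κ * (x / y) ^ n * R : ℝ≥0) : ℝ≥0∞) := by
                  have h5 := (hs2 p hp).2.1
                  rw [hNcard] at h5
                  gcongr
              _ = _ := by push_cast; rfl
        _ = (s.card : ℝ≥0∞) * ((((2 ^ n / 2 ^ (a * m) + 1 : ℕ) : ℝ≥0) *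
            (κ * (x / y) ^ n * R) : ℝ≥0) : ℝ≥0∞) := by
            rw [Finset.sum_const, nsmul_eq_mul]
        _ ≤ ((Q + 1 : ℕ) : ℝ≥0∞) * ((((2 ^ n / 2 ^ (a * m) + 1 : ℕ) : ℝ≥0) *
            (κ * (x / y) ^ n * R) : ℝ≥0) : ℝ≥0∞) := by
            gcongr
        _ = _ := by push_cast; rfl

end Pool.Agent.Work.MP_a32fd7_lc
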