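import Pool.Agent.Work.MP_a32fd7_lc.Compact

/-!
# The certificate predicate is primitive recursive for rational parameters
-/

namespace Pool.Agent.Work.MP_a32fd7_lc

open scoped NNReal ENNReal

theorem primrec_pow : Primrec₂ fun a b : ℕ => a ^ b :=
  Primrec₂.unpaired'.1 Nat.Primrec.pow

theorem primrec_sum : Primrec (List.sum : List ℕ → ℕ) := by
  have h : Primrec₂ fun (_ : List ℕ) (c : ℕ × ℕ) => c.1 + c.2 :=
    Primrec.nat_add.comp (Primrec.fst.comp Primrec.snd) (Primrec.snd.comp Primrec.snd)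
  have h1 : Primrec fun l : List ℕ => l.foldr (fun b s => b + s) 0 :=
    Primrec.list_foldr (f := fun l : List ℕ => l) (g := fun _ => 0) Primrec.id
      (Primrec.const 0) h
  exact h1.of_eq fun l => by
    induction l with
    | nil => rfl
    | cons a l ih => simp only [List.foldr_cons, List.sum_cons, ih]

/-- The numerator of `dc (px / q) ρ w` with denominator `q ^ s`. -/
def dcN (px q s : ℕ) (ρ w : List Bool) : ℕ :=
  ((List.range ρ.length).map fun i =>
    if w.take (ρ.drop i).length = ρ.drop i then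
      px ^ (w.length - (ρ.length - i)) * q ^ (s - (w.length - (ρ.length - i))) else 0).sum

theorem primrec_dcN (px q : ℕ) :
    Primrec fun a : ℕ × List Bool × List Bool => dcN px q a.1 a.2.1 a.2.2 := by
  have hρ : Primrec fun a : (ℕ × List Bool × List Bool) × ℕ => a.1.2.1 :=
    Primrec.fst.comp (Primrec.snd.comp Primrec.fst)
  have hw : Primrec fun a : (ℕ × List Bool × List Bool) × ℕ => a.1.2.2 :=
    Primrec.snd.comp (Primrec.snd.comp Primrec.fst)
  have hs : Primrec fun a : (ℕ × List Bool × List Bool) × ℕ => a.1.1 :=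
    Primrec.fst.comp Primrec.fst
  have hi : Primrec fun a : (ℕ × List Bool × List Bool) × ℕ => a.2 := Primrec.snd
  have hd : Primrec fun a : (ℕ × List Bool × List Bool) × ℕ => a.1.2.1.drop a.2 :=
    Primrec.list_drop.comp hi hρ
  have he : Primrec fun a : (ℕ × List Bool × List Bool) × ℕ =>
      a.1.2.2.length - (a.1.2.1.length - a.2) :=
    Primrec.nat_sub.comp (Primrec.list_length.comp hw)
      (Primrec.nat_sub.comp (Primrec.list_length.comp hρ) hi)
  have hcond : PrimrecPred fun a : (ℕ × List Bool × List Bool) × ℕ =>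
      a.1.2.2.take (a.1.2.1.drop a.2).length = a.1.2.1.drop a.2 :=
    Primrec.eq.comp (Primrec.list_take.comp (Primrec.list_length.comp hd) hw) hd
  have hval : Primrec fun a : (ℕ × List Bool × List Bool) × ℕ =>
      px ^ (a.1.2.2.length - (a.1.2.1.length - a.2)) *
        q ^ (a.1.1 - (a.1.2.2.length - (a.1.2.1.length - a.2))) :=
    Primrec.nat_mul.comp (primrec_pow.comp (Primrec.const px) he)
      (primrec_pow.comp (Primrec.const q) (Primrec.nat_sub.comp hs he))
  have hite := Primrec.ite hcond hval (Primrec.const 0)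
  exact primrec_sum.comp (Primrec.list_map
    (Primrec.list_range.comp (Primrec.list_length.comp (Primrec.fst.comp Primrec.snd)))
    hite.to₂)

/-- The numerator of the danger. -/
def dgN (px q s : ℕ) (c : List (List Bool)) (ρ : List Bool) : ℕ :=
  (c.map fun w => dcN px q s ρ w).sum

theorem primrec_dgN (px q : ℕ) :
    Primrec fun a : ℕ × List (List Bool) × List Bool => dgN px q a.1 a.2.1 a.2.2 := by
  have h : Primrec fun a : (ℕ × List (List Bool) × List Bool) × List Bool =>
      dcN px q a.1.1 a.1.2.2 a.2 :=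
    (primrec_dcN px q).comp (f := fun a : ℕ × List Bool × List Bool =>
      dcN px q a.1 a.2.1 a.2.2)
      (g := fun a : (ℕ × List (List Bool) × List Bool) × List Bool => (a.1.1, a.1.2.2, a.2))
      (Primrec.pair (Primrec.fst.comp Primrec.fst)
        (Primrec.pair (Primrec.snd.comp (Primrec.snd.comp Primrec.fst)) Primrec.snd))
  exact primrec_sum.comp (Primrec.list_map (Primrec.fst.comp Primrec.snd) h.to₂)

/-- The numerator of the `y`-weight. -/
def wtN (py q s : ℕ) (c : List (List Bool)) : ℕ :=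
  (c.map fun w => py ^ w.length * q ^ (s - w.length)).sum

theorem primrec_wtN (py q : ℕ) :
    Primrec fun a : ℕ × List (List Bool) => wtN py q a.1 a.2 := by
  have h : Primrec fun a : (ℕ × List (List Bool)) × List Bool =>
      py ^ a.2.length * q ^ (a.1.1 - a.2.length) :=
    Primrec.nat_mul.comp
      (primrec_pow.comp (Primrec.const py) (Primrec.list_length.comp Primrec.snd))
      (primrec_pow.comp (Primrec.const q) (Primrec.nat_sub.comp (Primrec.fst.comp Primrec.fst)
        (Primrec.list_length.comp Primrec.snd)))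
  exact primrec_sum.comp (Primrec.list_map Primrec.snd h.to₂)

/-- The arithmetic version of the certificate. -/
def CertNat (px py q R L : ℕ) (bl : List (List Bool)) (F : List (List Bool)) (s : ℕ) : Prop :=
  L ≤ s ∧ ∀ c ∈ subl (wordsLE s), wtN py q s c ≤ R * q ^ s →
    (∀ w ∈ wordsLE L, (w ∈ c ↔ w ∈ bl)) →
    ∃ ρ ∈ F, ∀ i ∈ List.range (ρ.length + 1),
      2 * (dgN px q s c (ρ.take i) * (px ^ ρ.length * py ^ s) +
        ρ.length * R * (q ^ ρ.length * (px ^ s * q ^ s))) <
        q ^ s * (px ^ ρ.length * py ^ s)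

theorem primrecPred_mem_list {α β : Type*} [Primcodable α] [Primcodable β] {f : α → β}
    {g : α → List β} (hf : Primrec f) (hg : Primrec g) : PrimrecPred fun a => f a ∈ g a := by
  have h1 : PrimrecRel fun (b : β) (c : β) => b = c := Primrec.eq
  have h2 := (h1.exists_mem_list).comp hg hf
  exact h2.of_eq fun a => by simp

theorem PrimrecPred.imp' {α : Type*} [Primcodable α] {p q : α → Prop} (hp : PrimrecPred p)
    (hq : PrimrecPred q) : PrimrecPred fun a => p a → q a := by
  have := (hp.not).or hq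
  exact this.of_eq fun a => by tauto

theorem primrec_certNat (px py q R L : ℕ) (bl : List (List Bool)) :
    PrimrecPred fun a : List (List Bool) × ℕ => CertNat px py q R L bl a.1 a.2 := by
  unfold CertNat
  refine PrimrecPred.and (Primrec.nat_le.comp (Primrec.const L) Primrec.snd) ?_
  -- the inequality, as a relation between `i` and `(ρ, c, F, s)`
  have hineq : PrimrecRel fun (i : ℕ)
      (a : List Bool × List (List Bool) × List (List Bool) × ℕ) =>
      2 * (dgN px q a.2.2.2 a.2.1 (a.1.take i) * (px ^ a.1.length * py ^ a.2.2.2) +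
        a.1.length * R * (q ^ a.1.length * (px ^ a.2.2.2 * q ^ a.2.2.2))) <
        q ^ a.2.2.2 * (px ^ a.1.length * py ^ a.2.2.2) := by
    have hρ : Primrec fun b : ℕ × (List Bool × List (List Bool) × List (List Bool) × ℕ) =>
        b.2.1 := Primrec.fst.comp Primrec.snd
    have hc : Primrec fun b : ℕ × (List Bool × List (List Bool) × List (List Bool) × ℕ) =>
        b.2.2.1 := Primrec.fst.comp (Primrec.snd.comp Primrec.snd)
    have hs : Primrec fun b : ℕ × (List Bool × List (List Bool) × List (List Bool) × ℕ) =>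
        b.2.2.2.2 := Primrec.snd.comp (Primrec.snd.comp (Primrec.snd.comp Primrec.snd))
    have hl : Primrec fun b : ℕ × (List Bool × List (List Bool) × List (List Bool) × ℕ) =>
        b.2.1.length := Primrec.list_length.comp hρ
    have hdg : Primrec fun b : ℕ × (List Bool × List (List Bool) × List (List Bool) × ℕ) =>
        dgN px q b.2.2.2.2 b.2.2.1 (b.2.1.take b.1) :=
      (primrec_dgN px q).comp (f := fun a : ℕ × List (List Bool) × List Bool =>
          dgN px q a.1 a.2.1 a.2.2)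
        (g := fun b : ℕ × (List Bool × List (List Bool) × List (List Bool) × ℕ) =>
          (b.2.2.2.2, b.2.2.1, b.2.1.take b.1))
        (Primrec.pair hs (Primrec.pair hc (Primrec.list_take.comp Primrec.fst hρ)))
    have hA : Primrec fun b : ℕ × (List Bool × List (List Bool) × List (List Bool) × ℕ) =>
        px ^ b.2.1.length * py ^ b.2.2.2.2 :=
      Primrec.nat_mul.comp (primrec_pow.comp (Primrec.const px) hl)
        (primrec_pow.comp (Primrec.const py) hs)
    have hB : Primrec fun b : ℕ × (List Bool × List (List Bool) × List (List Bool) × ℕ) =>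
        q ^ b.2.1.length * (px ^ b.2.2.2.2 * q ^ b.2.2.2.2) :=
      Primrec.nat_mul.comp (primrec_pow.comp (Primrec.const q) hl)
        (Primrec.nat_mul.comp (primrec_pow.comp (Primrec.const px) hs)
          (primrec_pow.comp (Primrec.const q) hs))
    exact Primrec.nat_lt.comp
      (Primrec.nat_mul.comp (Primrec.const 2)
        (Primrec.nat_add.comp (Primrec.nat_mul.comp hdg hA)
          (Primrec.nat_mul.comp (Primrec.nat_mul.comp hl (Primrec.const R)) hB)))
      (Primrec.nat_mul.comp (primrec_pow.comp (Primrec.const q) hs) hA)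
  have h1 : PrimrecRel fun (ρ : List Bool) (a : List (List Bool) × List (List Bool) × ℕ) =>
      ∀ i ∈ List.range (ρ.length + 1),
        2 * (dgN px q a.2.2 a.1 (ρ.take i) * (px ^ ρ.length * py ^ a.2.2) +
        ρ.length * R * (q ^ ρ.length * (px ^ a.2.2 * q ^ a.2.2))) <
        q ^ a.2.2 * (px ^ ρ.length * py ^ a.2.2) :=
    (hineq.forall_mem_list).comp
      (f := fun b : List Bool × (List (List Bool) × List (List Bool) × ℕ) =>
        List.range (b.1.length + 1)) (g := fun b => b)
      (Primrec.list_range.comp (Primrec.succ.comp (Primrec.list_length.comp Primrec.fst)))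
      Primrec.id
  have h2 : PrimrecPred fun b : List (List Bool) × List (List Bool) × ℕ =>
      ∃ ρ ∈ b.2.1, ∀ i ∈ List.range (ρ.length + 1),
        2 * (dgN px q b.2.2 b.1 (ρ.take i) * (px ^ ρ.length * py ^ b.2.2) +
        ρ.length * R * (q ^ ρ.length * (px ^ b.2.2 * q ^ b.2.2))) <
        q ^ b.2.2 * (px ^ ρ.length * py ^ b.2.2) :=
    (h1.exists_mem_list).comp (f := fun b : List (List Bool) × List (List Bool) × ℕ => b.2.1)
      (g := fun b => b) (Primrec.fst.comp Primrec.snd) Primrec.id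
  have h3 : PrimrecPred fun b : List (List Bool) × List (List Bool) × ℕ =>
      wtN py q b.2.2 b.1 ≤ R * q ^ b.2.2 := by
    have hs : Primrec fun b : List (List Bool) × List (List Bool) × ℕ => b.2.2 :=
      Primrec.snd.comp Primrec.snd
    refine Primrec.nat_le.comp ?_
      (Primrec.nat_mul.comp (Primrec.const R) (primrec_pow.comp (Primrec.const q) hs))
    exact (primrec_wtN py q).comp (f := fun a : ℕ × List (List Bool) => wtN py q a.1 a.2)
      (g := fun b : List (List Bool) × List (List Bool) × ℕ => (b.2.2, b.1))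
      (Primrec.pair hs Primrec.fst)
  have h4 : PrimrecPred fun b : List (List Bool) × List (List Bool) × ℕ =>
      ∀ w ∈ wordsLE L, (w ∈ b.1 ↔ w ∈ bl) := by
    have h5 : PrimrecRel fun (w : List Bool) (c : List (List Bool)) => (w ∈ c ↔ w ∈ bl) := by
      have e1 : PrimrecPred fun a : List Bool × List (List Bool) => a.1 ∈ a.2 :=
        primrecPred_mem_list Primrec.fst Primrec.snd
      have e2 : PrimrecPred fun a : List Bool × List (List Bool) => a.1 ∈ bl :=
        primrecPred_mem_list Primrec.fst (Primrec.const bl)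
      exact ((e1.and e2).or (e1.not.and e2.not)).of_eq fun a => by tauto
    exact (h5.forall_mem_list).comp (f := fun _ => wordsLE L)
      (g := fun b : List (List Bool) × List (List Bool) × ℕ => b.1) (Primrec.const _) Primrec.fst
  have h6 : PrimrecRel fun (c : List (List Bool)) (a : List (List Bool) × ℕ) =>
      (wtN py q a.2 c ≤ R * q ^ a.2 → (∀ w ∈ wordsLE L, (w ∈ c ↔ w ∈ bl)) →
      ∃ ρ ∈ a.1, ∀ i ∈ List.range (ρ.length + 1),
        2 * (dgN px q a.2 c (ρ.take i) * (px ^ ρ.length * py ^ a.2) +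
        ρ.length * R * (q ^ ρ.length * (px ^ a.2 * q ^ a.2))) <
        q ^ a.2 * (px ^ ρ.length * py ^ a.2)) :=
    PrimrecPred.imp' h3 (PrimrecPred.imp' h4 h2)
  exact (h6.forall_mem_list).comp (f := fun a : List (List Bool) × ℕ => subl (wordsLE a.2))
    (g := fun a => a) (primrec_subl.comp (primrec_wordsLE.comp Primrec.snd)) Primrec.id

section

variable {px py q : ℕ}

theorem pow_div_mul {p q : ℕ} (hq : q ≠ 0) {e s : ℕ} (hes : e ≤ s) :
    ((p : ℝ≥0) / q) ^ e * (q : ℝ≥0) ^ s = ((p ^ e * q ^ (s - e) : ℕ) : ℝ≥0) := by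
  have hq' : (q : ℝ≥0) ≠ 0 := by exact_mod_cast hq
  obtain ⟨k, rfl⟩ := Nat.exists_eq_add_of_le hes
  rw [div_pow, pow_add, Nat.add_sub_cancel_left]
  push_cast
  field_simp

theorem pw_mul (hq : q ≠ 0) {s : ℕ} {w : List Bool} (hw : w.length ≤ s) :
    pw ((py : ℝ≥0) / q) w * (q : ℝ≥0) ^ s = ((py ^ w.length * q ^ (s - w.length) : ℕ) : ℝ≥0) :=
  pow_div_mul hq hw

theorem dc_mul (hq : q ≠ 0) {s : ℕ} {w : List Bool} (hw : w.length ≤ s) (ρ : List Bool) :
    dc ((px : ℝ≥0) / q) ρ w * (q : ℝ≥0) ^ s = ((dcN px q s ρ w : ℕ) : ℝ≥0) := by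
  unfold dc dcN
  rw [Finset.sum_mul, ← Fin.sum_univ_eq_sum_range (fun i =>
    (if ρ.drop i <+: w then ((px : ℝ≥0) / q) ^ (w.length - (ρ.length - i)) else 0) *
      (q : ℝ≥0) ^ s), Fin.sum_univ_eq_sum_range (fun i =>
    (if ρ.drop i <+: w then ((px : ℝ≥0) / q) ^ (w.length - (ρ.length - i)) else 0) *
      (q : ℝ≥0) ^ s)]
  have key : ∀ i, (if ρ.drop i <+: w then ((px : ℝ≥0) / q) ^ (w.length - (ρ.length - i)) else 0) *
      (q : ℝ≥0) ^ s = (((if w.take (ρ.drop i).length = ρ.drop i then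
      px ^ (w.length - (ρ.length - i)) * q ^ (s - (w.length - (ρ.length - i))) else 0 : ℕ)) :
        ℝ≥0) := by
    intro i
    have h1 : ρ.drop i <+: w ↔ w.take (ρ.drop i).length = ρ.drop i := by
      rw [List.prefix_iff_eq_take, eq_comm]
    by_cases h : ρ.drop i <+: w
    · rw [if_pos h, if_pos (h1.1 h)]
      exact pow_div_mul hq (by omega)
    · rw [if_neg h, if_neg (fun h2 => h (h1.2 h2))]
      simp
  rw [Finset.sum_congr rfl fun i _ => key i]
  rw [← Nat.cast_sum]
  congr 1

theorem sum_toFinset_nat {c : List (List Bool)} (hc : c.Nodup) (f : List Bool → ℕ) :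
    ∑ w ∈ c.toFinset, f w = (c.map f).sum := List.sum_toFinset f hc

theorem dgN_eq (hq : q ≠ 0) {s : ℕ} {c : List (List Bool)} (hc : c.Nodup)
    (hcs : ∀ w ∈ c, w.length ≤ s) (ρ : List Bool) :
    (∑ w ∈ c.toFinset, dc ((px : ℝ≥0) / q) ρ w) * (q : ℝ≥0) ^ s =
      ((dgN px q s c ρ : ℕ) : ℝ≥0) := by
  unfold dgN
  rw [Finset.sum_mul, ← sum_toFinset_nat hc, Nat.cast_sum]
  exact Finset.sum_congr rfl fun w hw => dc_mul hq (hcs w (List.mem_toFinset.1 hw)) ρ

theorem wtN_eq (hq : q ≠ 0) {s : ℕ} {c : List (List Bool)} (hc : c.Nodup)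
    (hcs : ∀ w ∈ c, w.length ≤ s) :
    (∑ w ∈ c.toFinset, pw ((py : ℝ≥0) / q) w) * (q : ℝ≥0) ^ s =
      ((wtN py q s c : ℕ) : ℝ≥0) := by
  unfold wtN
  rw [Finset.sum_mul, ← sum_toFinset_nat hc, Nat.cast_sum]
  exact Finset.sum_congr rfl fun w hw => pw_mul hq (hcs w (List.mem_toFinset.1 hw))

/-- The arithmetic inequality. -/
theorem ineq_iff (hq : q ≠ 0) (hpx : px ≠ 0) (hpy : py ≠ 0) {R s l N : ℕ} {a : ℝ≥0}
    (ha : a * (q : ℝ≥0) ^ s = (N : ℝ≥0)) :
    a + (l * (((px : ℝ≥0) / q)⁻¹) ^ l) * (((px : ℝ≥0) / q) / ((py : ℝ≥0) / q)) ^ s * R < 1 / 2 ↔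
      2 * (N * (px ^ l * py ^ s) + l * R * (q ^ l * (px ^ s * q ^ s))) <
        q ^ s * (px ^ l * py ^ s) := by
  have hq' : (0 : ℝ≥0) < q := by exact_mod_cast Nat.pos_of_ne_zero hq
  have hx' : (0 : ℝ≥0) < px := by exact_mod_cast Nat.pos_of_ne_zero hpx
  have hy' : (0 : ℝ≥0) < py := by exact_mod_cast Nat.pos_of_ne_zero hpy
  have hD : (0 : ℝ≥0) < 2 * ((q : ℝ≥0) ^ s * (px ^ l * py ^ s)) := by positivity
  rw [← mul_lt_mul_iff_left₀ hD]
  have e1 : (a + (l * (((px : ℝ≥0) / q)⁻¹) ^ l) * (((px : ℝ≥0) / q) / ((py : ℝ≥0) / q)) ^ s * R) *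
      (2 * ((q : ℝ≥0) ^ s * (px ^ l * py ^ s))) =
      2 * (N * (px ^ l * py ^ s) + l * R * (q ^ l * (px ^ s * q ^ s))) := by
    rw [← ha]
    have e2 : (((px : ℝ≥0) / q) / ((py : ℝ≥0) / q)) = px / py := by
      field_simp
    rw [e2, inv_div, div_pow, div_pow]
    field_simp
  have e3 : (1 / 2 : ℝ≥0) * (2 * ((q : ℝ≥0) ^ s * (px ^ l * py ^ s))) =
      (q : ℝ≥0) ^ s * (px ^ l * py ^ s) := by
    rw [← mul_assoc]
    norm_num
  rw [e1, e3]
  exact_mod_cast Iff.rfl

theorem certNat_iff (hq : q ≠ 0) (hpx : px ≠ 0) (hpy : py ≠ 0) {R L : ℕ}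
    {bl F : List (List Bool)} {s : ℕ} :
    CertNat px py q R L bl F s ↔
      CertSem ((px : ℝ≥0) / q) ((py : ℝ≥0) / q) R L {w | w ∈ bl} F s := by
  unfold CertNat CertSem
  refine and_congr_right fun hLs => ?_
  have hq' : (0 : ℝ≥0) < (q : ℝ≥0) ^ s := by
    have : (0 : ℝ≥0) < q := by exact_mod_cast Nat.pos_of_ne_zero hq
    positivity
  have hwt : ∀ c : List (List Bool), c.Nodup → (∀ w ∈ c, w.length ≤ s) →
      (wtN py q s c ≤ R * q ^ s ↔ ∑ w ∈ c.toFinset, pw ((py : ℝ≥0) / q) w ≤ R) := by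
    intro c hc hcs
    rw [← mul_le_mul_iff_left₀ hq', wtN_eq hq hc hcs]
    exact_mod_cast Iff.rfl
  have hconc : ∀ c : List (List Bool), c.Nodup → (∀ w ∈ c, w.length ≤ s) →
      ((∃ ρ ∈ F, ∀ i ∈ List.range (ρ.length + 1),
      2 * (dgN px q s c (ρ.take i) * (px ^ ρ.length * py ^ s) +
        ρ.length * R * (q ^ ρ.length * (px ^ s * q ^ s))) <
        q ^ s * (px ^ ρ.length * py ^ s)) ↔
      ∃ ρ ∈ F, ∀ i ≤ ρ.length, ∑ w ∈ c.toFinset, dc ((px : ℝ≥0) / q) (ρ.take i) w +
        kap ((px : ℝ≥0) / q) ((py : ℝ≥0) / q) ρ.length s * R < 1 / 2) := by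
    intro c hc hcs
    refine exists_congr fun ρ => and_congr_right fun _ => ?_
    constructor
    · intro h i hi
      exact (ineq_iff hq hpx hpy (dgN_eq hq hc hcs (ρ.take i))).2
        (h i (List.mem_range.2 (by omega)))
    · intro h i hi
      exact (ineq_iff hq hpx hpy (dgN_eq hq hc hcs (ρ.take i))).1
        (h i (by have := List.mem_range.1 hi; omega))
  constructor
  · intro h c hcs hcw hcL
    -- the list of members of `c`
    classical
    let l : List (List Bool) := (wordsLE s).filter (fun w => w ∈ c)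
    have hl1 : l ∈ subl (wordsLE s) := mem_subl.2 List.filter_sublist
    have hl2 : l.Nodup := (nodup_wordsLE s).filter _
    have hl3 : ∀ w, w ∈ l ↔ w ∈ c := by
      intro w
      simp only [l, List.mem_filter, mem_wordsLE, decide_eq_true_eq]
      exact ⟨fun h => h.2, fun h => ⟨hcs w h, h⟩⟩
    have hl4 : l.toFinset = c := by
      ext w
      rw [List.mem_toFinset, hl3]
    have hl5 : ∀ w ∈ l, w.length ≤ s := fun w hw => hcs w ((hl3 w).1 hw)
    have := h l hl1 ((hwt l hl2 hl5).2 (by rw [hl4]; exact hcw)) (fun w hw => by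
      rw [hl3, hcL w (mem_wordsLE.1 hw)]
      exact Iff.rfl)
    have h6 := (hconc l hl2 hl5).1 this
    rw [hl4] at h6
    exact h6
  · intro h c hc hcw hcL
    have hsub := mem_subl.1 hc
    have hc2 : c.Nodup := hsub.nodup (nodup_wordsLE s)
    have hc5 : ∀ w ∈ c, w.length ≤ s := fun w hw => mem_wordsLE.1 (hsub.subset hw)
    refine (hconc c hc2 hc5).2 (h c.toFinset (fun w hw => hc5 w (List.mem_toFinset.1 hw))
      ((hwt c hc2 hc5).1 hcw) fun w hw => ?_)
    rw [List.mem_toFinset, hcL w (mem_wordsLE.2 hw)]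
    exact Iff.rfl

end

end Pool.Agent.Work.MP_a32fd7_lc
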