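import Pool.Agent.Work.MP_a32fd7_lc.Danger

/-!
# Compactness of the class of light sets of words
-/

namespace Pool.Agent.Work.MP_a32fd7_lc

open scoped NNReal ENNReal
open Filter Topology

/-- The class of all sets `B` of words of `y`-weight at most `R` which agree with `bs` on the
words of length at most `L`. -/
def InV (y : ℝ≥0) (R L : ℕ) (bs B : Set (List Bool)) : Prop :=
  wt (pw y) B ≤ R ∧ ∀ w : List Bool, w.length ≤ L → (w ∈ B ↔ w ∈ bs)

/-- A finite certificate for the fact that no member of the class covers the finite set `F`. -/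
def CertSem (x y : ℝ≥0) (R L : ℕ) (bs : Set (List Bool)) (F : List (List Bool)) (s : ℕ) : Prop :=
  L ≤ s ∧ ∀ c : Finset (List Bool), (∀ w ∈ c, w.length ≤ s) → ∑ w ∈ c, pw y w ≤ R →
    (∀ w : List Bool, w.length ≤ L → (w ∈ c ↔ w ∈ bs)) →
    ∃ ρ ∈ F, ∀ i ≤ ρ.length, ∑ w ∈ c, dc x (ρ.take i) w + kap x y ρ.length s * R < 1 / 2

theorem coe_half_lt {a : ℝ≥0} : (a : ℝ≥0∞) < 1 / 2 ↔ a < 1 / 2 := by
  have : (1 / 2 : ℝ≥0∞) = ((1 / 2 : ℝ≥0) : ℝ≥0∞) := by
    rw [ENNReal.coe_div (by norm_num)]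
    simp
  rw [this, ENNReal.coe_lt_coe]

open Classical in
/-- The danger is determined up to the tail by the short words. -/
theorem dg_le_of_filter {x y : ℝ≥0} (hx : x ≤ 1) (hx0 : x ≠ 0) (hxy : x ≤ y) (hy : y ≠ 0)
    {R : ℕ} {B : Set (List Bool)} (hB : wt (pw y) B ≤ R) (s : ℕ) (ρ : List Bool) :
    dg x B ρ ≤ ((∑ w ∈ (wordsLE s).toFinset.filter (· ∈ B), dc x ρ w : ℝ≥0) : ℝ≥0∞) +
      (kap x y ρ.length s * R : ℝ≥0) := by
  have h1 : B ⊆ (((wordsLE s).toFinset.filter (· ∈ B) : Finset (List Bool)) : Set (List Bool)) ∪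
      (B ∩ {w | s ≤ w.length}) := by
    intro w hw
    by_cases h : w.length ≤ s
    · left
      simp [mem_wordsLE, h, hw]
    · right
      exact ⟨hw, show s ≤ w.length by omega⟩
  calc dg x B ρ ≤ dg x _ ρ := dg_mono x h1 ρ
    _ ≤ _ := wt_union_le _ _ _
    _ ≤ _ := by
      rw [wt_finset]
      gcongr
      refine (dg_le hx hx0 hxy hy (L := s) (fun w hw => hw.2) ρ).trans ?_
      push_cast
      gcongr
      exact (wt_mono _ Set.inter_subset_left).trans hB

theorem CertSem.sound {x y : ℝ≥0} (hx : x ≤ 1) (hx0 : x ≠ 0) (hxy : x ≤ y) (hy : y ≠ 0)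
    {R L : ℕ} {bs : Set (List Bool)} {F : List (List Bool)} {s : ℕ}
    (h : CertSem x y R L bs F s) {B : Set (List Bool)} (hB : InV y R L bs B) :
    ∃ ρ ∈ F, Safe x B ρ := by
  classical
  obtain ⟨hLs, h⟩ := h
  obtain ⟨ρ, hρ, h1⟩ := h ((wordsLE s).toFinset.filter (· ∈ B))
    (fun w hw => by
      have := (Finset.mem_filter.1 hw).1
      rw [List.mem_toFinset, mem_wordsLE] at this
      exact this)
    (by
      have h2 := sum_le_wt (pw y) (s := (wordsLE s).toFinset.filter (· ∈ B)) (B := B)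
        (fun w hw => by
          rw [Finset.mem_coe, Finset.mem_filter] at hw
          exact hw.2)
      have h3 := h2.trans hB.1
      exact_mod_cast h3)
    (fun w hw => by
      rw [← hB.2 w hw, Finset.mem_filter, List.mem_toFinset, mem_wordsLE]
      exact ⟨fun h => h.2, fun h => ⟨by omega, h⟩⟩)
  refine ⟨ρ, hρ, fun i hi => ?_⟩
  refine (dg_le_of_filter hx hx0 hxy hy hB.1 s (ρ.take i)).trans_lt ?_
  have h2 := h1 i hi
  rw [← ENNReal.coe_add, coe_half_lt]
  refine lt_of_le_of_lt ?_ h2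
  gcongr
  exact kap_mono hx hx0 (by simp)

theorem exists_certSem {x y : ℝ≥0} (hx : x ≤ 1) (hx0 : x ≠ 0) (hxy : x < y)
    {R L : ℕ} {bs : Set (List Bool)} (𝒰 : Set (List Bool))
    (h : ∀ B, InV y R L bs B → ∃ ρ ∈ 𝒰, Safe x B ρ) :
    ∃ F s, CertSem x y R L bs F s ∧ ∀ ρ ∈ F, ρ ∈ 𝒰 := by
  classical
  have hy : y ≠ 0 := (pos_of_gt hxy).ne'
  by_contra hcon
  push Not at hcon
  -- finite approximations of `𝒰`
  let F : ℕ → List (List Bool) := fun s =>
    ((List.range s).filterMap (fun n => (Encodable.decode n : Option (List Bool)))).filter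
      (fun ρ => ρ ∈ 𝒰)
  have hF1 : ∀ s, ∀ ρ ∈ F s, ρ ∈ 𝒰 := by
    intro s ρ hρ
    simpa using (List.mem_filter.1 hρ).2
  have hF2 : ∀ ρ ∈ 𝒰, ∀ s, Encodable.encode ρ < s → ρ ∈ F s := by
    intro ρ hρ s hs
    rw [List.mem_filter, List.mem_filterMap]
    exact ⟨⟨Encodable.encode ρ, by simpa using hs, Encodable.encodek ρ⟩, by simpa using hρ⟩
  have hnot : ∀ s, ¬ CertSem x y R L bs (F s) (s + L) := by
    intro s hs
    obtain ⟨ρ, h1, h2⟩ := hcon (F s) (s + L) hs
    exact h2 (hF1 s ρ h1)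
  have hex : ∀ s, ∃ c : Finset (List Bool), (∀ w ∈ c, w.length ≤ s + L) ∧
      ∑ w ∈ c, pw y w ≤ R ∧ (∀ w : List Bool, w.length ≤ L → (w ∈ c ↔ w ∈ bs)) ∧
      ∀ ρ ∈ F s, ∃ i ≤ ρ.length,
        1 / 2 ≤ ∑ w ∈ c, dc x (ρ.take i) w + kap x y ρ.length (s + L) * R := by
    intro s
    have h1 := hnot s
    unfold CertSem at h1
    push Not at h1
    obtain ⟨c, h2, h3, h4, h5⟩ := h1 (by omega)
    exact ⟨c, h2, h3, h4, h5⟩
  choose c hc1 hc2 hc3 hc4 using hex
  let u : Ultrafilter ℕ := hyperfilter ℕ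
  have hu : (u : Filter ℕ) ≤ atTop := by
    rw [← Nat.cofinite_eq_atTop]
    exact hyperfilter_le_cofinite
  let B : Set (List Bool) := {w | ∀ᶠ s in (u : Filter ℕ), w ∈ c s}
  have hBiff : ∀ w, ∀ᶠ s in (u : Filter ℕ), (w ∈ c s ↔ w ∈ B) := by
    intro w
    by_cases hw : w ∈ B
    · have h1 : ∀ᶠ s in (u : Filter ℕ), w ∈ c s := hw
      filter_upwards [h1] with s hs
      exact ⟨fun _ => hw, fun _ => hs⟩
    · have h1 : ∀ᶠ s in (u : Filter ℕ), w ∉ c s := by
        rw [Ultrafilter.eventually_not]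
        exact hw
      filter_upwards [h1] with s hs
      exact ⟨fun h => absurd h hs, fun h => absurd h hw⟩
  have hBfin : ∀ P : Finset (List Bool), ∀ᶠ s in (u : Filter ℕ), ∀ w ∈ P, (w ∈ c s ↔ w ∈ B) := by
    intro P
    rw [Filter.eventually_all_finset]
    exact fun w _ => hBiff w
  have hBwt : wt (pw y) B ≤ R := by
    apply wt_le_of_forall
    intro P hP
    obtain ⟨s, hs⟩ := (hBfin P).exists
    have h1 : P ⊆ c s := fun w hw => (hs w hw).2 (hP hw)
    have h2 : ∑ w ∈ P, pw y w ≤ R :=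
      (Finset.sum_le_sum_of_subset h1).trans (hc2 s)
    exact_mod_cast h2
  have hBV : InV y R L bs B := by
    refine ⟨hBwt, fun w hw => ?_⟩
    obtain ⟨s, hs⟩ := (hBiff w).exists
    rw [← hs, hc3 s w hw]
  obtain ⟨ρ, hρ, hsafe⟩ := h B hBV
  -- choose a stage for which the tails are negligible
  have htail : ∀ᶠ s' in (atTop : Filter ℕ), ∀ i ∈ Finset.range (ρ.length + 1),
      dg x B (ρ.take i) + (kap x y ρ.length s' * R + kap x y ρ.length s' * R : ℝ≥0) < 1 / 2 := by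
    rw [Filter.eventually_all_finset]
    intro i hi
    have hi' : i ≤ ρ.length := by
      have := Finset.mem_range.1 hi
      omega
    have h1 : Tendsto (fun s' : ℕ => (kap x y ρ.length s' * R + kap x y ρ.length s' * R : ℝ≥0))
        atTop (𝓝 0) := by
      have h2 := (tendsto_kap hxy ρ.length).mul_const (R : ℝ≥0)
      simpa using h2.add h2
    have h3 : Tendsto (fun s' : ℕ => dg x B (ρ.take i) +
        ((kap x y ρ.length s' * R + kap x y ρ.length s' * R : ℝ≥0) : ℝ≥0∞)) atTop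
        (𝓝 (dg x B (ρ.take i) + ((0 : ℝ≥0) : ℝ≥0∞))) :=
      tendsto_const_nhds.add (ENNReal.tendsto_coe.2 h1)
    rw [ENNReal.coe_zero, add_zero] at h3
    exact h3.eventually_lt_const (hsafe i hi')
  obtain ⟨s', hs'⟩ := htail.exists
  have hev1 : ∀ᶠ s in (u : Filter ℕ), s' ≤ s := hu (eventually_ge_atTop s')
  have hev2 : ∀ᶠ s in (u : Filter ℕ), Encodable.encode ρ < s := hu (eventually_gt_atTop _)
  have hev : ∀ᶠ s in (u : Filter ℕ), (∀ w ∈ (wordsLE s').toFinset, (w ∈ c s ↔ w ∈ B)) ∧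
      s' ≤ s ∧ Encodable.encode ρ < s :=
    (hBfin _).and (hev1.and hev2)
  obtain ⟨s, h1, h2, h3⟩ := hev.exists
  obtain ⟨i, hi, h4⟩ := hc4 s ρ (hF2 ρ hρ s h3)
  have h5 := hs' i (Finset.mem_range.2 (by omega))
  have h6 : wt (pw y) (c s : Set (List Bool)) ≤ R := by
    rw [wt_finset]
    exact_mod_cast hc2 s
  have h7 := dg_le_of_filter hx hx0 hxy.le hy h6 s' (ρ.take i)
  have h8 : ((∑ w ∈ (wordsLE s').toFinset.filter (· ∈ (c s : Set (List Bool))),
      dc x (ρ.take i) w : ℝ≥0) : ℝ≥0∞) ≤ dg x B (ρ.take i) := by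
    apply sum_le_wt
    intro w hw
    rw [Finset.mem_coe, Finset.mem_filter] at hw
    exact (h1 w hw.1).1 (by simpa using hw.2)
  have h9 : dg x (c s : Set (List Bool)) (ρ.take i) =
      ((∑ w ∈ c s, dc x (ρ.take i) w : ℝ≥0) : ℝ≥0∞) := wt_finset _ _
  have h10 : (1 / 2 : ℝ≥0∞) ≤ dg x B (ρ.take i) +
      (kap x y ρ.length s' * R + kap x y ρ.length s' * R : ℝ≥0) := by
    calc (1 / 2 : ℝ≥0∞) ≤ ((∑ w ∈ c s, dc x (ρ.take i) w +
          kap x y ρ.length (s + L) * R : ℝ≥0) : ℝ≥0∞) := by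
          by_contra h11
          rw [not_le, coe_half_lt] at h11
          exact absurd h4 (not_le.2 h11)
      _ = dg x (c s : Set (List Bool)) (ρ.take i) +
          ((kap x y ρ.length (s + L) * R : ℝ≥0) : ℝ≥0∞) := by rw [h9, ENNReal.coe_add]
      _ ≤ (dg x B (ρ.take i) + ((kap x y ρ.length s' * R : ℝ≥0) : ℝ≥0∞)) +
          ((kap x y ρ.length s' * R : ℝ≥0) : ℝ≥0∞) := by
          have h12 : kap x y (ρ.take i).length s' ≤ kap x y ρ.length s' :=
            kap_mono hx hx0 (List.length_take_le' _ _)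
          have h13 : kap x y ρ.length (s + L) ≤ kap x y ρ.length s' :=
            kap_anti hxy.le (by omega)
          gcongr
          refine h7.trans ?_
          gcongr
          refine le_trans (le_of_eq ?_) h8
          congr!
      _ = _ := by rw [add_assoc, ← ENNReal.coe_add]
  exact absurd h5 (not_lt.2 h10)

end Pool.Agent.Work.MP_a32fd7_lc
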