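import Pool.Agent.Work.MP_a32fd7_lc.Words

/-!
# Weights and dangers

For a set `B` of words, `wt f B = ∑_{w ∈ B} f w`.  The danger `dg x B ρ` of a string `ρ` is the
sum over the nonempty suffixes `s` of `ρ` and the words `w ∈ B` extending `s` of
`x ^ (|w| - |s|)`.  If `wt (x ^ |·|) B + 1 / 2 ≤ x` then a string all of whose initial segments
have danger less than `1 / 2` has a one-bit extension with the same property.
-/

namespace Pool.Agent.Work.MP_a32fd7_lc

open scoped NNReal ENNReal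
open Filter Topology

/-- Total weight of the set `B` of words. -/
noncomputable def wt (f : List Bool → ℝ≥0) (B : Set (List Bool)) : ℝ≥0∞ := ∑' w : B, (f w : ℝ≥0∞)

theorem wt_mono (f : List Bool → ℝ≥0) {B B' : Set (List Bool)} (h : B ⊆ B') :
    wt f B ≤ wt f B' := ENNReal.tsum_mono_subtype (fun w => (f w : ℝ≥0∞)) h

theorem wt_union_le (f : List Bool → ℝ≥0) (B B' : Set (List Bool)) :
    wt f (B ∪ B') ≤ wt f B + wt f B' := ENNReal.tsum_union_le (fun w => (f w : ℝ≥0∞)) B B'

theorem wt_biUnion_le {ι : Type*} (f : List Bool → ℝ≥0) (s : Finset ι)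
    (B : ι → Set (List Bool)) : wt f (⋃ i ∈ s, B i) ≤ ∑ i ∈ s, wt f (B i) :=
  ENNReal.tsum_biUnion_le (fun w => (f w : ℝ≥0∞)) s B

theorem wt_le_wt {f g : List Bool → ℝ≥0} {B : Set (List Bool)} (h : ∀ w ∈ B, f w ≤ g w) :
    wt f B ≤ wt g B := ENNReal.tsum_le_tsum fun w => ENNReal.coe_le_coe.2 (h w w.2)

theorem wt_mul_left (a : ℝ≥0) (f : List Bool → ℝ≥0) (B : Set (List Bool)) :
    wt (fun w => a * f w) B = a * wt f B := by
  unfold wt
  rw [← ENNReal.tsum_mul_left]
  exact tsum_congr fun w => by push_cast; rfl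

theorem wt_add (f g : List Bool → ℝ≥0) (B : Set (List Bool)) :
    wt (fun w => f w + g w) B = wt f B + wt g B := by
  unfold wt
  rw [← ENNReal.tsum_add]
  exact tsum_congr fun w => by push_cast; rfl

theorem wt_finset (f : List Bool → ℝ≥0) (s : Finset (List Bool)) :
    wt f (s : Set (List Bool)) = ((∑ w ∈ s, f w : ℝ≥0) : ℝ≥0∞) := by
  unfold wt
  rw [Finset.tsum_subtype' s (fun w => (f w : ℝ≥0∞))]
  push_cast
  rfl

theorem sum_le_wt (f : List Bool → ℝ≥0) {s : Finset (List Bool)} {B : Set (List Bool)}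
    (h : (s : Set (List Bool)) ⊆ B) : ((∑ w ∈ s, f w : ℝ≥0) : ℝ≥0∞) ≤ wt f B := by
  rw [← wt_finset]
  exact wt_mono f h

theorem wt_le_of_forall {f : List Bool → ℝ≥0} {B : Set (List Bool)} {a : ℝ≥0∞}
    (h : ∀ s : Finset (List Bool), (s : Set (List Bool)) ⊆ B →
      ((∑ w ∈ s, f w : ℝ≥0) : ℝ≥0∞) ≤ a) : wt f B ≤ a := by
  unfold wt
  rw [ENNReal.tsum_eq_iSup_sum]
  refine iSup_le fun s => ?_
  classical
  have h1 := h (s.map (Function.Embedding.subtype _)) (by
    intro w hw
    simp only [Finset.coe_map, Set.mem_image] at hw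
    obtain ⟨v, -, rfl⟩ := hw
    exact v.2)
  rw [Finset.sum_map] at h1
  refine le_trans (le_of_eq ?_) h1
  push_cast
  rfl

/-- The weight `x ^ |w|`. -/
def pw (x : ℝ≥0) (w : List Bool) : ℝ≥0 := x ^ w.length

/-- The coefficient of the word `w` in the danger of `ρ`. -/
def dc (x : ℝ≥0) (ρ w : List Bool) : ℝ≥0 :=
  ∑ i ∈ Finset.range ρ.length,
    if ρ.drop i <+: w then x ^ (w.length - (ρ.length - i)) else 0

/-- The danger of `ρ` with respect to the set `B` of words. -/
noncomputable def dg (x : ℝ≥0) (B : Set (List Bool)) (ρ : List Bool) : ℝ≥0∞ := wt (dc x ρ) B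

/-- All initial segments of `ρ` have danger less than `1 / 2`. -/
def Safe (x : ℝ≥0) (B : Set (List Bool)) (ρ : List Bool) : Prop :=
  ∀ i ≤ ρ.length, dg x B (ρ.take i) < 1 / 2

theorem dg_mono (x : ℝ≥0) {B B' : Set (List Bool)} (h : B ⊆ B') (ρ : List Bool) :
    dg x B ρ ≤ dg x B' ρ := wt_mono _ h

theorem Safe.mono {x : ℝ≥0} {B B' : Set (List Bool)} {ρ : List Bool} (h : Safe x B' ρ)
    (hB : B ⊆ B') : Safe x B ρ := fun i hi => (dg_mono x hB _).trans_lt (h i hi)

theorem Safe.of_isPrefix {x : ℝ≥0} {B : Set (List Bool)} {ρ ρ' : List Bool} (h : Safe x B ρ')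
    (hρ : ρ <+: ρ') : Safe x B ρ := by
  intro i hi
  obtain ⟨t, rfl⟩ := hρ
  have h1 := h i (by simp; omega)
  rwa [List.take_append_of_le_length hi] at h1

theorem dg_nil (x : ℝ≥0) (B : Set (List Bool)) : dg x B [] = 0 := by
  have : dc x [] = fun _ => 0 := by
    funext w
    simp [dc]
  simp [dg, wt, this]

theorem safe_nil (x : ℝ≥0) (B : Set (List Bool)) : Safe x B [] := by
  intro i hi
  have : i = 0 := by simpa using hi
  subst this
  rw [List.take_nil, dg_nil]
  norm_num

theorem one_le_dg {x : ℝ≥0} {B : Set (List Bool)} {ρ : List Bool} {i : ℕ} (hi : i < ρ.length)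
    (h : ρ.drop i ∈ B) : 1 ≤ dg x B ρ := by
  have h1 := sum_le_wt (dc x ρ) (s := {ρ.drop i}) (B := B) (by simpa using h)
  refine le_trans ?_ h1
  rw [Finset.sum_singleton]
  have h2 : (1 : ℝ≥0) ≤ dc x ρ (ρ.drop i) := by
    unfold dc
    have h3 := Finset.single_le_sum (f := fun j => if ρ.drop j <+: ρ.drop i then
      x ^ ((ρ.drop i).length - (ρ.length - j)) else 0) (s := Finset.range ρ.length)
      (fun _ _ => zero_le) (Finset.mem_range.2 hi)
    refine le_trans ?_ h3
    simp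
  exact_mod_cast h2

theorem not_safe_of_mem {x : ℝ≥0} {B : Set (List Bool)} {ρ : List Bool} {i : ℕ}
    (hi : i < ρ.length) (h : ρ.drop i ∈ B) : ¬ Safe x B ρ := by
  intro hs
  have h1 := hs ρ.length le_rfl
  rw [List.take_length] at h1
  have h2 := one_le_dg (x := x) hi h
  have h3 : (1 : ℝ≥0∞) < 1 / 2 := h2.trans_lt h1
  have h4 : (1 / 2 : ℝ≥0∞) ≤ 1 := by
    rw [one_div]
    exact ENNReal.inv_le_one.2 (by norm_num)
  exact absurd h3 (not_lt.2 h4)

/-- The pointwise inequality behind the extension lemma. -/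
theorem dc_append_le (x : ℝ≥0) (ρ w : List Bool) :
    x * (dc x (ρ ++ [false]) w + dc x (ρ ++ [true]) w) ≤ dc x ρ w + pw x w := by
  have key : ∀ i ∈ Finset.range (ρ.length + 1),
      x * ((if (ρ ++ [false]).drop i <+: w then x ^ (w.length - (ρ.length + 1 - i)) else 0) +
        (if (ρ ++ [true]).drop i <+: w then x ^ (w.length - (ρ.length + 1 - i)) else 0)) ≤
        if ρ.drop i <+: w then x ^ (w.length - (ρ.length - i)) else 0 := by
    intro i hi
    have hi' : i ≤ ρ.length := by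
      have := Finset.mem_range.1 hi
      omega
    rw [List.drop_append_of_le_length hi', List.drop_append_of_le_length hi']
    have hlen : (ρ.drop i).length = ρ.length - i := List.length_drop
    by_cases h0 : ρ.drop i ++ [false] <+: w
    · have h1 : ¬ ρ.drop i ++ [true] <+: w := by
        intro h1
        have := List.prefix_of_prefix_length_le h0 h1 (by simp)
        have h2 := this.eq_of_length (by simp)
        simp at h2
      have h2 : ρ.drop i <+: w := (List.prefix_append _ _).trans h0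
      rw [if_pos h0, if_neg h1, if_pos h2, add_zero, ← pow_succ']
      have h3 := h0.length_le
      rw [List.length_append, hlen, List.length_singleton] at h3
      apply le_of_eq
      congr 1
      omega
    · by_cases h1 : ρ.drop i ++ [true] <+: w
      · have h2 : ρ.drop i <+: w := (List.prefix_append _ _).trans h1
        rw [if_neg h0, if_pos h1, if_pos h2, zero_add, ← pow_succ']
        have h3 := h1.length_le
        rw [List.length_append, hlen, List.length_singleton] at h3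
        apply le_of_eq
        congr 1
        omega
      · rw [if_neg h0, if_neg h1]
        simp
  have hsum := Finset.sum_le_sum key
  rw [← Finset.mul_sum, Finset.sum_add_distrib] at hsum
  unfold dc pw
  simp only [List.length_append, List.length_singleton]
  refine hsum.trans ?_
  rw [Finset.sum_range_succ]
  simp

theorem safe_append_iff {x : ℝ≥0} {B : Set (List Bool)} {ρ : List Bool} {a : Bool}
    (h : Safe x B ρ) (h' : dg x B (ρ ++ [a]) < 1 / 2) : Safe x B (ρ ++ [a]) := by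
  intro i hi
  rw [List.length_append, List.length_singleton] at hi
  rcases Nat.lt_or_ge ρ.length i with h1 | h1
  · have h2 : i = (ρ ++ [a]).length := by simp; omega
    rw [h2, List.take_length]
    exact h'
  · rw [List.take_append_of_le_length h1]
    exact h i h1

/-- The extension lemma. -/
theorem exists_safe_append {x : ℝ≥0} {B : Set (List Bool)} {ρ : List Bool}
    (hW : wt (pw x) B + 1 / 2 ≤ x) (h : Safe x B ρ) : ∃ a, Safe x B (ρ ++ [a]) := by
  by_contra hcon
  push Not at hcon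
  have hh : ∀ a, 1 / 2 ≤ dg x B (ρ ++ [a]) := by
    intro a
    by_contra h1
    exact hcon a (safe_append_iff h (not_le.1 h1))
  have hρ : dg x B ρ < 1 / 2 := by
    have := h ρ.length le_rfl
    rwa [List.take_length] at this
  have h1 : (x : ℝ≥0∞) * (dg x B (ρ ++ [false]) + dg x B (ρ ++ [true])) ≤
      dg x B ρ + wt (pw x) B := by
    unfold dg
    rw [← wt_add, ← wt_mul_left, ← wt_add]
    exact wt_le_wt fun w _ => dc_append_le x ρ w
  have h2 : (x : ℝ≥0∞) ≤ x * (dg x B (ρ ++ [false]) + dg x B (ρ ++ [true])) := by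
    calc (x : ℝ≥0∞) = x * (1 / 2 + 1 / 2) := by rw [ENNReal.add_halves, mul_one]
      _ ≤ _ := by gcongr <;> exact hh _
  have hfin : wt (pw x) B ≠ ⊤ := by
    intro htop
    rw [htop, top_add] at hW
    exact absurd (lt_of_le_of_lt hW ENNReal.coe_lt_top) (lt_irrefl _)
  have h3 : dg x B ρ + wt (pw x) B < 1 / 2 + wt (pw x) B :=
    ENNReal.add_lt_add_right hfin hρ
  have h4 : (x : ℝ≥0∞) < x := by
    calc (x : ℝ≥0∞) ≤ dg x B ρ + wt (pw x) B := h2.trans h1
      _ < 1 / 2 + wt (pw x) B := h3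
      _ = wt (pw x) B + 1 / 2 := add_comm _ _
      _ ≤ x := hW
  exact lt_irrefl _ h4

/-- Words of length at least `L` have small `x`-weight. -/
theorem pw_le {x y : ℝ≥0} (hxy : x ≤ y) (hy : y ≠ 0) {L : ℕ} {w : List Bool}
    (hw : L ≤ w.length) : pw x w ≤ (x / y) ^ L * pw y w := by
  unfold pw
  have h1 : x / y ≤ 1 := div_le_one_of_le₀ hxy zero_le
  calc x ^ w.length = (x / y) ^ w.length * y ^ w.length := by
        rw [← mul_pow, div_mul_cancel₀ _ hy]
    _ ≤ (x / y) ^ L * y ^ w.length :=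
        mul_le_mul_left (pow_le_pow_of_le_one zero_le h1 hw) _

theorem dc_le {x : ℝ≥0} (hx : x ≤ 1) (hx0 : x ≠ 0) (ρ w : List Bool) :
    dc x ρ w ≤ (ρ.length * (x⁻¹) ^ ρ.length) * pw x w := by
  unfold dc pw
  have h1 : ∀ i ∈ Finset.range ρ.length,
      (if ρ.drop i <+: w then x ^ (w.length - (ρ.length - i)) else 0) ≤
        (x⁻¹) ^ ρ.length * x ^ w.length := by
    intro i hi
    split_ifs with h
    · rw [inv_pow, inv_mul_eq_div, le_div_iff₀ (pow_pos (pos_iff_ne_zero.2 hx0) _), ← pow_add]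
      apply pow_le_pow_of_le_one zero_le hx
      omega
    · exact zero_le
  refine (Finset.sum_le_card_nsmul _ _ _ h1).trans (le_of_eq ?_)
  rw [Finset.card_range, nsmul_eq_mul]
  ring

/-- The factor occurring in the tail bound. -/
noncomputable def kap (x y : ℝ≥0) (n L : ℕ) : ℝ≥0 := (n * (x⁻¹) ^ n) * (x / y) ^ L

theorem kap_mono {x y : ℝ≥0} (hx : x ≤ 1) (hx0 : x ≠ 0) {n n' L : ℕ} (h : n ≤ n') :
    kap x y n L ≤ kap x y n' L := by
  unfold kap
  have h1 : (1 : ℝ≥0) ≤ x⁻¹ := (one_le_inv₀ (pos_iff_ne_zero.2 hx0)).2 hx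
  gcongr

theorem kap_anti {x y : ℝ≥0} (hxy : x ≤ y) {n L L' : ℕ} (h : L ≤ L') :
    kap x y n L' ≤ kap x y n L := by
  unfold kap
  have h1 : x / y ≤ 1 := div_le_one_of_le₀ hxy zero_le
  gcongr 1
  exact pow_le_pow_of_le_one zero_le h1 h

theorem wt_pw_le {x y : ℝ≥0} (hxy : x ≤ y) (hy : y ≠ 0) {L : ℕ} {V : Set (List Bool)}
    (hV : ∀ w ∈ V, L ≤ w.length) : wt (pw x) V ≤ ((x / y) ^ L : ℝ≥0) * wt (pw y) V := by
  rw [← wt_mul_left]
  exact wt_le_wt fun w hw => pw_le hxy hy (hV w hw)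

theorem dg_le {x y : ℝ≥0} (hx : x ≤ 1) (hx0 : x ≠ 0) (hxy : x ≤ y) (hy : y ≠ 0) {L : ℕ}
    {V : Set (List Bool)} (hV : ∀ w ∈ V, L ≤ w.length) (ρ : List Bool) :
    dg x V ρ ≤ kap x y ρ.length L * wt (pw y) V := by
  rw [← wt_mul_left]
  refine wt_le_wt fun w hw => (dc_le hx hx0 ρ w).trans ?_
  unfold kap
  rw [mul_assoc ((ρ.length : ℝ≥0) * (x⁻¹) ^ ρ.length)]
  exact mul_le_mul_right (pw_le hxy hy (hV w hw)) _

theorem tendsto_kap {x y : ℝ≥0} (hxy : x < y) (n : ℕ) :
    Tendsto (fun L => kap x y n L) atTop (𝓝 0) := by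
  unfold kap
  have h1 : x / y < 1 := by
    rw [div_lt_one (pos_of_gt hxy)]
    exact hxy
  have h2 : Tendsto (fun L : ℕ => (x / y) ^ L) atTop (𝓝 0) :=
    tendsto_pow_atTop_nhds_zero_of_lt_one zero_le h1
  simpa using h2.const_mul ((n : ℝ≥0) * (x⁻¹) ^ n)

end Pool.Agent.Work.MP_a32fd7_lc
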