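import Mathlib

/-!
# Definitions for `MP_a32fd7_lc`
-/

namespace Pool.Agent.Work.MP_a32fd7_lc

/-- A machine `M`, i.e. a partial recursive function from binary strings to binary strings whose
domain is free of proper initial segments. -/
def IsPrefixFreeMachine (M : List Bool →. List Bool) : Prop :=
  Partrec M ∧ ∀ p q : List Bool, (M p).Dom → (M q).Dom → p <+: q → p = q

/-- `U` is a universal (optimal) machine of this kind: for every such machine `M` there is a
constant `c` such that every output of `M` on a program `p` is an output of `U` on a program of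
length at most `|p| + c`.  (Every machine `U` which simulates each `M` in the form
`U (e ++ p) = M p`, with a string `e` depending only on `M`, has this property.) -/
def IsUniversal (U : List Bool →. List Bool) : Prop :=
  IsPrefixFreeMachine U ∧ ∀ M : List Bool →. List Bool, IsPrefixFreeMachine M →
    ∃ c : ℕ, ∀ p σ : List Bool, σ ∈ M p → ∃ q : List Bool, σ ∈ U q ∧ q.length ≤ p.length + c

/-- Kolmogorov complexity with respect to `U`: the least length of a program for `σ`. -/
noncomputable def K (U : List Bool →. List Bool) (σ : List Bool) : ℕ :=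
  sInf {n : ℕ | ∃ p : List Bool, σ ∈ U p ∧ p.length = n}

/-- The block `X(n) X(n+1) ... X(n+m-1)`. -/
def block (X : ℕ → Bool) (n m : ℕ) : List Bool := (List.range m).map fun i => X (n + i)

/-- `SC(δ, c)`: the sequences all of whose blocks `σ` satisfy `K(σ) ≥ δ |σ| - c`. -/
def SCc (U : List Bool →. List Bool) (δ : ℚ) (c : ℕ) : Set (ℕ → Bool) :=
  {X | ∀ n m : ℕ, δ * (m : ℚ) - (c : ℚ) ≤ (K U (block X n m) : ℚ)}

/-- `SC(δ)`: the `δ`-shift complex sequences. -/
def SC (U : List Bool →. List Bool) (δ : ℚ) : Set (ℕ → Bool) := ⋃ c : ℕ, SCc U δ c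

/-- A sequence of bits as a (total) function `ℕ →. ℕ`. -/
def toPFun (X : ℕ → Bool) : ℕ →. ℕ := fun n => Part.some (X n).toNat

/-- Weak (Muchnik) reducibility: every `Y ∈ Q` Turing-computes some `X ∈ P`. -/
def WeakLE (P Q : Set (ℕ → Bool)) : Prop :=
  ∀ Y ∈ Q, ∃ X ∈ P, TuringReducible (toPFun X) (toPFun Y)

/-- Strict weak reducibility. -/
def WeakLT (P Q : Set (ℕ → Bool)) : Prop := WeakLE P Q ∧ ¬ WeakLE Q P

end Pool.Agent.Work.MP_a32fd7_lc
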