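import Pool.Agent.Work.MP_a32fd7_lc.Sigma
import Pool.Agent.Work.MP_a32fd7_lc.Defs

/-!
# Turing functionals as r.e. sets of axioms

If `f` is recursive in (the function given by) `X : ℕ → Bool` then there is an r.e. relation
`Ψ ρ a b`, monotone in the finite string `ρ`, such that `b ∈ f a` iff `Ψ ρ a b` holds for some
initial segment `ρ` of `X`.
-/

namespace Pool.Agent.Work.MP_a32fd7_lc

open Encodable

@[simp] theorem length_block (X : ℕ → Bool) (n m : ℕ) : (block X n m).length = m := by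
  simp [block]

theorem block_zero_isPrefix (X : ℕ → Bool) {m m' : ℕ} (h : m ≤ m') :
    block X 0 m <+: block X 0 m' := by
  obtain ⟨k, rfl⟩ := Nat.exists_eq_add_of_le h
  unfold block
  rw [List.range_add, List.map_append]
  exact List.prefix_append _ _

theorem block_getElem? (X : ℕ → Bool) (m i : ℕ) :
    (block X 0 m)[i]? = if i < m then some (X i) else none := by
  unfold block
  rw [List.getElem?_map]
  split_ifs with h
  · simp [h]
  · rw [List.getElem?_eq_none (by simpa using h)]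
    rfl

/-- Monotonicity in the oracle string. -/
def Mono (P : List Bool → Prop) : Prop := ∀ ρ ρ', ρ <+: ρ' → P ρ → P ρ'

theorem Mono.exists_and {X : ℕ → Bool} {P Q : List Bool → Prop} (hP : Mono P) (hQ : Mono Q) :
    (∃ m, P (block X 0 m) ∧ Q (block X 0 m)) ↔
      (∃ m, P (block X 0 m)) ∧ (∃ m, Q (block X 0 m)) := by
  constructor
  · rintro ⟨m, h1, h2⟩
    exact ⟨⟨m, h1⟩, ⟨m, h2⟩⟩
  · rintro ⟨⟨m, h1⟩, ⟨m', h2⟩⟩
    exact ⟨max m m', hP _ _ (block_zero_isPrefix X (le_max_left _ _)) h1,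
      hQ _ _ (block_zero_isPrefix X (le_max_right _ _)) h2⟩

theorem Mono.exists_forall_lt {X : ℕ → Bool} {P : ℕ → List Bool → Prop} (hP : ∀ i, Mono (P i))
    (n : ℕ) :
    (∃ m, ∀ i < n, P i (block X 0 m)) ↔ ∀ i < n, ∃ m, P i (block X 0 m) := by
  constructor
  · rintro ⟨m, h⟩ i hi
    exact ⟨m, h i hi⟩
  · intro h
    induction n with
    | zero => exact ⟨0, by simp⟩
    | succ n ih =>
      obtain ⟨m, hm⟩ := ih fun i hi => h i (by omega)
      obtain ⟨m', hm'⟩ := h n (by omega)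
      refine ⟨max m m', fun i hi => ?_⟩
      rcases Nat.lt_succ_iff_lt_or_eq.1 hi with h1 | rfl
      · exact hP i _ _ (block_zero_isPrefix X (le_max_left _ _)) (hm i h1)
      · exact hP _ _ _ (block_zero_isPrefix X (le_max_right _ _)) hm'

/-- The property established by induction on the derivation of `Nat.RecursiveIn`. -/
def HasAxioms (X : ℕ → Bool) (f : ℕ →. ℕ) : Prop :=
  ∃ Ψ : List Bool → ℕ → ℕ → Prop,
    SOne (fun a : List Bool × ℕ × ℕ => Ψ a.1 a.2.1 a.2.2) ∧
    (∀ a b, Mono fun ρ => Ψ ρ a b) ∧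
    ∀ a b, b ∈ f a ↔ ∃ m, Ψ (block X 0 m) a b

theorem hasAxioms_of_total {X : ℕ → Bool} {g : ℕ → ℕ} (hg : Primrec g) :
    HasAxioms X (fun n => Part.some (g n)) := by
  refine ⟨fun _ a b => b = g a, ?_, fun a b ρ ρ' _ h => h, fun a b => by simp⟩
  apply SOne.of_primrecPred
  exact Primrec.eq.comp (Primrec.snd.comp Primrec.snd) (hg.comp (Primrec.fst.comp Primrec.snd))

theorem hasAxioms_oracle {X : ℕ → Bool} : HasAxioms X (toPFun X) := by
  refine ⟨fun ρ a b => ρ[a]?.map Bool.toNat = some b, ?_, ?_, ?_⟩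
  · apply SOne.of_primrecPred
    have h1 : Primrec fun a : List Bool × ℕ × ℕ => (a.1[a.2.1]?).map Bool.toNat :=
      Primrec.option_map₁ (Primrec.dom_finite _) |>.comp
        (Primrec.list_getElem?.comp Primrec.fst (Primrec.fst.comp Primrec.snd))
    exact Primrec.eq.comp h1 (Primrec.option_some.comp (Primrec.snd.comp Primrec.snd))
  · intro a b ρ ρ' h h1
    obtain ⟨t, rfl⟩ := h
    beta_reduce at h1 ⊢
    have ha : a < ρ.length := by
      by_contra hcon
      rw [List.getElem?_eq_none (by omega)] at h1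
      simp at h1
    rw [List.getElem?_append_left ha]
    exact h1
  · intro a b
    simp only [block_getElem?, toPFun, Part.mem_some_iff]
    constructor
    · rintro rfl
      exact ⟨a + 1, by simp⟩
    · rintro ⟨m, hm⟩
      split_ifs at hm with h
      · simpa using hm.symm
      · simp at hm

theorem HasAxioms.pair {X : ℕ → Bool} {f h : ℕ →. ℕ} (hf : HasAxioms X f) (hh : HasAxioms X h) :
    HasAxioms X (fun n => (Nat.pair <$> f n <*> h n)) := by
  obtain ⟨Ψ, hΨ, mΨ, eΨ⟩ := hf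
  obtain ⟨Θ, hΘ, mΘ, eΘ⟩ := hh
  refine ⟨fun ρ a b => Ψ ρ a b.unpair.1 ∧ Θ ρ a b.unpair.2, ?_, ?_, ?_⟩
  · have hu : Primrec fun a : List Bool × ℕ × ℕ => a.2.2.unpair :=
      Primrec.unpair.comp (Primrec.snd.comp Primrec.snd)
    exact SOne.and
      (hΨ.comp (f := fun a : List Bool × ℕ × ℕ => (a.1, a.2.1, a.2.2.unpair.1))
        (Primrec.pair Primrec.fst (Primrec.pair (Primrec.fst.comp Primrec.snd)
          (Primrec.fst.comp hu))))
      (hΘ.comp (f := fun a : List Bool × ℕ × ℕ => (a.1, a.2.1, a.2.2.unpair.2))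
        (Primrec.pair Primrec.fst (Primrec.pair (Primrec.fst.comp Primrec.snd)
          (Primrec.snd.comp hu))))
  · intro a b ρ ρ' h h1
    exact ⟨mΨ _ _ _ _ h h1.1, mΘ _ _ _ _ h h1.2⟩
  · intro a b
    rw [Mono.exists_and (mΨ _ _) (mΘ _ _), ← eΨ, ← eΘ]
    simp only [Part.map_eq_map, Seq.seq, Part.mem_bind_iff, Part.mem_map_iff,
      exists_exists_and_eq_and]
    constructor
    · rintro ⟨x, hx, y, hy, rfl⟩
      simpa using ⟨hx, hy⟩
    · rintro ⟨hx, hy⟩
      exact ⟨_, hx, _, hy, by simp⟩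

theorem HasAxioms.comp {X : ℕ → Bool} {f h : ℕ →. ℕ} (hf : HasAxioms X f) (hh : HasAxioms X h) :
    HasAxioms X (fun n => h n >>= f) := by
  obtain ⟨Ψ, hΨ, mΨ, eΨ⟩ := hf
  obtain ⟨Θ, hΘ, mΘ, eΘ⟩ := hh
  refine ⟨fun ρ a b => ∃ c, Θ ρ a c ∧ Ψ ρ c b, ?_, ?_, ?_⟩
  · apply SOne.exists
    exact SOne.and
      (hΘ.comp (f := fun a : (List Bool × ℕ × ℕ) × ℕ => (a.1.1, a.1.2.1, a.2))
        (Primrec.pair (Primrec.fst.comp Primrec.fst) (Primrec.pair
          (Primrec.fst.comp (Primrec.snd.comp Primrec.fst)) Primrec.snd)))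
      (hΨ.comp (f := fun a : (List Bool × ℕ × ℕ) × ℕ => (a.1.1, a.2, a.1.2.2))
        (Primrec.pair (Primrec.fst.comp Primrec.fst) (Primrec.pair Primrec.snd
          (Primrec.snd.comp (Primrec.snd.comp Primrec.fst)))))
  · rintro a b ρ ρ' h ⟨c, h1, h2⟩
    exact ⟨c, mΘ _ _ _ _ h h1, mΨ _ _ _ _ h h2⟩
  · intro a b
    refine (Part.mem_bind_iff (f := h a) (g := f)).trans ?_
    constructor
    · rintro ⟨c, h1, h2⟩
      obtain ⟨m, hm⟩ := (Mono.exists_and (X := X) (mΘ a c) (mΨ c b)).2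
        ⟨(eΘ _ _).1 h1, (eΨ _ _).1 h2⟩
      exact ⟨m, c, hm⟩
    · rintro ⟨m, c, h1, h2⟩
      exact ⟨c, (eΘ _ _).2 ⟨m, h1⟩, (eΨ _ _).2 ⟨m, h2⟩⟩

theorem mem_rec_iff (f h : ℕ →. ℕ) (a n b : ℕ) :
    b ∈ (Nat.rec (f a) (fun y IH => IH >>= fun i => h (Nat.pair a (Nat.pair y i))) n : Part ℕ) ↔
      ∃ c : ℕ → ℕ, c 0 ∈ f a ∧ (∀ y < n, c (y + 1) ∈ h (Nat.pair a (Nat.pair y (c y)))) ∧
        c n = b := by
  induction n generalizing b with
  | zero =>
    constructor
    · intro hb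
      exact ⟨fun _ => b, hb, by simp, rfl⟩
    · rintro ⟨c, h1, -, rfl⟩
      exact h1
  | succ n ih =>
    simp only [Part.bind_eq_bind, Part.mem_bind_iff] at ih ⊢
    constructor
    · rintro ⟨i, hi, hb⟩
      obtain ⟨c, h1, h2, rfl⟩ := (ih i).1 hi
      refine ⟨fun k => if k ≤ n then c k else b, by simpa using h1, ?_, by simp⟩
      intro y hy
      rcases Nat.lt_succ_iff_lt_or_eq.1 hy with h3 | rfl
      · have h4 : y + 1 ≤ n := h3
        have h5 : y ≤ n := by omega
        simp only [h4, h5, if_true]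
        exact h2 y h3
      · simpa using hb
    · rintro ⟨c, h1, h2, rfl⟩
      exact ⟨c n, (ih _).2 ⟨c, h1, fun y hy => h2 y (by omega), rfl⟩, h2 n (by omega)⟩

theorem HasAxioms.prec {X : ℕ → Bool} {f h : ℕ →. ℕ} (hf : HasAxioms X f) (hh : HasAxioms X h) :
    HasAxioms X (fun p =>
        let (a, n) := Nat.unpair p
        n.rec (f a) fun y IH => do
          let i ← IH
          h (Nat.pair a (Nat.pair y i))) := by
  obtain ⟨Ψ, hΨ, mΨ, eΨ⟩ := hf
  obtain ⟨Θ, hΘ, mΘ, eΘ⟩ := hh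
  refine ⟨fun ρ p b => ∃ L : List ℕ, (Ψ ρ p.unpair.1 (L.getD 0 0) ∧
    ∀ y < p.unpair.2, Θ ρ (Nat.pair p.unpair.1 (Nat.pair y (L.getD y 0))) (L.getD (y + 1) 0)) ∧
      L.getD p.unpair.2 0 = b, ?_, ?_, ?_⟩
  · apply SOne.exists
    refine SOne.and (SOne.and ?_ ?_) ?_
    · exact hΨ.comp (f := fun a : (List Bool × ℕ × ℕ) × List ℕ =>
        (a.1.1, a.1.2.1.unpair.1, a.2.getD 0 0))
        (Primrec.pair (Primrec.fst.comp Primrec.fst) (Primrec.pair
          (Primrec.fst.comp (Primrec.unpair.comp (Primrec.fst.comp (Primrec.snd.comp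
            Primrec.fst))))
          ((Primrec.list_getD 0).comp Primrec.snd (Primrec.const 0))))
    · apply SOne.forall_lt
      · refine hΘ.comp (f := fun a : ((List Bool × ℕ × ℕ) × List ℕ) × ℕ =>
          (a.1.1.1, Nat.pair a.1.1.2.1.unpair.1 (Nat.pair a.2 (a.1.2.getD a.2 0)),
            a.1.2.getD (a.2 + 1) 0)) ?_
        have e1 : Primrec fun a : ((List Bool × ℕ × ℕ) × List ℕ) × ℕ => a.1.1.2.1.unpair.1 :=
          Primrec.fst.comp (Primrec.unpair.comp (Primrec.fst.comp (Primrec.snd.comp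
            (Primrec.fst.comp Primrec.fst))))
        have e2 : Primrec fun a : ((List Bool × ℕ × ℕ) × List ℕ) × ℕ => a.1.2.getD a.2 0 :=
          (Primrec.list_getD 0).comp (Primrec.snd.comp Primrec.fst) Primrec.snd
        have e3 : Primrec fun a : ((List Bool × ℕ × ℕ) × List ℕ) × ℕ => a.1.2.getD (a.2 + 1) 0 :=
          (Primrec.list_getD 0).comp (Primrec.snd.comp Primrec.fst)
            (Primrec.succ.comp Primrec.snd)
        exact Primrec.pair (Primrec.fst.comp (Primrec.fst.comp Primrec.fst))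
          (Primrec.pair (Primrec₂.natPair.comp e1 (Primrec₂.natPair.comp Primrec.snd e2)) e3)
      · exact Primrec.snd.comp (Primrec.unpair.comp (Primrec.fst.comp (Primrec.snd.comp
            Primrec.fst)))
    · apply SOne.of_primrecPred
      exact Primrec.eq.comp
        ((Primrec.list_getD 0).comp Primrec.snd
          (Primrec.snd.comp (Primrec.unpair.comp (Primrec.fst.comp (Primrec.snd.comp
            Primrec.fst)))))
        (Primrec.snd.comp (Primrec.snd.comp Primrec.fst))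
  · rintro p b ρ ρ' h ⟨L, ⟨h1, h2⟩, h3⟩
    exact ⟨L, ⟨mΨ _ _ _ _ h h1, fun y hy => mΘ _ _ _ _ h (h2 y hy)⟩, h3⟩
  · intro p b
    have key := mem_rec_iff f h p.unpair.1 p.unpair.2 b
    refine key.trans ?_
    constructor
    · rintro ⟨c, h1, h2, h3⟩
      obtain ⟨m1, hm1⟩ := (eΨ _ _).1 h1
      obtain ⟨m2, hm2⟩ := (Mono.exists_forall_lt (X := X)
        (P := fun y ρ => Θ ρ (Nat.pair p.unpair.1 (Nat.pair y (c y))) (c (y + 1)))
        (fun y => mΘ _ _) p.unpair.2).2 (fun y hy => (eΘ _ _).1 (h2 y hy))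
      refine ⟨max m1 m2, (List.range (p.unpair.2 + 1)).map c, ⟨?_, ?_⟩, ?_⟩
      · have e0 : ((List.range (p.unpair.2 + 1)).map c).getD 0 0 = c 0 := by
          simp [List.getD_eq_getElem?_getD]
        rw [e0]
        exact mΨ _ _ _ _ (block_zero_isPrefix X (le_max_left _ _)) hm1
      · intro y hy
        have e1 : ((List.range (p.unpair.2 + 1)).map c).getD y 0 = c y := by
          have : y < p.unpair.2 + 1 := by omega
          simp [List.getD_eq_getElem?_getD, this]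
        have e2 : ((List.range (p.unpair.2 + 1)).map c).getD (y + 1) 0 = c (y + 1) := by
          have : y < p.unpair.2 := by omega
          simp [List.getD_eq_getElem?_getD, this]
        rw [e1, e2]
        exact mΘ _ _ _ _ (block_zero_isPrefix X (le_max_right _ _)) (hm2 y hy)
      · rw [← h3]
        simp [List.getD_eq_getElem?_getD]
    · rintro ⟨m, L, ⟨h1, h2⟩, h3⟩
      exact ⟨fun i => L.getD i 0, (eΨ _ _).2 ⟨m, h1⟩, fun y hy => (eΘ _ _).2 ⟨m, h2 y hy⟩, h3⟩

theorem HasAxioms.rfind {X : ℕ → Bool} {f : ℕ →. ℕ} (hf : HasAxioms X f) :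
    HasAxioms X (fun a => Nat.rfind fun n => (fun m => m = 0) <$> f (Nat.pair a n)) := by
  obtain ⟨Ψ, hΨ, mΨ, eΨ⟩ := hf
  refine ⟨fun ρ a b => Ψ ρ (Nat.pair a b) 0 ∧
    ∀ i < b, ∃ v, v ≠ 0 ∧ Ψ ρ (Nat.pair a i) v, ?_, ?_, ?_⟩
  · refine SOne.and ?_ ?_
    · exact hΨ.comp (f := fun a : List Bool × ℕ × ℕ => (a.1, Nat.pair a.2.1 a.2.2, 0))
        (Primrec.pair Primrec.fst (Primrec.pair
          (Primrec₂.natPair.comp (Primrec.fst.comp Primrec.snd) (Primrec.snd.comp Primrec.snd))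
          (Primrec.const 0)))
    · apply SOne.forall_lt
      · apply SOne.exists
        refine SOne.and ?_ ?_
        · apply SOne.of_primrecPred
          exact PrimrecPred.not (Primrec.eq.comp Primrec.snd (Primrec.const 0))
        · exact hΨ.comp (f := fun a : ((List Bool × ℕ × ℕ) × ℕ) × ℕ =>
            (a.1.1.1, Nat.pair a.1.1.2.1 a.1.2, a.2))
            (Primrec.pair (Primrec.fst.comp (Primrec.fst.comp Primrec.fst)) (Primrec.pair
              (Primrec₂.natPair.comp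
                (Primrec.fst.comp (Primrec.snd.comp (Primrec.fst.comp Primrec.fst)))
                (Primrec.snd.comp Primrec.fst)) Primrec.snd))
      · exact Primrec.snd.comp Primrec.snd
  · rintro a b ρ ρ' h ⟨h1, h2⟩
    refine ⟨mΨ _ _ _ _ h h1, fun i hi => ?_⟩
    obtain ⟨v, hv, h3⟩ := h2 i hi
    exact ⟨v, hv, mΨ _ _ _ _ h h3⟩
  · intro a b
    have hm : ∀ i, Mono fun ρ => ∃ v, v ≠ 0 ∧ Ψ ρ (Nat.pair a i) v := by
      rintro i ρ ρ' h ⟨v, hv, h3⟩
      exact ⟨v, hv, mΨ _ _ _ _ h h3⟩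
    have h1 := Mono.exists_and (X := X) (P := fun ρ => Ψ ρ (Nat.pair a b) 0)
      (Q := fun ρ => ∀ i < b, ∃ v, v ≠ 0 ∧ Ψ ρ (Nat.pair a i) v) (mΨ _ _)
      (fun ρ ρ' h h2 i hi => hm i ρ ρ' h (h2 i hi))
    rw [h1, Mono.exists_forall_lt hm, ← eΨ]
    refine (Nat.mem_rfind (p := fun n => (fun m => decide (m = 0)) <$> f (Nat.pair a n))).trans ?_
    simp only [Part.map_eq_map, Part.mem_map_iff]
    constructor
    · rintro ⟨⟨x, hx, hx0⟩, h2⟩
      refine ⟨?_, fun i hi => ?_⟩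
      · have : x = 0 := by simpa using hx0
        rwa [this] at hx
      · obtain ⟨v, hv, hv0⟩ := h2 hi
        have hv' : v ≠ 0 := by simpa using hv0
        obtain ⟨m, hm'⟩ := (eΨ _ _).1 hv
        exact ⟨m, v, hv', hm'⟩
    · rintro ⟨hx, h2⟩
      refine ⟨⟨0, hx, by simp⟩, fun {i} hi => ?_⟩
      obtain ⟨m, v, hv, hm'⟩ := h2 i hi
      exact ⟨v, (eΨ _ _).2 ⟨m, hm'⟩, by simpa using hv⟩

theorem hasAxioms_of_recursiveIn {X : ℕ → Bool} {f : ℕ →. ℕ}
    (hf : Nat.RecursiveIn {toPFun X} f) : HasAxioms X f := by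
  induction hf with
  | zero => exact hasAxioms_of_total (g := fun _ => 0) (Primrec.const 0)
  | succ => exact hasAxioms_of_total (g := Nat.succ) Primrec.succ
  | left =>
    exact hasAxioms_of_total (g := fun n => n.unpair.1) (Primrec.fst.comp Primrec.unpair)
  | right =>
    exact hasAxioms_of_total (g := fun n => n.unpair.2) (Primrec.snd.comp Primrec.unpair)
  | oracle g hg =>
    rw [Set.mem_singleton_iff] at hg
    subst hg
    exact hasAxioms_oracle
  | pair _ _ ih1 ih2 => exact ih1.pair ih2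
  | comp _ _ ih1 ih2 => exact ih1.comp ih2
  | prec _ _ ih1 ih2 => exact ih1.prec ih2
  | rfind _ ih => exact ih.rfind

/-- If `Y ≤_T X` then there is an r.e. relation `Φ ρ τ` between strings such that
`Φ ρ τ` for an initial segment `ρ` of `X` implies that `τ` is an initial segment of `Y`, and for
every `n` some initial segment `ρ` of `X` satisfies `Φ ρ (Y ↾ n)`. -/
theorem exists_axioms {X Y : ℕ → Bool} (h : TuringReducible (toPFun Y) (toPFun X)) :
    ∃ Φ : List Bool → List Bool → Prop,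
      SOne (fun a : List Bool × List Bool => Φ a.1 a.2) ∧
      (∀ m τ, Φ (block X 0 m) τ → τ = block Y 0 τ.length) ∧
      ∀ n, ∃ m, Φ (block X 0 m) (block Y 0 n) := by
  have h' : Nat.RecursiveIn {toPFun X} (toPFun Y) := RecursiveIn.iff_nat.1 h
  obtain ⟨Ψ, hΨ, mΨ, eΨ⟩ := hasAxioms_of_recursiveIn h'
  refine ⟨fun ρ τ => ∀ i < τ.length, Ψ ρ i (τ.getD i false).toNat, ?_, ?_, ?_⟩
  · apply SOne.forall_lt
    · refine hΨ.comp (f := fun a : (List Bool × List Bool) × ℕ =>
        (a.1.1, a.2, (a.1.2.getD a.2 false).toNat)) ?_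
      exact Primrec.pair (Primrec.fst.comp Primrec.fst) (Primrec.pair Primrec.snd
        ((Primrec.dom_finite Bool.toNat).comp
          ((Primrec.list_getD false).comp (Primrec.snd.comp Primrec.fst) Primrec.snd)))
    · exact Primrec.list_length.comp Primrec.snd
  · intro m τ hτ
    apply List.ext_getElem
    · simp
    · intro i h1 h2
      have h3 := (eΨ i _).2 ⟨m, hτ i h1⟩
      simp only [toPFun, Part.mem_some_iff] at h3
      have h4 : τ.getD i false = τ[i] := by simp [List.getD_eq_getElem?_getD, h1]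
      rw [h4] at h3
      have h5 : τ[i] = Y i := by
        cases h6 : τ[i] <;> cases h7 : Y i <;> simp [h6, h7] at h3 ⊢
      rw [h5]
      simp [block]
  · intro n
    have hm := (Mono.exists_forall_lt (X := X)
      (P := fun i ρ => Ψ ρ i ((block Y 0 n).getD i false).toNat)
      (fun i => mΨ _ _) n).2 ?_
    · obtain ⟨m, hm⟩ := hm
      exact ⟨m, fun i hi => hm i (by simpa using hi)⟩
    · intro i hi
      rw [← eΨ]
      rw [List.getD_eq_getElem?_getD, block_getElem?, if_pos hi]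
      simp [toPFun]

end Pool.Agent.Work.MP_a32fd7_lc
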