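import Pool.Agent.Work.MP_a32fd7_lc.Step
import Pool.Agent.Work.MP_a32fd7_lc.Functional

/-!
# Assembling the construction
-/

namespace Pool.Agent.Work.MP_a32fd7_lc

open scoped NNReal ENNReal
open Filter Topology Encodable

theorem exists_frac {u v : ℝ≥0} (h : u < v) :
    ∃ p q : ℕ, p ≠ 0 ∧ q ≠ 0 ∧ u < (p : ℝ≥0) / q ∧ (p : ℝ≥0) / q < v := by
  obtain ⟨r, h1, h2⟩ := exists_rat_btwn (show (u : ℝ) < v from h)
  have hr : (0 : ℝ) < r := lt_of_le_of_lt u.2 h1
  have hr' : 0 < r := by exact_mod_cast hr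
  have hnum : 0 < r.num := Rat.num_pos.2 hr'
  have hcast : (r : ℝ) = ((r.num.natAbs : ℕ) : ℝ) / ((r.den : ℕ) : ℝ) := by
    have h3 : ((r.num.natAbs : ℕ) : ℝ) = ((r.num : ℤ) : ℝ) := by
      rw [Nat.cast_natAbs, abs_of_pos hnum]
    rw [h3]
    exact Rat.cast_def r
  refine ⟨r.num.natAbs, r.den, Int.natAbs_ne_zero.2 hnum.ne', r.den_ne_zero, ?_, ?_⟩
  · rw [← NNReal.coe_lt_coe]
    push_cast
    rw [hcast] at h1
    exact h1
  · rw [← NNReal.coe_lt_coe]
    push_cast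
    rw [hcast] at h2
    exact h2

theorem exists_root (u : ℝ≥0) {n : ℕ} (hn : n ≠ 0) : ∃ z : ℝ≥0, z ^ n = u :=
  ⟨u ^ ((n : ℝ)⁻¹), NNReal.rpow_inv_natCast_pow _ hn⟩

/-- Choice of the parameters. -/
theorem exists_params {A b : ℕ} (hb : b ≠ 0) {β : ℚ} (hαβ : (A : ℚ) / b < β)
    (hβ1 : β < 1) :
    ∃ (px py q Q a : ℕ) (x y : ℝ≥0), q ≠ 0 ∧ px ≠ 0 ∧ py ≠ 0 ∧ x = (px : ℝ≥0) / q ∧
      y = (py : ℝ≥0) / q ∧ 1 / 2 < x ∧ x < y ∧ y ≤ 1 ∧ a ≤ Q ∧ 1 ≤ 2 ^ a * y ^ Q ∧
      (2 * (x / y)) ^ Q < 2 ^ a ∧ (a : ℚ) + 5 < β * Q ∧ y ^ b < (1 / 2) ^ A := by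
  have hbpos : (0 : ℚ) < b := by exact_mod_cast Nat.pos_of_ne_zero hb
  have hgap : 0 < β * b - A := by
    rw [div_lt_iff₀ hbpos] at hαβ
    linarith
  obtain ⟨k, hk⟩ := exists_nat_gt (6 / (β * b - A))
  rw [div_lt_iff₀ hgap] at hk
  have hk0 : k ≠ 0 := by
    rintro rfl
    simp at hk
    linarith
  set Q := b * k with hQdef
  set a := A * k + 1 with hadef
  have hQ0 : Q ≠ 0 := mul_ne_zero hb hk0
  have h5 : (a : ℚ) + 5 < β * Q := by
    rw [hQdef, hadef]
    push_cast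
    nlinarith
  have haQ : a ≤ Q := by
    have h6 : β * Q ≤ Q := by
      have : (0 : ℚ) ≤ Q := Nat.cast_nonneg _
      nlinarith
    have h7 : (a : ℚ) ≤ Q := by linarith
    exact_mod_cast h7
  have haQ' : a < Q := by
    have h6 : β * Q ≤ Q := by
      have : (0 : ℚ) ≤ Q := Nat.cast_nonneg _
      nlinarith
    have h7 : (a : ℚ) < Q := by linarith
    exact_mod_cast h7
  have hhalf : (1 / 2 : ℝ≥0) < 1 := by
    rw [div_lt_one (by norm_num)]
    norm_num
  have hhalf0 : (0 : ℝ≥0) < 1 / 2 := by positivity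
  obtain ⟨y0, hy0⟩ := exists_root ((1 / 2 : ℝ≥0) ^ A) hb
  obtain ⟨y1, hy1⟩ := exists_root ((1 / 2 : ℝ≥0) ^ a) hQ0
  have hy01 : y1 < y0 := by
    apply lt_of_pow_lt_pow_left₀ Q zero_le
    rw [hy1, hQdef, pow_mul, hy0, ← pow_mul, hadef]
    exact pow_lt_pow_right_of_lt_one₀ hhalf0 hhalf (Nat.lt_succ_self _)
  obtain ⟨n2, d2, hn2, hd2, h1, h2⟩ := exists_frac hy01
  set y : ℝ≥0 := (n2 : ℝ≥0) / d2 with hy
  have hyQ : (1 / 2 : ℝ≥0) ^ a < y ^ Q := by
    rw [← hy1]
    exact pow_lt_pow_left₀ h1 zero_le hQ0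
  have hyb : y ^ b < (1 / 2) ^ A := by
    rw [← hy0]
    exact pow_lt_pow_left₀ h2 zero_le hb
  have hy_half : 1 / 2 < y := by
    apply lt_of_pow_lt_pow_left₀ Q zero_le
    exact lt_of_le_of_lt (pow_le_pow_of_le_one zero_le hhalf.le haQ) hyQ
  have hyle : y ≤ 1 := by
    by_contra hcon
    rw [not_le] at hcon
    have h3 : 1 ≤ y ^ b := one_le_pow₀ hcon.le
    have h4 : (1 / 2 : ℝ≥0) ^ A ≤ 1 := pow_le_one₀ zero_le hhalf.le
    exact absurd (hyb.trans_le h4) (not_lt.2 h3)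
  have hypos : 0 < y := lt_trans hhalf0 hy_half
  have h2a : (1 : ℝ≥0) < 2 ^ a * y ^ Q := by
    have h3 : (2 : ℝ≥0) ^ a * (1 / 2) ^ a = 1 := by
      rw [← mul_pow]
      norm_num
    rw [← h3]
    exact mul_lt_mul_of_pos_left hyQ (by positivity)
  obtain ⟨r1, hr1⟩ := exists_root ((2 : ℝ≥0) ^ a) hQ0
  have hyr : 1 < y * r1 := by
    apply lt_of_pow_lt_pow_left₀ Q zero_le
    rw [one_pow, mul_pow, hr1, mul_comm]
    exact h2a
  have hxint : (1 / 2 : ℝ≥0) < min y (y * r1 / 2) := by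
    rw [lt_min_iff]
    refine ⟨hy_half, ?_⟩
    exact div_lt_div_of_pos_right hyr (by norm_num)
  obtain ⟨n1, d1, hn1, hd1, h3, h4⟩ := exists_frac hxint
  rw [lt_min_iff] at h4
  have hd1' : (d1 : ℝ≥0) ≠ 0 := by exact_mod_cast hd1
  have hd2' : (d2 : ℝ≥0) ≠ 0 := by exact_mod_cast hd2
  refine ⟨n1 * d2, n2 * d1, d1 * d2, Q, a, (n1 : ℝ≥0) / d1, y, mul_ne_zero hd1 hd2,
    mul_ne_zero hn1 hd2, mul_ne_zero hn2 hd1, ?_, ?_, h3, h4.1, hyle, haQ, h2a.le, ?_, h5, hyb⟩
  · push_cast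
    field_simp
  · rw [hy]
    push_cast
    field_simp
  · rw [← hr1]
    apply pow_lt_pow_left₀ _ zero_le hQ0
    rw [← mul_div_assoc, div_lt_iff₀ hypos]
    have h6 := mul_lt_mul_of_pos_left h4.2 (show (0 : ℝ≥0) < 2 by norm_num)
    rw [mul_div_cancel₀ _ (two_ne_zero)] at h6
    rw [mul_comm r1]
    exact h6

theorem exists_sequence {St : Type*} (s0 : St) (Req : ℕ → St → St → Prop)
    (h : ∀ n s, ∃ s', Req n s s') : ∃ f : ℕ → St, f 0 = s0 ∧ ∀ n, Req n (f n) (f (n + 1)) := by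
  choose g hg using h
  exact ⟨fun n => Nat.rec s0 (fun n s => g n s) n, rfl, fun n => hg n _⟩

/-- The relation with index `c`. -/
def PhiC (c : Nat.Partrec.Code) (ρ τ : List Bool) : Prop :=
  (Nat.Partrec.Code.eval c (encode (ρ, τ))).Dom

theorem sOne_phiC (c : Nat.Partrec.Code) :
    SOne fun a : List Bool × List Bool => PhiC c a.1 a.2 := by
  apply SOne.of_rePred
  have h : Partrec fun a : List Bool × List Bool => Nat.Partrec.Code.eval c (encode a) :=
    Nat.Partrec.Code.eval_part.comp (Computable.const c) Computable.encode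
  exact h.dom_re.of_eq fun a => Iff.rfl

theorem exists_code_phiC {Φ : List Bool → List Bool → Prop}
    (hΦ : SOne fun a : List Bool × List Bool => Φ a.1 a.2) :
    ∃ c, ∀ ρ τ, Φ ρ τ ↔ PhiC c ρ τ := by
  have hp := hΦ.rePred
  unfold REPred at hp
  obtain ⟨c, hc⟩ := Nat.Partrec.Code.exists_code.1 hp
  refine ⟨c, fun ρ τ => ?_⟩
  unfold PhiC
  rw [hc]
  simp [Part.assert]

theorem take_block (X : ℕ → Bool) {i m : ℕ} (h : i ≤ m) : (block X 0 m).take i = block X 0 i := by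
  have h1 := block_zero_isPrefix X h
  rw [List.prefix_iff_eq_take] at h1
  rw [length_block] at h1
  exact h1.symm

theorem drop_block (X : ℕ → Bool) (n m : ℕ) : (block X 0 (n + m)).drop n = block X n m := by
  unfold block
  rw [List.range_add, List.map_append, List.drop_append_of_le_length (by simp)]
  rw [List.drop_of_length_le (by simp)]
  simp

variable {U : List Bool →. List Bool}

theorem SC_mono {α β : ℚ} (h : α ≤ β) : SC U β ⊆ SC U α := by
  intro X hX
  unfold SC at hX ⊢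
  rw [Set.mem_iUnion] at hX ⊢
  obtain ⟨c, hc⟩ := hX
  refine ⟨c, fun n m => ?_⟩
  have h1 : (0 : ℚ) ≤ m := Nat.cast_nonneg _
  have h2 := hc n m
  nlinarith

theorem weakLE_of_le {α β : ℚ} (h : α ≤ β) : WeakLE (SC U α) (SC U β) :=
  fun Y hY => ⟨Y, SC_mono h hY, TuringReducible.refl _⟩

/-- The main construction. -/
theorem exists_generic (hU : IsUniversal U) {α β : ℚ} (hα : 0 < α) (hαβ : α < β) (hβ : β < 1) :
    ∃ X ∈ SC U α, ∀ Y ∈ SC U β, ¬ TuringReducible (toPFun Y) (toPFun X) := by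
  classical
  -- `α = A / b`
  obtain ⟨A, b, hA, hb, hAb⟩ : ∃ A b : ℕ, A ≠ 0 ∧ b ≠ 0 ∧ α = (A : ℚ) / b := by
    have hnum : 0 < α.num := Rat.num_pos.2 hα
    refine ⟨α.num.natAbs, α.den, Int.natAbs_ne_zero.2 hnum.ne', α.den_ne_zero, ?_⟩
    have h3 : ((α.num.natAbs : ℕ) : ℚ) = ((α.num : ℤ) : ℚ) := by
      rw [Nat.cast_natAbs, abs_of_pos hnum]
    rw [h3]
    exact (Rat.num_div_den α).symm
  obtain ⟨px, py, q, Q, a, x, y, hq, hpx, hpy, hx, hy, hx2, hxy, hy1, haQ, hQ, hr, hβQ, hyb⟩ :=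
    exists_params hb (hAb ▸ hαβ) hβ
  obtain ⟨c0, hc0⟩ := exists_initial (U := U) hU.1.1 hx2 hxy.le hy1 hA hyb
  -- the chain of conditions
  let St := {s : List Bool × (List Bool → Prop) // Cond x y s.1 s.2}
  let Met : Option (Nat.Partrec.Code × ℕ) → St → St → Prop := fun o s s' =>
    ∀ c d, o = some (c, d) →
      ((∃ i, i ≤ s'.1.1.length ∧ ∃ τ p, PhiC c (s'.1.1.take i) τ ∧ τ ∈ U p ∧
          (p.length : ℚ) < β * τ.length - d) ∨
        (∃ n, ∀ ρ, s'.1.1 <+: ρ → (∃ τ, τ.length = n ∧ ∃ i, i ≤ ρ.length ∧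
          PhiC c (ρ.take i) τ) → s'.1.2 ρ))
  let Req : ℕ → St → St → Prop := fun n s s' =>
    s.1.1 <+: s'.1.1 ∧ s.1.1.length < s'.1.1.length ∧ (∀ ρ, s.1.2 ρ → s'.1.2 ρ) ∧
      Met (decode n) s s'
  have hstep : ∀ n s, ∃ s', Req n s s' := by
    intro n s
    obtain ⟨⟨σ, S⟩, hs⟩ := s
    -- first extend by one bit
    have hone : ∃ e : Bool, Cond x y (σ ++ [e]) S := by
      obtain ⟨hS, B0, hB0y, hB0x, hsafe, hcov⟩ := hs
      obtain ⟨e, he⟩ := exists_safe_append hB0x.le hsafe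
      exact ⟨e, hS, B0, hB0y, hB0x, he, hcov⟩
    obtain ⟨e, he⟩ := hone
    cases ho : (decode n : Option (Nat.Partrec.Code × ℕ)) with
    | none =>
      refine ⟨⟨(σ ++ [e], S), he⟩, List.prefix_append _ _, by simp, fun _ h => h, ?_⟩
      intro c d hcd
      rw [ho] at hcd
      simp at hcd
    | some cd =>
      obtain ⟨c, d⟩ := cd
      obtain ⟨σ', S', h1, h2, h3, h4⟩ := exists_step hU hq hpx hpy hx hy hxy hy1 haQ hQ hr hβQ he
        (sOne_phiC c) d
      have h5 : σ <+: σ' := (List.prefix_append _ _).trans h1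
      have h6 : σ.length < σ'.length := by
        have := h1.length_le
        simp at this
        omega
      refine ⟨⟨(σ', S'), h3⟩, h5, h6, h2, ?_⟩
      intro c' d' hcd
      rw [ho] at hcd
      have h7 : (c, d) = (c', d') := Option.some.inj hcd
      rw [Prod.mk.injEq] at h7
      obtain ⟨rfl, rfl⟩ := h7
      rcases h4 with h4 | ⟨m, h4⟩
      · exact Or.inl h4
      · exact Or.inr ⟨m, fun ρ h8 h9 => h4 ρ (h1.trans h8) h9⟩
  obtain ⟨f, hf0, hf⟩ := exists_sequence (St := St) ⟨([], S0 U A b c0), hc0⟩ Req hstep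
  -- basic facts on the chain
  have hchain : ∀ k l, k ≤ l → (f k).1.1 <+: (f l).1.1 := by
    intro k l hkl
    induction l, hkl using Nat.le_induction with
    | base => exact List.prefix_rfl
    | succ l _ ih => exact ih.trans (hf l).1
  have hSmono : ∀ k l, k ≤ l → ∀ ρ, (f k).1.2 ρ → (f l).1.2 ρ := by
    intro k l hkl
    induction l, hkl using Nat.le_induction with
    | base => exact fun _ h => h
    | succ l _ ih => exact fun ρ h => (hf l).2.2.1 ρ (ih ρ h)
  have hlen : ∀ k, k ≤ (f k).1.1.length := by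
    intro k
    induction k with
    | zero => exact Nat.zero_le _
    | succ k ih =>
      have := (hf k).2.1
      omega
  -- the limit
  let X : ℕ → Bool := fun n => (f (n + 1)).1.1.getD n false
  have hX : ∀ k, block X 0 (f k).1.1.length = (f k).1.1 := by
    intro k
    apply List.ext_getElem?
    intro i
    rw [block_getElem?]
    split_ifs with h
    · have h1 : i < (f (i + 1)).1.1.length := hlen (i + 1)
      have h2 : X i = (f (i + 1)).1.1[i] := by
        simp only [X]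
        rw [List.getD_eq_getElem _ _ h1]
      rw [h2]
      rcases le_total k (i + 1) with h3 | h3
      · obtain ⟨r, hr⟩ := hchain _ _ h3
        have h4 : (f (i + 1)).1.1[i]? = (f k).1.1[i]? := by
          rw [← hr, List.getElem?_append_left h]
        rw [← h4, List.getElem?_eq_getElem h1]
      · obtain ⟨r, hr⟩ := hchain _ _ h3
        have h4 : (f k).1.1[i]? = (f (i + 1)).1.1[i]? := by
          rw [← hr, List.getElem?_append_left h1]
        rw [h4, List.getElem?_eq_getElem h1]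
    · rw [List.getElem?_eq_none (not_lt.1 h)]
  have hXm : ∀ k m, m ≤ (f k).1.1.length → block X 0 m <+: (f k).1.1 := by
    intro k m h
    rw [← hX k]
    exact block_zero_isPrefix X h
  have hXk : ∀ k m, (f k).1.1.length ≤ m → (f k).1.1 <+: block X 0 m := by
    intro k m h
    rw [← hX k]
    exact block_zero_isPrefix X h
  have hXS : ∀ k m, ¬ (f k).1.2 (block X 0 m) := by
    intro k m h
    have h1 : m ≤ (f (max k m)).1.1.length := (le_max_right k m).trans (hlen _)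
    obtain ⟨-, B0, -, -, hsafe, hcov⟩ := (f (max k m)).2
    exact hcov _ (hSmono k _ (le_max_left k m) _ h) (hsafe.of_isPrefix (hXm _ _ h1))
  refine ⟨X, ?_, ?_⟩
  · -- `X` is shift complex
    unfold SC
    rw [Set.mem_iUnion]
    refine ⟨c0, fun n m => ?_⟩
    by_contra hcon
    rw [not_le] at hcon
    have hm : 0 < m := by
      rcases Nat.eq_zero_or_pos m with rfl | h
      · exfalso
        have h1 : (0 : ℚ) ≤ (K U (block X n 0) : ℚ) := Nat.cast_nonneg _
        have h2 : (0 : ℚ) ≤ (c0 : ℚ) := Nat.cast_nonneg _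
        simp only [Nat.cast_zero, mul_zero] at hcon
        linarith
      · exact h
    obtain ⟨p, hp, hpK⟩ := hU.exists_K (block X n m)
    have hlow : block X n m ∈ Low U A b c0 := by
      refine ⟨p, hp, ?_⟩
      rw [length_block]
      rw [← hpK, hAb] at hcon
      have hbpos : (0 : ℚ) < b := by exact_mod_cast Nat.pos_of_ne_zero hb
      have h1 : (b : ℚ) * p.length < b * ((A : ℚ) / b * m - c0) :=
        mul_lt_mul_of_pos_left hcon hbpos
      have h2 : (b : ℚ) * ((A : ℚ) / b * m - c0) = A * m - b * c0 := by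
        field_simp
      rw [h2] at h1
      have h3 : (b : ℚ) * p.length + b * c0 < A * m := by linarith
      exact_mod_cast h3
    apply hXS 0 (n + m)
    rw [hf0]
    refine ⟨n, by simpa using hm, ?_⟩
    rw [drop_block]
    exact hlow
  · intro Y hY hred
    unfold SC at hY
    rw [Set.mem_iUnion] at hY
    obtain ⟨d, hd⟩ := hY
    obtain ⟨Φ, hΦ, hΦ1, hΦ2⟩ := exists_axioms hred
    obtain ⟨c, hc⟩ := exists_code_phiC hΦ
    have hmet := (hf (encode (c, d))).2.2.2 c d (encodek _)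
    set k := encode (c, d) with hk
    rcases hmet with ⟨i, hi, τ, p, h1, h2, h3⟩ | ⟨n, h4⟩
    · rw [← hX (k + 1), take_block X hi] at h1
      have h5 := hΦ1 i τ ((hc _ _).2 h1)
      have h6 := hd 0 τ.length
      rw [← h5] at h6
      have h7 : (K U τ : ℚ) ≤ p.length := by exact_mod_cast K_le h2
      linarith
    · obtain ⟨m, hm⟩ := hΦ2 n
      have h5 := (hc _ _).1 hm
      apply hXS (k + 1) (max m (f (k + 1)).1.1.length)
      refine h4 _ (hXk _ _ (le_max_right _ _)) ⟨block Y 0 n, by simp, m, by simp, ?_⟩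
      rw [take_block X (le_max_left _ _)]
      exact h5

theorem weakLT_SC (hU : IsUniversal U) {α β : ℚ} (hα : 0 < α) (hαβ : α < β) (hβ : β < 1) :
    WeakLT (SC U α) (SC U β) := by
  refine ⟨weakLE_of_le hαβ.le, fun h => ?_⟩
  obtain ⟨X, hX, hXY⟩ := exists_generic hU hα hαβ hβ
  obtain ⟨Y, hY, hYX⟩ := h X hX
  exact hXY Y hY hYX

end Pool.Agent.Work.MP_a32fd7_lc
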