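import Pool.Agent.Work.MP_a32fd7_lc.Machine
import Pool.Agent.Work.MP_a32fd7_lc.Danger

/-!
# The initial condition
-/

namespace Pool.Agent.Work.MP_a32fd7_lc

open scoped NNReal ENNReal
open Filter Topology

/-- A condition: a finite string `σ` together with an r.e. set `S` of forbidden strings which can
be avoided along an extension of `σ`. -/
def Cond (x y : ℝ≥0) (σ : List Bool) (S : List Bool → Prop) : Prop :=
  SOne S ∧ ∃ B : Set (List Bool), wt (pw y) B ≠ ⊤ ∧ wt (pw x) B + 1 / 2 < x ∧ Safe x B σ ∧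
    ∀ ρ, S ρ → ¬ Safe x B ρ

/-- The strings `w` with `K(w) < (A / b) |w| - c`. -/
def Low (U : List Bool →. List Bool) (A b c : ℕ) : Set (List Bool) :=
  {w | ∃ p, w ∈ U p ∧ b * p.length + b * c < A * w.length}

theorem sOne_graph {U : List Bool →. List Bool} (hU : Partrec U) :
    SOne fun a : List Bool × List Bool => a.2 ∈ U a.1 := by
  have h1 : Primrec₂ fun (a : List Bool × List Bool) (w : List Bool) =>
      (if w = a.2 then some () else none : Option Unit) :=
    Primrec.ite (Primrec.eq.comp Primrec.snd (Primrec.snd.comp Primrec.fst))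
      (Primrec.const (some ())) (Primrec.const none)
  have h2 : Partrec fun a : List Bool × List Bool => (U a.1).bind fun w =>
      ((if w = a.2 then some () else none : Option Unit) : Part Unit) :=
    Partrec.bind (hU.comp Computable.fst) (Computable.ofOption h1.to_comp)
  refine SOne.of_rePred (h2.dom_re.of_eq fun a => ?_)
  constructor
  · intro h
    rw [Part.dom_iff_mem] at h
    obtain ⟨u, hu⟩ := h
    rw [Part.mem_bind_iff] at hu
    obtain ⟨w, hw, h3⟩ := hu
    split_ifs at h3 with h4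
    · rwa [h4] at hw
    · simp at h3
  · intro h
    rw [Part.dom_iff_mem]
    refine ⟨(), ?_⟩
    rw [Part.mem_bind_iff]
    exact ⟨a.2, h, by simp⟩

theorem sOne_low {U : List Bool →. List Bool} (hU : Partrec U) (A b c : ℕ) :
    SOne fun w : List Bool => w ∈ Low U A b c := by
  have h : SOne fun w : List Bool => ∃ p : List Bool,
      w ∈ U p ∧ b * p.length + b * c < A * w.length := by
    apply SOne.exists
    refine SOne.and ?_ ?_
    · exact (sOne_graph hU).comp (f := fun a : List Bool × List Bool => (a.2, a.1))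
        (Primrec.pair Primrec.snd Primrec.fst)
    · apply SOne.of_primrecPred
      exact Primrec.nat_lt.comp
        (Primrec.nat_add.comp (Primrec.nat_mul.comp (Primrec.const b)
          (Primrec.list_length.comp Primrec.snd)) (Primrec.const (b * c)))
        (Primrec.nat_mul.comp (Primrec.const A) (Primrec.list_length.comp Primrec.fst))
  exact h

/-- The strings having a substring at their end in `Low`. -/
def S0 (U : List Bool →. List Bool) (A b c : ℕ) (ρ : List Bool) : Prop :=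
  ∃ i, i < ρ.length ∧ ρ.drop i ∈ Low U A b c

theorem sOne_S0 {U : List Bool →. List Bool} (hU : Partrec U) (A b c : ℕ) :
    SOne (S0 U A b c) := by
  have h : SOne fun ρ : List Bool => ∃ i : ℕ, i < ρ.length ∧ ρ.drop i ∈ Low U A b c := by
    apply SOne.exists
    refine SOne.and ?_ ?_
    · apply SOne.of_primrecPred
      exact Primrec.nat_lt.comp Primrec.snd (Primrec.list_length.comp Primrec.fst)
    · exact (sOne_low hU A b c).comp (f := fun a : List Bool × ℕ => a.1.drop a.2)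
        (Primrec.list_drop.comp Primrec.snd Primrec.fst)
  exact h

theorem sum_wordsEq (z : ℝ≥0) (n : ℕ) : ((wordsEq n).map (pw z)).sum = (2 * z) ^ n := by
  have h1 : (wordsEq n).map (pw z) = List.replicate (2 ^ n) (z ^ n) := by
    rw [← length_wordsEq n, List.eq_replicate_iff]
    refine ⟨by simp, ?_⟩
    intro a ha
    obtain ⟨w, hw, rfl⟩ := List.mem_map.1 ha
    rw [pw, mem_wordsEq.1 hw]
  rw [h1, List.sum_replicate, nsmul_eq_mul, mul_pow]
  push_cast
  ring

theorem sum_wordsLE (z : ℝ≥0) (s : ℕ) :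
    ((wordsLE s).map (pw z)).sum = ∑ n ∈ Finset.range (s + 1), (2 * z) ^ n := by
  unfold wordsLE
  induction s with
  | zero => simp [wordsEq, pw]
  | succ s ih =>
    rw [List.range_succ, List.flatMap_append, List.map_append, List.sum_append, ih,
      Finset.sum_range_succ _ (s + 1)]
    simp only [List.flatMap_singleton, sum_wordsEq]

theorem wt_univ_ne_top {z : ℝ≥0} (hz : z < 1 / 2) : wt (pw z) Set.univ ≠ ⊤ := by
  have h2z : 2 * z < 1 := by
    have := mul_lt_mul_of_pos_left hz (show (0 : ℝ≥0) < 2 by norm_num)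
    simpa using this
  have h1 : wt (pw z) Set.univ ≤ ∑' n : ℕ, ((2 * z : ℝ≥0) : ℝ≥0∞) ^ n := by
    apply wt_le_of_forall
    intro s _
    have h3 : ∃ N : ℕ, ∀ w ∈ s, w.length ≤ N := by
      refine ⟨∑ w ∈ s, w.length, fun w hw => ?_⟩
      exact Finset.single_le_sum (f := fun w : List Bool => w.length)
        (fun _ _ => Nat.zero_le _) hw
    obtain ⟨N, hN⟩ := h3
    have h4 : ∑ w ∈ s, pw z w ≤ ∑ w ∈ (wordsLE N).toFinset, pw z w :=
      Finset.sum_le_sum_of_subset fun w hw => List.mem_toFinset.2 (mem_wordsLE.2 (hN w hw))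
    rw [List.sum_toFinset _ (nodup_wordsLE N), sum_wordsLE] at h4
    calc ((∑ w ∈ s, pw z w : ℝ≥0) : ℝ≥0∞)
        ≤ ((∑ n ∈ Finset.range (N + 1), (2 * z) ^ n : ℝ≥0) : ℝ≥0∞) := ENNReal.coe_le_coe.2 h4
      _ = ∑ n ∈ Finset.range (N + 1), ((2 * z : ℝ≥0) : ℝ≥0∞) ^ n := by push_cast; rfl
      _ ≤ _ := ENNReal.sum_le_tsum _
  refine ne_top_of_le_ne_top ?_ h1
  rw [ENNReal.tsum_geometric]
  have h5 : ((2 * z : ℝ≥0) : ℝ≥0∞) < 1 := by exact_mod_cast h2z
  exact ENNReal.inv_ne_top.2 (tsub_pos_of_lt h5).ne'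

theorem wt_low_le {U : List Bool →. List Bool} {y z : ℝ≥0} {A b : ℕ} (hy : y ≤ 1)
    (hA : A ≠ 0) (hyz : y ^ b ≤ z ^ A) (c : ℕ) :
    wt (pw y) (Low U A b c) ≤ (z : ℝ≥0∞) ^ c * wt (pw z) Set.univ := by
  classical
  have h1 : ∀ w : Low U A b c, ∃ p : List Bool, w.1 ∈ U p ∧
      b * p.length + b * c < A * w.1.length := fun w => w.2
  choose p hp1 hp2 using h1
  have hinj : Function.Injective p := by
    intro w w' h
    have h2 := hp1 w
    rw [h] at h2
    exact Subtype.ext (Part.mem_unique h2 (hp1 w'))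
  have h3 : ∀ w : Low U A b c, (pw y w.1 : ℝ≥0∞) ≤ (z : ℝ≥0∞) ^ c * (pw z (p w) : ℝ≥0∞) := by
    intro w
    have h4 : y ^ w.1.length ≤ z ^ (c + (p w).length) := by
      have h5 : (y ^ w.1.length) ^ A ≤ (z ^ (c + (p w).length)) ^ A := by
        calc (y ^ w.1.length) ^ A = y ^ (A * w.1.length) := by rw [← pow_mul, mul_comm]
          _ ≤ y ^ (b * (p w).length + b * c) :=
              pow_le_pow_of_le_one zero_le hy (hp2 w).le
          _ = (y ^ b) ^ (c + (p w).length) := by
              rw [← pow_mul]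
              congr 1
              ring
          _ ≤ (z ^ A) ^ (c + (p w).length) := pow_le_pow_left₀ zero_le hyz _
          _ = (z ^ (c + (p w).length)) ^ A := by rw [← pow_mul, ← pow_mul, mul_comm]
      exact (pow_le_pow_iff_left₀ zero_le zero_le hA).1 h5
    unfold pw
    have h6 : ((y ^ w.1.length : ℝ≥0) : ℝ≥0∞) ≤ ((z ^ (c + (p w).length) : ℝ≥0) : ℝ≥0∞) :=
      ENNReal.coe_le_coe.2 h4
    refine h6.trans (le_of_eq ?_)
    push_cast
    rw [pow_add]
  calc wt (pw y) (Low U A b c) ≤ ∑' w : Low U A b c, (z : ℝ≥0∞) ^ c * (pw z (p w) : ℝ≥0∞) :=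
        ENNReal.tsum_le_tsum h3
    _ = (z : ℝ≥0∞) ^ c * ∑' w : Low U A b c, (pw z (p w) : ℝ≥0∞) := ENNReal.tsum_mul_left
    _ ≤ (z : ℝ≥0∞) ^ c * ∑' q : List Bool, (pw z q : ℝ≥0∞) := by
        gcongr
        exact ENNReal.tsum_comp_le_tsum_of_injective hinj _
    _ = _ := by
        unfold wt
        rw [tsum_univ (fun q : List Bool => (pw z q : ℝ≥0∞))]

theorem exists_initial {U : List Bool →. List Bool} (hU : Partrec U) {x y : ℝ≥0} {A b : ℕ}
    (hx : 1 / 2 < x) (hxy : x ≤ y) (hy : y ≤ 1) (hA : A ≠ 0) (hyb : y ^ b < (1 / 2) ^ A) :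
    ∃ c : ℕ, Cond x y [] (S0 U A b c) := by
  -- an `A`-th root of `y ^ b`
  obtain ⟨z, hz⟩ : ∃ z : ℝ≥0, z ^ A = y ^ b :=
    ⟨(y ^ b) ^ ((A : ℝ)⁻¹), NNReal.rpow_inv_natCast_pow _ hA⟩
  have hz2 : z < 1 / 2 := by
    have h1 : z ^ A < (1 / 2) ^ A := by rw [hz]; exact hyb
    exact lt_of_pow_lt_pow_left₀ A zero_le h1
  have hfin := wt_univ_ne_top hz2
  have htend : Tendsto (fun c : ℕ => (z : ℝ≥0∞) ^ c * wt (pw z) Set.univ) atTop (𝓝 0) := by
    have h1 : (z : ℝ≥0∞) < 1 := by
      have h2 : z < 1 := hz2.trans (by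
        rw [div_lt_one (by norm_num)]
        norm_num)
      exact_mod_cast h2
    have h2 := ENNReal.Tendsto.mul_const (b := wt (pw z) Set.univ)
      (ENNReal.tendsto_pow_atTop_nhds_zero_iff.2 h1) (Or.inr hfin)
    simpa using h2
  have hx' : (1 / 2 : ℝ≥0∞) < x := by
    have : (1 / 2 : ℝ≥0∞) = ((1 / 2 : ℝ≥0) : ℝ≥0∞) := by
      rw [ENNReal.coe_div (by norm_num)]
      simp
    rw [this]
    exact_mod_cast hx
  have hpos : (0 : ℝ≥0∞) < x - 1 / 2 := tsub_pos_of_lt hx'
  obtain ⟨c, hc⟩ := (htend.eventually_lt_const hpos).exists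
  have hw := wt_low_le (U := U) hy hA hz.ge c
  refine ⟨c, sOne_S0 hU A b c, Low U A b c, ?_, ?_, safe_nil _ _, ?_⟩
  · exact ne_top_of_le_ne_top (hc.trans_le (by
      exact tsub_le_self)).ne_top hw
  · have h3 : wt (pw x) (Low U A b c) ≤ wt (pw y) (Low U A b c) :=
      wt_le_wt fun w _ => pow_le_pow_left₀ zero_le hxy _
    have h4 : wt (pw x) (Low U A b c) < x - 1 / 2 := (h3.trans hw).trans_lt hc
    exact lt_tsub_iff_right.1 h4
  · rintro ρ ⟨i, hi, h⟩
    exact not_safe_of_mem hi h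

end Pool.Agent.Work.MP_a32fd7_lc
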