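import Pool.Agent.Work.MP_a32fd7_lc.Words
import Pool.Agent.Work.MP_a32fd7_lc.Defs

/-!
# Short descriptions of the members of small sets that can be searched for
-/

namespace Pool.Agent.Work.MP_a32fd7_lc

open Encodable

/-- Uniformisation of an r.e. relation. -/
theorem SOne.uniformise {α : Type*} [Primcodable α] {P : ℕ → α → Prop}
    (hP : SOne fun a : ℕ × α => P a.1 a.2) :
    ∃ f : ℕ →. α, Partrec f ∧ (∀ m A, A ∈ f m → P m A) ∧ ∀ m, (∃ A, P m A) → (f m).Dom := by
  classical
  obtain ⟨R, hR, hP⟩ := hP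
  have hcond : PrimrecPred fun b : (ℕ × ℕ) × α => R (b.1.1, b.2) b.1.2.unpair.2 :=
    PrimrecRel.comp hR (Primrec.pair (Primrec.fst.comp Primrec.fst) Primrec.snd)
      (Primrec.snd.comp (Primrec.unpair.comp (Primrec.snd.comp Primrec.fst)))
  have hg : Primrec₂ fun (b : ℕ × ℕ) (A : α) =>
      if R (b.1, A) b.2.unpair.2 then some A else none :=
    Primrec.ite hcond (Primrec.option_some.comp Primrec.snd) (Primrec.const none)
  have hdec : Primrec fun b : ℕ × ℕ => (decode b.2.unpair.1 : Option α) :=
    Primrec.decode.comp (Primrec.fst.comp (Primrec.unpair.comp Primrec.snd))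
  have hF : Primrec₂ fun (m n : ℕ) => (decode n.unpair.1 : Option α).bind fun A =>
      if R (m, A) n.unpair.2 then some A else none := Primrec.option_bind hdec hg
  refine ⟨fun m => Nat.rfindOpt fun n => (decode n.unpair.1 : Option α).bind fun A =>
      if R (m, A) n.unpair.2 then some A else none, Partrec.rfindOpt hF.to_comp, ?_, ?_⟩
  · intro m A hA
    obtain ⟨n, hn⟩ := Nat.rfindOpt_spec hA
    rw [Option.mem_def, Option.bind_eq_some_iff] at hn
    obtain ⟨A', -, h2⟩ := hn
    split_ifs at h2 with h3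
    have h4 : A' = A := Option.some.inj h2
    subst h4
    exact (hP (m, A')).2 ⟨_, h3⟩
  · rintro m ⟨A, hA⟩
    obtain ⟨k, hk⟩ := (hP (m, A)).1 hA
    rw [Nat.rfindOpt_dom]
    refine ⟨Nat.pair (encode A) k, A, ?_⟩
    simp [hk]

theorem findIdx_replicate (m : ℕ) (q : List Bool) :
    (List.replicate m true ++ false :: q).findIdx (fun b => !b) = m := by
  induction m with
  | zero => simp [List.findIdx_cons]
  | succ m ih => simp [List.replicate_succ, List.findIdx_cons, ih]

/-- The machine which on input `1^m 0 q`, `|q| = l m`, searches for a list `A` with `P m A` and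
outputs the member of `A` with index given by `q`. -/
theorem exists_machine {P : ℕ → List (List Bool) → Prop}
    (hP : SOne fun a : ℕ × List (List Bool) => P a.1 a.2) {l : ℕ → ℕ} (hl : Primrec l)
    (hlen : ∀ m A, P m A → A.length ≤ 2 ^ l m) :
    ∃ V : List Bool →. List Bool, IsPrefixFreeMachine V ∧ ∀ m, (∃ A, P m A) →
      ∃ A, P m A ∧ ∀ τ ∈ A, ∃ p, τ ∈ V p ∧ p.length = m + 1 + l m := by
  classical
  obtain ⟨f, hf, hf1, hf2⟩ := hP.uniformise
  let mi : List Bool → ℕ := fun p => p.findIdx (fun b => !b)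
  have hmi : Primrec mi := Primrec.list_findIdx Primrec.id
    ((Primrec.not.comp Primrec.snd) : Primrec₂ fun (_ : List Bool) (b : Bool) => !b)
  have hdr : Primrec fun p : List Bool => p.drop (mi p + 1) :=
    Primrec.list_drop.comp (Primrec.succ.comp hmi) Primrec.id
  let g : List Bool → List (List Bool) → Option (List Bool) := fun p A =>
    if p[mi p]? = some false ∧ (p.drop (mi p + 1)).length = l (mi p) then
      A[(wordsEq (l (mi p))).idxOf (p.drop (mi p + 1))]? else none
  have hg : Primrec₂ g := by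
    have h1 : PrimrecPred fun a : List Bool × List (List Bool) =>
        a.1[mi a.1]? = some false ∧ (a.1.drop (mi a.1 + 1)).length = l (mi a.1) :=
      PrimrecPred.and
        (Primrec.eq.comp (Primrec.list_getElem?.comp Primrec.fst (hmi.comp Primrec.fst))
          (Primrec.const (some false)))
        (Primrec.eq.comp (Primrec.list_length.comp (hdr.comp Primrec.fst))
          (hl.comp (hmi.comp Primrec.fst)))
    have h3 : Primrec fun a : List Bool × List (List Bool) =>
        (wordsEq (l (mi a.1))).idxOf (a.1.drop (mi a.1 + 1)) := by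
      refine (Primrec.list_idxOf.comp (hdr.comp Primrec.fst)
        (primrec_wordsEq.comp (hl.comp (hmi.comp Primrec.fst)))).of_eq fun a => ?_
      congr 1
      exact lawful_beq_subsingleton _ _
    have h2 : Primrec fun a : List Bool × List (List Bool) =>
        a.2[(wordsEq (l (mi a.1))).idxOf (a.1.drop (mi a.1 + 1))]? :=
      Primrec.list_getElem?.comp Primrec.snd h3
    exact Primrec.ite h1 h2 (Primrec.const none)
  refine ⟨fun p => (f (mi p)).bind fun A => (g p A : Part (List Bool)), ⟨?_, ?_⟩, ?_⟩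
  · exact Partrec.bind (hf.comp hmi.to_comp) (Computable.ofOption hg.to_comp)
  · intro p p' hp hp' hpp
    have key : ∀ p : List Bool, ((f (mi p)).bind fun A => (g p A : Part (List Bool))).Dom →
        p[mi p]? = some false ∧ (p.drop (mi p + 1)).length = l (mi p) := by
      intro p hp
      rw [Part.dom_iff_mem] at hp
      obtain ⟨τ, hτ⟩ := hp
      rw [Part.mem_bind_iff] at hτ
      obtain ⟨A, -, h2⟩ := hτ
      simp only [g] at h2
      split_ifs at h2 with h3
      · exact h3
      · simp at h2
    obtain ⟨h1, h2⟩ := key p hp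
    obtain ⟨h3, h4⟩ := key p' hp'
    have hlt : mi p < p.length := by
      by_contra hcon
      rw [List.getElem?_eq_none (not_lt.1 hcon)] at h1
      simp at h1
    have hlt' : mi p' < p'.length := by
      by_contra hcon
      rw [List.getElem?_eq_none (not_lt.1 hcon)] at h3
      simp at h3
    have hmm : mi p' = mi p := by
      obtain ⟨r, rfl⟩ := hpp
      simp only [mi]
      rw [List.findIdx_append]
      rw [if_pos hlt]
    have hle := hpp.length_le
    apply hpp.eq_of_length
    rw [List.length_drop] at h2 h4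
    rw [hmm] at h4
    omega
  · intro m hm
    obtain ⟨A, hA⟩ := Part.dom_iff_mem.1 (hf2 m hm)
    have hPA := hf1 m A hA
    refine ⟨A, hPA, fun τ hτ => ?_⟩
    obtain ⟨j, hj, rfl⟩ := List.getElem_of_mem hτ
    have hj2 : j < (wordsEq (l m)).length := by
      rw [length_wordsEq]
      exact hj.trans_le (hlen m A hPA)
    have hq : ((wordsEq (l m))[j]).length = l m := mem_wordsEq.1 (List.getElem_mem hj2)
    refine ⟨List.replicate m true ++ false :: (wordsEq (l m))[j], ?_, ?_⟩
    · have hmi' : mi (List.replicate m true ++ false :: (wordsEq (l m))[j]) = m := by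
        exact findIdx_replicate m _
      have hdrop : (List.replicate m true ++ false :: (wordsEq (l m))[j]).drop (m + 1) =
          (wordsEq (l m))[j] := by
        rw [List.drop_append]
        simp
      rw [Part.mem_bind_iff]
      refine ⟨A, by rw [hmi']; exact hA, ?_⟩
      simp only [g, hmi', hdrop]
      rw [if_pos ⟨by simp, hq⟩, (nodup_wordsEq (l m)).idxOf_getElem j hj2]
      simp
    · simp [hq]
      omega

variable {U : List Bool →. List Bool}

theorem IsUniversal.exists_short (hU : IsUniversal U) {P : ℕ → List (List Bool) → Prop}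
    (hP : SOne fun a : ℕ × List (List Bool) => P a.1 a.2) {l : ℕ → ℕ} (hl : Primrec l)
    (hlen : ∀ m A, P m A → A.length ≤ 2 ^ l m) :
    ∃ c : ℕ, ∀ m, (∃ A, P m A) →
      ∃ A, P m A ∧ ∀ τ ∈ A, ∃ p, τ ∈ U p ∧ p.length ≤ m + 1 + l m + c := by
  obtain ⟨V, hV, h⟩ := exists_machine hP hl hlen
  obtain ⟨c, hc⟩ := hU.2 V hV
  refine ⟨c, fun m hm => ?_⟩
  obtain ⟨A, hA, h1⟩ := h m hm
  refine ⟨A, hA, fun τ hτ => ?_⟩
  obtain ⟨p, hp, hp'⟩ := h1 τ hτ
  obtain ⟨q, hq, hq'⟩ := hc p τ hp
  exact ⟨q, hq, by omega⟩

/-- Every string has a program. -/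
theorem IsUniversal.exists_program (hU : IsUniversal U) (τ : List Bool) : ∃ p, τ ∈ U p := by
  have hP : SOne fun a : ℕ × List (List Bool) => a.2 = [((decode a.1 : Option (List Bool))).getD []] := by
    apply SOne.of_primrecPred
    refine Primrec.eq.comp Primrec.snd ?_
    exact Primrec.list_cons.comp (Primrec.option_getD.comp
      (Primrec.decode.comp Primrec.fst) (Primrec.const [])) (Primrec.const [])
  obtain ⟨c, hc⟩ := hU.exists_short (P := fun m A =>
    A = [((decode m : Option (List Bool))).getD []]) hP (l := fun _ => 0) (Primrec.const 0)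
    (by rintro m A rfl; simp)
  obtain ⟨A, hA, h⟩ := hc (encode τ) ⟨_, rfl⟩
  rw [encodek, Option.getD_some] at hA
  subst hA
  obtain ⟨p, hp, -⟩ := h τ (by simp)
  exact ⟨p, hp⟩

theorem K_le {p τ : List Bool} (h : τ ∈ U p) : K U τ ≤ p.length := Nat.sInf_le ⟨p, h, rfl⟩

theorem IsUniversal.exists_K (hU : IsUniversal U) (τ : List Bool) :
    ∃ p, τ ∈ U p ∧ p.length = K U τ := by
  obtain ⟨p, hp⟩ := hU.exists_program τ
  exact Nat.sInf_mem (s := {n : ℕ | ∃ p : List Bool, τ ∈ U p ∧ p.length = n}) ⟨p.length, p, hp, rfl⟩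

end Pool.Agent.Work.MP_a32fd7_lc
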