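import Pool.Agent.Work.MP_a32fd7_lc.CaseB
import Pool.Agent.Work.MP_a32fd7_lc.Cert
import Pool.Agent.Work.MP_a32fd7_lc.Init

/-!
# The main step of the construction
-/

namespace Pool.Agent.Work.MP_a32fd7_lc

open scoped NNReal ENNReal
open Filter Topology

theorem primrecPred_isPrefix (σ : List Bool) : PrimrecPred fun ρ : List Bool => σ <+: ρ := by
  have h : PrimrecPred fun ρ : List Bool => σ = ρ.take σ.length :=
    Primrec.eq.comp (Primrec.const σ) (Primrec.list_take.comp (Primrec.const _) Primrec.id)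
  exact h.of_eq fun ρ => List.prefix_iff_eq_take.symm

theorem sOne_TA {γ : Type*} [Primcodable γ] {Φ : List Bool → List Bool → Prop}
    (hΦ : SOne fun a : List Bool × List Bool => Φ a.1 a.2) (σ : List Bool)
    {A : γ → List Bool → Prop} (hA : SOne fun a : γ × List Bool => A a.1 a.2) :
    SOne fun a : γ × List Bool => TA Φ σ (A a.1) a.2 := by
  unfold TA
  refine SOne.and ?_ ?_
  · exact SOne.of_primrecPred ((primrecPred_isPrefix σ).comp Primrec.snd)
  · apply SOne.exists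
    refine SOne.and ?_ ?_
    · exact hA.comp (f := fun a : (γ × List Bool) × List Bool => (a.1.1, a.2))
        (Primrec.pair (Primrec.fst.comp Primrec.fst) Primrec.snd)
    · apply SOne.exists
      refine SOne.and ?_ ?_
      · apply SOne.of_primrecPred
        exact Primrec.nat_le.comp Primrec.snd
          (Primrec.list_length.comp (Primrec.snd.comp (Primrec.fst.comp Primrec.fst)))
      · exact hΦ.comp (f := fun a : ((γ × List Bool) × List Bool) × ℕ =>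
          (a.1.1.2.take a.2, a.1.2))
          (Primrec.pair (Primrec.list_take.comp Primrec.snd
            (Primrec.snd.comp (Primrec.fst.comp Primrec.fst)))
            (Primrec.snd.comp Primrec.fst))

/-- The search predicate. -/
def Found (Φ : List Bool → List Bool → Prop) (S : List Bool → Prop) (σ : List Bool)
    (px py q Q e R L : ℕ) (bl : List (List Bool)) (m : ℕ) (A : List (List Bool)) : Prop :=
  (A.length ≤ 2 ^ (e * m) ∧ ∀ τ ∈ A, τ.length = Q * m) ∧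
    ∃ F : List (List Bool), ∃ s : ℕ, CertNat px py q R L bl F s ∧
      ∀ ρ ∈ F, (S ρ ∨ TA Φ σ (fun τ => τ ∈ A) ρ)

theorem sOne_found {Φ : List Bool → List Bool → Prop}
    (hΦ : SOne fun a : List Bool × List Bool => Φ a.1 a.2) {S : List Bool → Prop} (hS : SOne S)
    (σ : List Bool) (px py q Q e R L : ℕ) (bl : List (List Bool)) :
    SOne fun a : ℕ × List (List Bool) => Found Φ S σ px py q Q e R L bl a.1 a.2 := by
  unfold Found
  refine SOne.and (SOne.and ?_ ?_) ?_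
  · apply SOne.of_primrecPred
    exact Primrec.nat_le.comp (Primrec.list_length.comp Primrec.snd)
      (primrec_pow.comp (Primrec.const 2) (Primrec.nat_mul.comp (Primrec.const e) Primrec.fst))
  · apply SOne.forall_mem_list (p := fun (a : ℕ × List (List Bool)) (τ : List Bool) =>
      τ.length = Q * a.1) (l := fun a => a.2)
    · apply SOne.of_primrecPred
      exact Primrec.eq.comp (Primrec.list_length.comp Primrec.snd)
        (Primrec.nat_mul.comp (Primrec.const Q) (Primrec.fst.comp Primrec.fst))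
    · exact Primrec.snd
  · apply SOne.exists
    apply SOne.exists
    refine SOne.and ?_ ?_
    · apply SOne.of_primrecPred
      exact (primrec_certNat px py q R L bl).comp
        (f := fun a : ((ℕ × List (List Bool)) × List (List Bool)) × ℕ => (a.1.2, a.2))
        (Primrec.pair (Primrec.snd.comp Primrec.fst) Primrec.snd)
    · apply SOne.forall_mem_list
        (p := fun (a : ((ℕ × List (List Bool)) × List (List Bool)) × ℕ) (ρ : List Bool) =>
          (S ρ ∨ TA Φ σ (fun τ => τ ∈ a.1.1.2) ρ)) (l := fun a => a.1.2)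
      · refine SOne.or ?_ ?_
        · exact hS.comp (f := fun a :
            ((((ℕ × List (List Bool)) × List (List Bool)) × ℕ) × List Bool) => a.2) Primrec.snd
        · refine (sOne_TA (γ := List (List Bool)) hΦ σ (A := fun A τ => τ ∈ A) ?_).comp
            (f := fun a :
            ((((ℕ × List (List Bool)) × List (List Bool)) × ℕ) × List Bool) =>
              (a.1.1.1.2, a.2)) ?_
          · exact SOne.of_primrecPred (primrecPred_mem_list Primrec.snd Primrec.fst)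
          · exact Primrec.pair (Primrec.snd.comp (Primrec.fst.comp (Primrec.fst.comp
              Primrec.fst))) Primrec.snd
      · exact Primrec.snd.comp Primrec.fst

theorem good_pw {x y κ : ℝ≥0} (hxy : x ≤ y) (hy : y ≠ 0) (hκ : 1 ≤ κ) : Good x y κ (pw x) := by
  intro n w hw
  calc pw x w ≤ (x / y) ^ n * pw y w := pw_le hxy hy hw
    _ = 1 * (x / y) ^ n * pw y w := by rw [one_mul]
    _ ≤ κ * (x / y) ^ n * pw y w := by gcongr

theorem good_dc {x y κ : ℝ≥0} (hx : x ≤ 1) (hx0 : x ≠ 0) (hxy : x ≤ y) (hy : y ≠ 0)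
    {ρ : List Bool} {l : ℕ} (hρ : ρ.length ≤ l) (hκ : l * (x⁻¹) ^ l ≤ κ) :
    Good x y κ (dc x ρ) := by
  intro n w hw
  have h1 : (1 : ℝ≥0) ≤ x⁻¹ := (one_le_inv₀ (pos_iff_ne_zero.2 hx0)).2 hx
  calc dc x ρ w ≤ (ρ.length * (x⁻¹) ^ ρ.length) * pw x w := dc_le hx hx0 ρ w
    _ ≤ (l * (x⁻¹) ^ l) * ((x / y) ^ n * pw y w) := by
        gcongr
        exact pw_le hxy hy hw
    _ ≤ κ * ((x / y) ^ n * pw y w) := by gcongr
    _ = κ * (x / y) ^ n * pw y w := by ring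

/-- Room left by a condition. -/
theorem exists_slack {x : ℝ≥0} {B0 : Set (List Bool)} {σ : List Bool}
    (h1 : wt (pw x) B0 + 1 / 2 < x) (h2 : Safe x B0 σ) :
    ∃ ε : ℝ≥0, 0 < ε ∧ wt (pw x) B0 + ε + 1 / 2 < x ∧
      ∀ i, i ≤ σ.length → dg x B0 (σ.take i) + ε < 1 / 2 := by
  have ht : Tendsto (fun k : ℕ => (((1 / ((k : ℝ≥0) + 1) : ℝ≥0)) : ℝ≥0∞)) atTop (𝓝 0) := by
    have h3 : Tendsto (fun k : ℕ => (1 / ((k : ℝ≥0) + 1) : ℝ≥0)) atTop (𝓝 0) :=
      tendsto_one_div_add_atTop_nhds_zero_nat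
    rw [← ENNReal.coe_zero]
    exact ENNReal.tendsto_coe.2 h3
  have h4 : ∀ᶠ k : ℕ in atTop,
      wt (pw x) B0 + (((1 / ((k : ℝ≥0) + 1) : ℝ≥0)) : ℝ≥0∞) + 1 / 2 < x := by
    have h5 : Tendsto (fun k : ℕ => wt (pw x) B0 +
        (((1 / ((k : ℝ≥0) + 1) : ℝ≥0)) : ℝ≥0∞) + 1 / 2) atTop
        (𝓝 (wt (pw x) B0 + 0 + 1 / 2)) :=
      (tendsto_const_nhds.add ht).add tendsto_const_nhds
    rw [add_zero] at h5
    exact h5.eventually_lt_const h1
  have h6 : ∀ᶠ k : ℕ in atTop, ∀ i ∈ Finset.range (σ.length + 1),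
      dg x B0 (σ.take i) + (((1 / ((k : ℝ≥0) + 1) : ℝ≥0)) : ℝ≥0∞) < 1 / 2 := by
    rw [Filter.eventually_all_finset]
    intro i hi
    have h5 : Tendsto (fun k : ℕ => dg x B0 (σ.take i) +
        (((1 / ((k : ℝ≥0) + 1) : ℝ≥0)) : ℝ≥0∞)) atTop (𝓝 (dg x B0 (σ.take i) + 0)) :=
      tendsto_const_nhds.add ht
    rw [add_zero] at h5
    exact h5.eventually_lt_const (h2 i (by have := Finset.mem_range.1 hi; omega))
  obtain ⟨k, h7, h8⟩ := (h4.and h6).exists
  exact ⟨1 / ((k : ℝ≥0) + 1), by positivity, h7, fun i hi =>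
    h8 i (Finset.mem_range.2 (by omega))⟩

/-- The main step. -/
theorem exists_step {U : List Bool →. List Bool} (hU : IsUniversal U) {px py q Q a : ℕ}
    (hq : q ≠ 0) (hpx : px ≠ 0) (hpy : py ≠ 0) {x y : ℝ≥0} (hx : x = (px : ℝ≥0) / q)
    (hy : y = (py : ℝ≥0) / q) (hxy : x < y) (hy1 : y ≤ 1) (haQ : a ≤ Q)
    (hQ : 1 ≤ 2 ^ a * y ^ Q) (hr : (2 * (x / y)) ^ Q < 2 ^ a) {β : ℚ}
    (hβ : (a : ℚ) + 5 < β * Q) {σ : List Bool} {S : List Bool → Prop} (hc : Cond x y σ S)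
    {Φ : List Bool → List Bool → Prop} (hΦ : SOne fun a : List Bool × List Bool => Φ a.1 a.2)
    (d : ℕ) :
    ∃ (σ' : List Bool) (S' : List Bool → Prop), σ <+: σ' ∧ (∀ ρ, S ρ → S' ρ) ∧ Cond x y σ' S' ∧
      ((∃ i, i ≤ σ'.length ∧ ∃ τ p, Φ (σ'.take i) τ ∧ τ ∈ U p ∧
          (p.length : ℚ) < β * τ.length - d) ∨
        (∃ n, ∀ ρ, σ <+: ρ → (∃ τ, τ.length = n ∧ ∃ i, i ≤ ρ.length ∧ Φ (ρ.take i) τ) →
          S' ρ)) := by
  classical
  obtain ⟨hS, B0, hB0y, hB0x, hsafe, hcov⟩ := hc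
  have hx0 : x ≠ 0 := by
    rw [hx]
    exact div_ne_zero (by exact_mod_cast hpx) (by exact_mod_cast hq)
  have hy0 : y ≠ 0 := (pos_of_gt hxy).ne'
  have hx1 : x ≤ 1 := hxy.le.trans hy1
  obtain ⟨R, hR⟩ := ENNReal.exists_nat_gt hB0y
  obtain ⟨ε, hε, hε1, hε2⟩ := exists_slack hB0x hsafe
  have hε' : 0 < ε / 2 := by positivity
  set κ : ℝ≥0 := 1 + σ.length * (x⁻¹) ^ σ.length with hκ
  have hκ1 : 1 ≤ κ := le_self_add
  have hκ2 : σ.length * (x⁻¹) ^ σ.length ≤ κ := le_add_self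
  have hxy1 : x / y < 1 := by
    rw [div_lt_one (pos_of_gt hxy)]
    exact hxy
  -- choice of `L`
  have hL : ∀ᶠ L : ℕ in atTop, ((Q + 1 : ℕ) : ℝ≥0) * (κ * (x / y) ^ L * R) < ε / 2 := by
    have h1 : Tendsto (fun L : ℕ => ((Q + 1 : ℕ) : ℝ≥0) * (κ * (x / y) ^ L * R)) atTop
        (𝓝 (((Q + 1 : ℕ) : ℝ≥0) * (κ * 0 * R))) :=
      (((tendsto_pow_atTop_nhds_zero_of_lt_one zero_le hxy1).const_mul κ).mul_const
        (R : ℝ≥0)).const_mul _
    rw [mul_zero, zero_mul, mul_zero] at h1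
    exact h1.eventually_lt_const hε'
  obtain ⟨L, hL⟩ := hL.exists
  let bl : List (List Bool) := (wordsLE L).filter (fun w => w ∈ B0)
  have hbl : ∀ w : List Bool, w.length ≤ L → (w ∈ {w | w ∈ bl} ↔ w ∈ B0) := by
    intro w hw
    change w ∈ (wordsLE L).filter (fun w => w ∈ B0) ↔ w ∈ B0
    rw [List.mem_filter, mem_wordsLE]
    simp [hw]
  have hInV : ∀ B, InV y R L {w | w ∈ bl} B ↔ InV y R L B0 B := by
    intro B
    unfold InV
    refine and_congr_right fun _ => forall_congr' fun w => ?_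
    constructor
    · intro h hw
      exact (h hw).trans (hbl w hw)
    · intro h hw
      exact (h hw).trans (hbl w hw).symm
  have hB0V : InV y R L B0 B0 := ⟨hR.le, fun w _ => Iff.rfl⟩
  by_cases hcase : ∃ m0 : ℕ, ∀ m, m0 ≤ m → ∃ A, Found Φ S σ px py q Q (a + 4) R L bl m A
  · -- case (a)
    obtain ⟨m0, hm0⟩ := hcase
    obtain ⟨c, hcU⟩ := hU.exists_short
      (sOne_found hΦ hS σ px py q Q (a + 4) R L bl) (l := fun m => (a + 4) * m)
      (Primrec.nat_mul.comp (Primrec.const (a + 4)) Primrec.id)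
      (fun m A hA => hA.1.1)
    -- a large `m`
    have hgap : 0 < β * Q - (a + 5) := by linarith
    obtain ⟨m1, hm1⟩ := exists_nat_gt (((c : ℚ) + 1 + d) / (β * Q - (a + 5)))
    set m := max m0 m1 with hmdef
    have hm1' : ((c : ℚ) + 1 + d) / (β * Q - (a + 5)) < m :=
      hm1.trans_le (by exact_mod_cast le_max_right m0 m1)
    rw [div_lt_iff₀ hgap] at hm1'
    obtain ⟨A, hA, hAp⟩ := hcU m (hm0 m (le_max_left _ _))
    obtain ⟨⟨-, hAlen⟩, F, s, hcert, hF⟩ := hA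
    have hsem := (certNat_iff hq hpx hpy).1 hcert
    rw [← hx, ← hy] at hsem
    obtain ⟨ρ, hρF, hρ⟩ := hsem.sound hx1 hx0 hxy.le hy0 ((hInV B0).2 hB0V)
    rcases hF ρ hρF with h1 | h1
    · exact absurd hρ (hcov ρ h1)
    · obtain ⟨h2, τ, hτ, i, hi, h3⟩ := h1
      obtain ⟨p, hp, hp'⟩ := hAp τ hτ
      refine ⟨ρ, S, h2, fun _ h => h, ⟨hS, B0, hB0y, hB0x, hρ, hcov⟩, Or.inl
        ⟨i, hi, τ, p, h3, hp, ?_⟩⟩
      rw [hAlen τ hτ]
      have h4 : (p.length : ℚ) ≤ (m : ℚ) + 1 + (a + 4) * m + c := by exact_mod_cast hp'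
      push_cast
      linarith
  · -- case (b)
    push Not at hcase
    have hev : ∀ᶠ m : ℕ in atTop, 3 ≤ m ∧ (Q * m + 1) * R + 1 < 2 ^ m ∧
        ((Q + 1 : ℕ) : ℝ≥0) * κ * R *
          (((2 ^ (Q * m) / 2 ^ (a * m) + 1 : ℕ) : ℝ≥0) * (x / y) ^ (Q * m)) < ε / 2 :=
      (eventually_ge_atTop 3).and ((eventually_poly_lt Q R).and
        ((tendsto_pieces haQ hr _).eventually_lt_const hε'))
    obtain ⟨m0, hm0⟩ := eventually_atTop.1 hev
    obtain ⟨m, hm, hno⟩ := hcase m0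
    obtain ⟨hm3, hmR, hmε⟩ := hm0 m hm
    have h : ∀ A : Finset (List Bool), (∀ τ ∈ A, τ.length = Q * m) →
        A.card ≤ 2 ^ ((a + 4) * m) → ∃ B, InV y R L B0 B ∧
          ∀ ρ, (S ρ ∨ TA Φ σ (fun τ => τ ∈ A) ρ) → ¬ Safe x B ρ := by
      intro A hA hAc
      by_contra hcon
      push Not at hcon
      obtain ⟨F, s, hcert, hF⟩ := exists_certSem hx1 hx0 hxy (R := R) (L := L)
        (bs := {w | w ∈ bl}) {ρ | S ρ ∨ TA Φ σ (fun τ => τ ∈ A) ρ}
        (fun B hB => by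
          obtain ⟨ρ, h1, h2⟩ := hcon B ((hInV B).1 hB)
          exact ⟨ρ, h1, h2⟩)
      refine hno A.toList ⟨⟨by rwa [Finset.length_toList], fun τ hτ =>
        hA τ (Finset.mem_toList.1 hτ)⟩, F, s, ?_, fun ρ hρ => ?_⟩
      · rw [certNat_iff hq hpx hpy, ← hx, ← hy]
        exact hcert
      · rcases hF ρ hρ with h1 | ⟨h1, τ, h2, h3⟩
        · exact Or.inl h1
        · exact Or.inr ⟨h1, τ, Finset.mem_toList.2 h2, h3⟩
    obtain ⟨B', hB1, hB2, hB3, hB4⟩ := caseB hy1 hQ hR.le hcov hm3 hmR h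
    have hsmall : ((((Q + 1 : ℕ) : ℝ≥0) * (κ * (x / y) ^ L * R) +
          ((Q + 1 : ℕ) : ℝ≥0) * (((2 ^ (Q * m) / 2 ^ (a * m) + 1 : ℕ) : ℝ≥0) *
            (κ * (x / y) ^ (Q * m) * R)) : ℝ≥0) : ℝ≥0∞) ≤ ε := by
      rw [ENNReal.coe_le_coe]
      have h1 : ((Q + 1 : ℕ) : ℝ≥0) * (((2 ^ (Q * m) / 2 ^ (a * m) + 1 : ℕ) : ℝ≥0) *
          (κ * (x / y) ^ (Q * m) * R)) = ((Q + 1 : ℕ) : ℝ≥0) * κ * R *
          (((2 ^ (Q * m) / 2 ^ (a * m) + 1 : ℕ) : ℝ≥0) * (x / y) ^ (Q * m)) := by ring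
      rw [h1]
      calc _ ≤ ε / 2 + ε / 2 := add_le_add hL.le hmε.le
        _ = ε := add_halves ε
    refine ⟨σ, fun ρ => S ρ ∨ TA Φ σ (fun τ => τ.length = Q * m) ρ, List.prefix_rfl,
      fun ρ h => Or.inl h, ⟨?_, B', hB3, ?_, ?_, ?_⟩, Or.inr ⟨Q * m, fun ρ h1 h2 =>
        Or.inr ⟨h1, h2⟩⟩⟩
    · refine SOne.or hS ?_
      have h1 := sOne_TA (γ := ℕ) hΦ σ (A := fun n τ => τ.length = n)
        (SOne.of_primrecPred (Primrec.eq.comp (Primrec.list_length.comp Primrec.snd) Primrec.fst))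
      exact h1.comp (f := fun ρ : List Bool => (Q * m, ρ)) (Primrec.pair (Primrec.const _)
        Primrec.id)
    · have h1 := hB4 κ (pw x) (good_pw hxy.le hy0 hκ1)
      calc wt (pw x) B' + 1 / 2 ≤ wt (pw x) B0 + ε + 1 / 2 := by
            gcongr
            exact h1.trans (by gcongr)
        _ < x := hε1
    · intro i hi
      have h1 := hB4 κ (dc x (σ.take i)) (good_dc hx1 hx0 hxy.le hy0
        (List.length_take_le' _ _) hκ2)
      calc dg x B' (σ.take i) ≤ dg x B0 (σ.take i) + ε := h1.trans (by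
            unfold dg
            gcongr)
        _ < 1 / 2 := hε2 i hi
    · rintro ρ (h1 | h1)
      · exact hB1 ρ h1
      · exact hB2 ρ h1

end Pool.Agent.Work.MP_a32fd7_lc
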