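import Pool.Agent.Work.MP_a32fd7_lc.Sigma

/-!
# Lists of binary words
-/

namespace Pool.Agent.Work.MP_a32fd7_lc

/-- All words of length `n`. -/
def wordsEq : ℕ → List (List Bool)
  | 0 => [[]]
  | n + 1 => (wordsEq n).map (fun w => false :: w) ++ (wordsEq n).map (fun w => true :: w)

theorem mem_wordsEq {n : ℕ} {w : List Bool} : w ∈ wordsEq n ↔ w.length = n := by
  induction n generalizing w with
  | zero => simp [wordsEq]
  | succ n ih =>
    simp only [wordsEq, List.mem_append, List.mem_map, ih]
    constructor
    · rintro (⟨v, hv, rfl⟩ | ⟨v, hv, rfl⟩) <;> simp [hv]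
    · intro h
      cases w with
      | nil => simp at h
      | cons a v =>
        have hv : v.length = n := by simpa using h
        cases a
        · exact Or.inl ⟨v, hv, rfl⟩
        · exact Or.inr ⟨v, hv, rfl⟩

theorem length_wordsEq (n : ℕ) : (wordsEq n).length = 2 ^ n := by
  induction n with
  | zero => rfl
  | succ n ih => simp [wordsEq, ih, pow_succ]; ring

/-- All words of length at most `s`. -/
def wordsLE (s : ℕ) : List (List Bool) := (List.range (s + 1)).flatMap wordsEq

theorem mem_wordsLE {s : ℕ} {w : List Bool} : w ∈ wordsLE s ↔ w.length ≤ s := by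
  simp only [wordsLE, List.mem_flatMap, List.mem_range, mem_wordsEq]
  constructor
  · rintro ⟨a, h1, h2⟩
    omega
  · intro h
    exact ⟨w.length, by omega, rfl⟩

theorem length_wordsLE (s : ℕ) : (wordsLE s).length + 1 = 2 ^ (s + 1) := by
  unfold wordsLE
  induction s with
  | zero => rfl
  | succ s ih =>
    rw [List.range_succ, List.flatMap_append, List.length_append]
    simp only [List.flatMap_singleton, length_wordsEq]
    rw [pow_succ]
    omega

theorem primrec_wordsEq : Primrec wordsEq := by
  have h : Primrec₂ fun (_ : ℕ) (c : ℕ × List (List Bool)) =>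
      c.2.map (fun w => false :: w) ++ c.2.map (fun w => true :: w) := by
    have h1 : ∀ a : Bool, Primrec fun (c : ℕ × (ℕ × List (List Bool))) =>
        c.2.2.map (fun w => a :: w) := fun a =>
      Primrec.list_map (Primrec.snd.comp Primrec.snd)
        (Primrec.list_cons.comp (Primrec.const a) Primrec.snd)
    exact Primrec.list_append.comp (h1 false) (h1 true)
  have h2 := Primrec.nat_rec' (f := fun n : ℕ => n) (g := fun _ : ℕ => [([] : List Bool)])
    Primrec.id (Primrec.const _) h
  refine h2.of_eq fun n => ?_
  induction n with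
  | zero => rfl
  | succ n ih => simp only [wordsEq, ← ih]

theorem primrec_wordsLE : Primrec wordsLE :=
  Primrec.list_flatMap (Primrec.list_range.comp Primrec.succ)
    (primrec_wordsEq.comp Primrec.snd)

/-- All sublists of a list. -/
def subl {α : Type*} (l : List α) : List (List α) :=
  l.foldr (fun w acc => acc ++ acc.map (fun v => w :: v)) [[]]

theorem mem_subl {α : Type*} {l c : List α} : c ∈ subl l ↔ c.Sublist l := by
  induction l generalizing c with
  | nil => simp [subl]
  | cons a l ih =>
    have : subl (a :: l) = subl l ++ (subl l).map (fun v => a :: v) := rfl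
    rw [this, List.mem_append, List.mem_map, List.sublist_cons_iff]
    simp only [ih]
    constructor
    · rintro (h | ⟨v, hv, rfl⟩)
      · exact Or.inl h
      · exact Or.inr ⟨v, rfl, hv⟩
    · rintro (h | ⟨v, rfl, hv⟩)
      · exact Or.inl h
      · exact Or.inr ⟨v, hv, rfl⟩

theorem primrec_subl {α : Type*} [Primcodable α] : Primrec (subl : List α → List (List α)) := by
  have h : Primrec₂ fun (_ : List α) (c : α × List (List α)) =>
      c.2 ++ c.2.map (fun v => c.1 :: v) := by
    refine Primrec.list_append.comp (Primrec.snd.comp Primrec.snd) ?_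
    exact Primrec.list_map (Primrec.snd.comp Primrec.snd)
      (Primrec.list_cons.comp (Primrec.fst.comp (Primrec.snd.comp Primrec.fst)) Primrec.snd)
  exact (Primrec.list_foldr Primrec.id (Primrec.const [([] : List α)]) h)

theorem nodup_wordsEq (n : ℕ) : (wordsEq n).Nodup := by
  induction n with
  | zero => simp [wordsEq]
  | succ n ih =>
    rw [wordsEq, List.nodup_append]
    refine ⟨ih.map (fun a b h => by simpa using h), ih.map (fun a b h => by simpa using h), ?_⟩
    intro a ha b hb
    rw [List.mem_map] at ha hb
    obtain ⟨v, -, rfl⟩ := ha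
    obtain ⟨u, -, rfl⟩ := hb
    simp

theorem nodup_wordsLE (s : ℕ) : (wordsLE s).Nodup := by
  unfold wordsLE
  rw [List.nodup_flatMap]
  refine ⟨fun n _ => nodup_wordsEq n, ?_⟩
  have := List.nodup_range (n := s + 1)
  refine List.Pairwise.imp ?_ this
  intro a b hab
  rw [Function.onFun, List.disjoint_left]
  intro w h1 h2
  rw [mem_wordsEq] at h1 h2
  exact hab (h1.symm.trans h2)

end Pool.Agent.Work.MP_a32fd7_lc
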